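import Mathlib

/-!
# [H29 BP GRE] two selection lemmas

Paper proofs. `greedy`: induction over the number of elements of `I`. If `I` is empty take
`J = ∅`. Otherwise let `i ∈ I` have the largest weight, `N = {j ∈ I : j = i ∨ R i j}` (at most
`K` elements of weight at most `w i`, so `∑_N w ≤ K * w i`), apply the induction hypothesis to
`I \ N` and add `i`.

`subset_half`: induction over `M` for all `w` at the same time. Let
`val M w = q ∑_M w - q² ∑_{b ∈ M} ∑_{b' ∈ M \ b} y b b'`. For `a ∉ M`: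
`val (insert a M) w = (1 - q) * val M w + q * (w a + val M w')` with
`w' b = w b - (y a b + y b a)`, so one of `val M w`, `w a + val M w'` is at least
`val (insert a M) w`. In the first case take the set of the induction hypothesis for `w`, in the
second case add `a` to the set of the induction hypothesis for `w'`.
-/

set_option autoImplicit false

open scoped Classical

noncomputable section

namespace H29.BP

theorem greedy_aux {ι : Type} (w : ι → ℝ) (R : ι → ι → Prop)
    (hR : ∀ i j, R i j → R j i) (K : ℕ) : ∀ (n : ℕ) (I : Finset ι), I.card = n →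
      (∀ i ∈ I, 0 ≤ w i) → (∀ i ∈ I, (I.filter fun j => j = i ∨ R i j).card ≤ K) →
      ∃ J ⊆ I, (∀ i ∈ J, ∀ j ∈ J, i ≠ j → ¬ R i j) ∧ ∑ i ∈ I, w i ≤ K * ∑ i ∈ J, w i := by
  intro n
  induction n using Nat.strong_induction_on with
  | _ n ih =>
    intro I hn hw hK
    rcases I.eq_empty_or_nonempty with rfl | hne
    · exact ⟨∅, Finset.Subset.refl _, by simp, by simp⟩
    · obtain ⟨i, hi, hmax⟩ := Finset.exists_max_image I w hne
      set N := I.filter fun j => j = i ∨ R i j with hN
      have hiN : i ∈ N := by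
        rw [hN, Finset.mem_filter]
        exact ⟨hi, Or.inl rfl⟩
      have hNI : N ⊆ I := Finset.filter_subset _ _
      have hlt : (I \ N).card < n := by
        rw [← hn]
        refine Finset.card_lt_card ⟨Finset.sdiff_subset, fun h => ?_⟩
        exact (Finset.mem_sdiff.1 (h hi)).2 hiN
      obtain ⟨J, hJ, hJR, hJw⟩ := ih (I \ N).card hlt (I \ N) rfl
        (fun j hj => hw j (Finset.mem_sdiff.1 hj).1)
        (fun j hj => (Finset.card_le_card (Finset.filter_subset_filter _
          Finset.sdiff_subset)).trans (hK j (Finset.mem_sdiff.1 hj).1))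
      have hiJ : i ∉ J := fun h => (Finset.mem_sdiff.1 (hJ h)).2 hiN
      have hno : ∀ j ∈ J, ¬ R i j := by
        intro j hj hr
        have h1 := Finset.mem_sdiff.1 (hJ hj)
        exact h1.2 (Finset.mem_filter.2 ⟨h1.1, Or.inr hr⟩)
      refine ⟨insert i J, ?_, ?_, ?_⟩
      · intro j hj
        rcases Finset.mem_insert.1 hj with rfl | hj
        · exact hi
        · exact (Finset.mem_sdiff.1 (hJ hj)).1
      · intro j hj k hk hjk
        rcases Finset.mem_insert.1 hj with h1 | hj'
        · rcases Finset.mem_insert.1 hk with h2 | hk'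
          · exact absurd (h1.trans h2.symm) hjk
          · rw [h1]
            exact hno k hk'
        · rcases Finset.mem_insert.1 hk with h2 | hk'
          · rw [h2]
            exact fun h => hno j hj' (hR _ _ h)
          · exact hJR j hj' k hk' hjk
      · rw [Finset.sum_insert hiJ, mul_add]
        have h2 : ∑ j ∈ N, w j ≤ K * w i := by
          calc ∑ j ∈ N, w j ≤ ∑ _j ∈ N, w i := Finset.sum_le_sum fun j hj => hmax j (hNI hj)
            _ = N.card * w i := by rw [Finset.sum_const, nsmul_eq_mul]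
            _ ≤ K * w i := by
                refine mul_le_mul_of_nonneg_right ?_ (hw i hi)
                exact_mod_cast hK i hi
        have h3 : ∑ j ∈ I, w j = ∑ j ∈ I \ N, w j + ∑ j ∈ N, w j :=
          (Finset.sum_sdiff hNI).symm
        linarith

theorem greedy {ι : Type} (I : Finset ι) (w : ι → ℝ) (hw : ∀ i ∈ I, 0 ≤ w i) (R : ι → ι → Prop)
    (hR : ∀ i j, R i j → R j i) (K : ℕ)
    (hK : ∀ i ∈ I, (I.filter fun j => j = i ∨ R i j).card ≤ K) :
    ∃ J ⊆ I, (∀ i ∈ J, ∀ j ∈ J, i ≠ j → ¬ R i j) ∧ ∑ i ∈ I, w i ≤ K * ∑ i ∈ J, w i :=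
  greedy_aux w R hR K I.card I rfl hw hK

theorem sum_erase_insert {ι : Type} [DecidableEq ι] (M : Finset ι) (y : ι → ι → ℝ) {a : ι} (ha : a ∉ M) :
    ∑ b ∈ insert a M, ∑ b' ∈ (insert a M).erase b, y b b' =
      (∑ b ∈ M, ∑ b' ∈ M.erase b, y b b') + ∑ b ∈ M, (y a b + y b a) := by
  rw [Finset.sum_insert ha, Finset.erase_insert ha]
  have h1 : ∀ b ∈ M, ∑ b' ∈ (insert a M).erase b, y b b' =
      y b a + ∑ b' ∈ M.erase b, y b b' := by
    intro b hb
    have hab : a ≠ b := by
      rintro rfl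
      exact ha hb
    rw [Finset.erase_insert_of_ne hab, Finset.sum_insert]
    exact fun h => ha (Finset.mem_of_mem_erase h)
  rw [Finset.sum_congr rfl h1, Finset.sum_add_distrib, Finset.sum_add_distrib]
  ring

theorem subset_half {ι : Type} [DecidableEq ι] (M : Finset ι) (w : ι → ℝ) (y : ι → ι → ℝ) (q : ℝ) (hq0 : 0 ≤ q)
    (hq1 : q ≤ 1) :
    ∃ B ⊆ M, q * ∑ b ∈ M, w b - q ^ 2 * ∑ b ∈ M, ∑ b' ∈ M.erase b, y b b' ≤
      ∑ b ∈ B, w b - ∑ b ∈ B, ∑ b' ∈ B.erase b, y b b' := by
  induction M using Finset.induction_on generalizing w with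
  | empty => exact ⟨∅, Finset.Subset.refl _, by simp⟩
  | @insert a M ha ih =>
    obtain ⟨B₀, hB₀, h0⟩ := ih w
    obtain ⟨B₁, hB₁, h1⟩ := ih (fun b => w b - (y a b + y b a))
    have haB : a ∉ B₁ := fun h => ha (hB₁ h)
    rw [Finset.sum_insert ha, sum_erase_insert M y ha]
    rw [Finset.sum_sub_distrib, Finset.sum_sub_distrib] at h1
    by_cases hc : q * (w a + ∑ b ∈ M, w b) - q ^ 2 * ((∑ b ∈ M, ∑ b' ∈ M.erase b, y b b') +
        ∑ b ∈ M, (y a b + y b a)) ≤ q * ∑ b ∈ M, w b - q ^ 2 * ∑ b ∈ M, ∑ b' ∈ M.erase b, y b b'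
    · exact ⟨B₀, hB₀.trans (Finset.subset_insert _ _), hc.trans h0⟩
    · refine ⟨insert a B₁, Finset.insert_subset_insert _ hB₁, ?_⟩
      rw [Finset.sum_insert haB, sum_erase_insert B₁ y haB]
      push Not at hc
      set A := ∑ b ∈ M, w b
      set Y := ∑ b ∈ M, ∑ b' ∈ M.erase b, y b b'
      set Z := ∑ b ∈ M, (y a b + y b a)
      set A' := ∑ b ∈ B₁, w b
      set Y' := ∑ b ∈ B₁, ∑ b' ∈ B₁.erase b, y b b'
      set Z' := ∑ b ∈ B₁, (y a b + y b a)
      -- `hc : q * A - q ^ 2 * Y < q * (w a + A) - q ^ 2 * (Y + Z)`, i.e. `0 < q (w a - q Z)`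
      have h2 : 0 < q * (w a - q * Z) := by nlinarith
      have h3 : 0 < w a - q * Z := by
        by_contra h
        push Not at h
        nlinarith [mul_nonneg hq0 (neg_nonneg.2 h)]
      nlinarith [mul_nonneg (sub_nonneg.2 hq1) h3.le]

end H29.BP
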