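import Pool.Agent.H29.BP.CasB1
import Pool.Agent.H29.BP.Gre

/-!
# [H29 BP CASB] equal signs on a random part of a matching

Paper proof. `subset_half` with `w b = wB b / 8`, `y = yB` gives `B ⊆ M` with
`q/8 ∑_M wB - q² ∑_{b ≠ b' ∈ M} yB ≤ 1/8 ∑_B wB - ∑_{b ≠ b' ∈ B} yB`; apply `caseB1` to `B`. It
remains `∑_{b ∈ M} ∑_{b' ∈ M.erase b} yB b b' ≤ 3/8 ∑_{e,f} x e f`: exchange the sums; for given
`e, f ∈ E` with `x e f ≠ 0` (four different end points) there are at most two ordered pairs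
`(b, b')` of different edges of `M` with `vs e ∪ vs f = vs b ∪ vs b'`: if `(c, c')` is a second
one, then every vertex of `b` is in `c` or `c'`, so `b = c` or `b = c'` (`M` is a matching), in the
same way `b'`, so `(c, c') = (b, b')` or `(b', b)`.
-/

set_option autoImplicit false
set_option linter.unusedSectionVars false

open scoped Classical

noncomputable section

namespace H29.BP

variable {V : Type} [Fintype V]

theorem two_pairs (M : Finset (Sym2 V)) (hM : ∀ b ∈ M, ∀ b' ∈ M, b ≠ b' → ¬ Meets b b')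
    (T : Finset V) :
    ∑ b ∈ M, ∑ b' ∈ M.erase b, (if T = vs b ∪ vs b' then (1 : ℝ) else 0) ≤ 2 := by
  by_cases h : ∃ c ∈ M, ∃ c' ∈ M, T = vs c ∪ vs c'
  · obtain ⟨c, hc, c', hc', hT⟩ := h
    have key : ∀ b ∈ M, ∀ d ∈ M, T = vs b ∪ vs d → b = c ∨ b = c' := by
      intro b hb d _ hbd
      obtain ⟨v, hv⟩ : ∃ v, v ∈ b := ⟨_, Sym2.out_fst_mem b⟩
      have h1 : v ∈ T := by
        rw [hbd]
        exact Finset.mem_union_left _ (mem_vs.2 hv)
      rw [hT, Finset.mem_union, mem_vs, mem_vs] at h1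
      rcases h1 with h1 | h1
      · left
        by_contra hne
        exact hM b hb c hc hne ⟨v, hv, h1⟩
      · right
        by_contra hne
        exact hM b hb c' hc' hne ⟨v, hv, h1⟩
    have key2 : ∀ b ∈ M, ∀ b' ∈ M.erase b, T = vs b ∪ vs b' →
        (b, b') ∈ ({(c, c'), (c', c)} : Finset (Sym2 V × Sym2 V)) := by
      intro b hb b' hb' hbb
      rw [Finset.mem_erase] at hb'
      have h1 := key b hb b' hb'.2 hbb
      have h2 := key b' hb'.2 b hb (by rw [Finset.union_comm]; exact hbb)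
      rw [Finset.mem_insert, Finset.mem_singleton, Prod.mk.injEq, Prod.mk.injEq]
      rcases h1 with rfl | rfl <;> rcases h2 with rfl | rfl
      · exact absurd rfl hb'.1
      · exact Or.inl ⟨rfl, rfl⟩
      · exact Or.inr ⟨rfl, rfl⟩
      · exact absurd rfl hb'.1
    have h3 : ∑ b ∈ M, ∑ b' ∈ M.erase b, (if T = vs b ∪ vs b' then (1 : ℝ) else 0) ≤
        ∑ p ∈ M ×ˢ M, if p ∈ ({(c, c'), (c', c)} : Finset (Sym2 V × Sym2 V)) then (1 : ℝ)
          else 0 := by
      rw [Finset.sum_product]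
      refine Finset.sum_le_sum fun b hb => ?_
      refine le_trans (Finset.sum_le_sum (g := fun b' =>
        if (b, b') ∈ ({(c, c'), (c', c)} : Finset (Sym2 V × Sym2 V)) then (1 : ℝ) else 0) ?_) ?_
      · intro b' hb'
        by_cases h4 : T = vs b ∪ vs b'
        · rw [if_pos h4, if_pos (key2 b hb b' hb' h4)]
        · rw [if_neg h4]
          split_ifs <;> norm_num
      · refine Finset.sum_le_sum_of_subset_of_nonneg (Finset.erase_subset _ _) fun _ _ _ => ?_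
        split_ifs <;> norm_num
    refine h3.trans ?_
    rw [← Finset.sum_filter, Finset.sum_const, nsmul_eq_mul, mul_one]
    have h5 : ((M ×ˢ M).filter fun p =>
        p ∈ ({(c, c'), (c', c)} : Finset (Sym2 V × Sym2 V))).card ≤ 2 := by
      refine (Finset.card_le_card (t := ({(c, c'), (c', c)} : Finset (Sym2 V × Sym2 V))) ?_).trans
        (Finset.card_insert_le _ _)
      intro p hp
      exact (Finset.mem_filter.1 hp).2
    exact_mod_cast h5
  · push Not at h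
    have h1 : ∑ b ∈ M, ∑ b' ∈ M.erase b, (if T = vs b ∪ vs b' then (1 : ℝ) else 0) = 0 := by
      refine Finset.sum_eq_zero fun b hb => Finset.sum_eq_zero fun b' hb' => ?_
      rw [if_neg (h b hb b' (Finset.mem_of_mem_erase hb'))]
    rw [h1]
    norm_num

theorem caseB (E : Finset (Sym2 V)) (x : Sym2 V → Sym2 V → ℝ) (hE : ∀ e ∈ E, ¬ e.IsDiag)
    (hx0 : ∀ e f, 0 ≤ x e f) (hxs : ∀ e f, x e f = x f e)
    (hxd : ∀ e ∈ E, ∀ f ∈ E, Meets e f → x e f = 0)
    (M : Finset (Sym2 V)) (hME : M ⊆ E) (hM : ∀ b ∈ M, ∀ b' ∈ M, b ≠ b' → ¬ Meets b b')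
    (q : ℝ) (hq0 : 0 ≤ q) (hq1 : q ≤ 1) :
    ∃ s : V → ℤˣ, ∑ e ∈ E, ∑ f ∈ E, x e f * cost s e f ≤
      3 / 8 * (∑ e ∈ E, ∑ f ∈ E, x e f) - q / 8 * ∑ b ∈ M, wB E x b +
        3 / 8 * q ^ 2 * ∑ e ∈ E, ∑ f ∈ E, x e f := by
  obtain ⟨B, hBM, hB⟩ := subset_half M (fun b => wB E x b / 8) (yB E x) q hq0 hq1
  obtain ⟨s, hs⟩ := caseB1 E x hE hx0 hxs hxd B (hBM.trans hME)
    (fun b hb b' hb' => hM b (hBM hb) b' (hBM hb'))
  refine ⟨s, hs.trans ?_⟩
  have hY : ∑ b ∈ M, ∑ b' ∈ M.erase b, yB E x b b' ≤ 3 / 8 * ∑ e ∈ E, ∑ f ∈ E, x e f := by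
    have h1 : ∑ b ∈ M, ∑ b' ∈ M.erase b, yB E x b b' =
        ∑ e ∈ E, ∑ f ∈ E, 3 / 16 * (x e f * ∑ b ∈ M, ∑ b' ∈ M.erase b,
          if vs e ∪ vs f = vs b ∪ vs b' then (1 : ℝ) else 0) := by
      simp only [yB, Finset.mul_sum]
      have e5 : ∑ b ∈ M, ∑ b' ∈ M.erase b, ∑ e ∈ E, ∑ f ∈ E,
          (3 / 16 * if vs e ∪ vs f = vs b ∪ vs b' then x e f else 0) =
          ∑ e ∈ E, ∑ f ∈ E, ∑ b ∈ M, ∑ b' ∈ M.erase b,
          (3 / 16 * if vs e ∪ vs f = vs b ∪ vs b' then x e f else 0) := by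
        rw [Finset.sum_congr rfl fun b _ => Finset.sum_comm, Finset.sum_comm]
        refine Finset.sum_congr rfl fun e _ => ?_
        rw [Finset.sum_congr rfl fun b _ => Finset.sum_comm, Finset.sum_comm]
      rw [e5]
      refine Finset.sum_congr rfl fun e _ => Finset.sum_congr rfl fun f _ =>
        Finset.sum_congr rfl fun b _ => Finset.sum_congr rfl fun b' _ => ?_
      split_ifs <;> ring
    rw [h1, Finset.mul_sum]
    refine Finset.sum_le_sum fun e _ => ?_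
    rw [Finset.mul_sum]
    refine Finset.sum_le_sum fun f _ => ?_
    have h2 := mul_le_mul_of_nonneg_left (two_pairs M hM (vs e ∪ vs f)) (hx0 e f)
    linarith
  have h2 := mul_le_mul_of_nonneg_left hY (sq_nonneg q)
  have hB' : q * ∑ b ∈ M, wB E x b / 8 - q ^ 2 * ∑ b ∈ M, ∑ b' ∈ M.erase b, yB E x b b' ≤
      ∑ b ∈ B, wB E x b / 8 - ∑ b ∈ B, ∑ b' ∈ B.erase b, yB E x b b' := by
    exact hB
  rw [← Finset.sum_div, ← Finset.sum_div] at hB'
  nlinarith [hB', h2]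

end H29.BP
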