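import Pool.Agent.H29.BP.CDef

/-!
# [H29 BP CNTA] counting conflicts in a graph of bounded degree

Paper proofs. `cnt_meets`: the edges `b ∈ E` meeting `e` contain one of the (at most two) end points
of `e`, so there are at most `2 Δ`. `cntA1`: `p.1` contains `v`: at most `Δ` choices; `b` meets `p.1`:
at most `2 Δ` choices; `p.2` meets `b`: at most `2 Δ` choices (bound the set of the `p` by the
image/union over the triples `(p.1, b, p.2)`: `Finset.card_biUnion_le` or
`Finset.card_le_mul_card_image`). `cntA`: some vertex `v` of `p.1` or `p.2` (at most four) is in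
`p'.1` or `p'.2`; both cases have at most `4 Δ³` pairs `p'` (exchange the two edges of `p'` in the
second case), in total `4 * 2 * 4 Δ³`.
-/

set_option autoImplicit false

open scoped Classical

noncomputable section

namespace H29.BP

variable {V : Type} [Fintype V]

theorem card_filter_mem_le (e : Sym2 V) :
    ((Finset.univ : Finset V).filter fun v => v ∈ e).card ≤ 2 := by
  induction e using Sym2.ind with
  | _ a b =>
    have h1 : ((Finset.univ : Finset V).filter fun v => v ∈ s(a, b)) ⊆ {a, b} := by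
      intro v hv
      rw [Finset.mem_filter, Sym2.mem_iff] at hv
      rw [Finset.mem_insert, Finset.mem_singleton]
      exact hv.2
    exact (Finset.card_le_card h1).trans Finset.card_le_two

theorem cnt_meets (E : Finset (Sym2 V)) (Δ : ℕ)
    (hdeg : ∀ v, (E.filter fun e => v ∈ e).card ≤ Δ) (e : Sym2 V) :
    (E.filter fun b => Meets b e).card ≤ 2 * Δ := by
  have h1 : (E.filter fun b => Meets b e) ⊆
      ((Finset.univ : Finset V).filter fun v => v ∈ e).biUnion
        fun v => E.filter fun b => v ∈ b := by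
    intro b hb
    rw [Finset.mem_filter] at hb
    obtain ⟨hb, v, hvb, hve⟩ := hb
    rw [Finset.mem_biUnion]
    exact ⟨v, Finset.mem_filter.2 ⟨Finset.mem_univ _, hve⟩, Finset.mem_filter.2 ⟨hb, hvb⟩⟩
  refine (Finset.card_le_card h1).trans ((Finset.card_biUnion_le_card_mul _ _ Δ
    fun v _ => hdeg v).trans ?_)
  exact Nat.mul_le_mul_right _ (card_filter_mem_le e)

omit [Fintype V] in
theorem Meets.symm {e f : Sym2 V} (h : Meets e f) : Meets f e := by
  obtain ⟨v, h1, h2⟩ := h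
  exact ⟨v, h2, h1⟩

theorem cntA1 (E : Finset (Sym2 V)) (Δ : ℕ)
    (hdeg : ∀ v, (E.filter fun e => v ∈ e).card ≤ Δ) (v : V) :
    ((E ×ˢ E).filter fun p => v ∈ p.1 ∧ ∃ b ∈ E, Meets b p.1 ∧ Meets b p.2).card ≤
      4 * Δ ^ 3 := by
  have h1 : ((E ×ˢ E).filter fun p => v ∈ p.1 ∧ ∃ b ∈ E, Meets b p.1 ∧ Meets b p.2) ⊆
      (E.filter fun e => v ∈ e).biUnion fun e =>
        (E.filter fun b => Meets b e).biUnion fun b =>
          (E.filter fun f => Meets f b).image fun f => (e, f) := by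
    rintro ⟨e, f⟩ hp
    rw [Finset.mem_filter, Finset.mem_product] at hp
    obtain ⟨⟨he, hf⟩, hve, b, hb, hbe, hbf⟩ := hp
    rw [Finset.mem_biUnion]
    refine ⟨e, Finset.mem_filter.2 ⟨he, hve⟩, ?_⟩
    rw [Finset.mem_biUnion]
    refine ⟨b, Finset.mem_filter.2 ⟨hb, hbe⟩, ?_⟩
    rw [Finset.mem_image]
    exact ⟨f, Finset.mem_filter.2 ⟨hf, Meets.symm hbf⟩, rfl⟩
  refine (Finset.card_le_card h1).trans ?_
  have h2 : ∀ e ∈ E.filter fun e => v ∈ e, ((E.filter fun b => Meets b e).biUnion fun b =>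
      (E.filter fun f => Meets f b).image fun f => (e, f)).card ≤ 2 * Δ * (2 * Δ) := by
    intro e _
    refine (Finset.card_biUnion_le_card_mul _ _ (2 * Δ) fun b _ => ?_).trans
      (Nat.mul_le_mul_right _ (cnt_meets E Δ hdeg e))
    exact Finset.card_image_le.trans (cnt_meets E Δ hdeg b)
  refine (Finset.card_biUnion_le_card_mul _ _ _ h2).trans ?_
  calc _ ≤ Δ * (2 * Δ * (2 * Δ)) := Nat.mul_le_mul_right _ (hdeg v)
    _ = 4 * Δ ^ 3 := by ring

theorem cntA (E : Finset (Sym2 V)) (Δ : ℕ)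
    (hdeg : ∀ v, (E.filter fun e => v ∈ e).card ≤ Δ) (p : Sym2 V × Sym2 V) :
    ((E ×ˢ E).filter fun p' => (∃ b ∈ E, Meets b p'.1 ∧ Meets b p'.2) ∧
      ¬ Disjoint (vs p.1 ∪ vs p.2) (vs p'.1 ∪ vs p'.2)).card ≤ 32 * Δ ^ 3 := by
  set S : V → Finset (Sym2 V × Sym2 V) := fun v =>
    (E ×ˢ E).filter fun p => v ∈ p.1 ∧ ∃ b ∈ E, Meets b p.1 ∧ Meets b p.2 with hS
  have h1 : ((E ×ˢ E).filter fun p' => (∃ b ∈ E, Meets b p'.1 ∧ Meets b p'.2) ∧
      ¬ Disjoint (vs p.1 ∪ vs p.2) (vs p'.1 ∪ vs p'.2)) ⊆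
      (vs p.1 ∪ vs p.2).biUnion fun v => S v ∪ (S v).image Prod.swap := by
    rintro ⟨e, f⟩ hp
    rw [Finset.mem_filter, Finset.mem_product] at hp
    obtain ⟨⟨he, hf⟩, ⟨b, hb, hbe, hbf⟩, hnd⟩ := hp
    rw [Finset.not_disjoint_iff] at hnd
    obtain ⟨v, hv1, hv2⟩ := hnd
    rw [Finset.mem_biUnion]
    refine ⟨v, hv1, ?_⟩
    rw [Finset.mem_union]
    rcases Finset.mem_union.1 hv2 with h | h
    · left
      rw [hS, Finset.mem_filter, Finset.mem_product]
      exact ⟨⟨he, hf⟩, (Finset.mem_filter.1 h).2, b, hb, hbe, hbf⟩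
    · right
      rw [Finset.mem_image]
      refine ⟨(f, e), ?_, rfl⟩
      rw [hS, Finset.mem_filter, Finset.mem_product]
      exact ⟨⟨hf, he⟩, (Finset.mem_filter.1 h).2, b, hb, hbf, hbe⟩
  refine (Finset.card_le_card h1).trans ?_
  have h2 : ∀ v ∈ vs p.1 ∪ vs p.2, (S v ∪ (S v).image Prod.swap).card ≤ 8 * Δ ^ 3 := by
    intro v _
    refine (Finset.card_union_le _ _).trans ?_
    have h3 := cntA1 E Δ hdeg v
    have h4 : ((S v).image Prod.swap).card ≤ (S v).card := Finset.card_image_le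
    have h5 : (S v).card ≤ 4 * Δ ^ 3 := h3
    omega
  refine (Finset.card_biUnion_le_card_mul _ _ _ h2).trans ?_
  have h3 : (vs p.1 ∪ vs p.2).card ≤ 4 := by
    refine (Finset.card_union_le _ _).trans ?_
    have h4 : (vs p.1).card ≤ 2 := card_filter_mem_le p.1
    have h5 : (vs p.2).card ≤ 2 := card_filter_mem_le p.2
    omega
  calc _ ≤ 4 * (8 * Δ ^ 3) := Nat.mul_le_mul_right _ h3
    _ = 32 * Δ ^ 3 := by ring

end H29.BP
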