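import Pool.Agent.H29.BP.CasA
import Pool.Agent.H29.BP.CasB
import Pool.Agent.H29.BP.CntA

/-!
# [H29 BP COMB] the combinatorial theorem

Paper proof. `X = ∑_{e,f ∈ E} x e f`, `X₁` the sum over the connected pairs (there is `b ∈ E` with
`Meets b e`, `Meets b f`).

`X ≤ 4 X₁`: `greedy` for `I = {(e, f) ∈ E × E : connected, x e f ≠ 0}`, `w p = x p.1 p.2`,
`R p p' = ¬ Disjoint (vs p.1 ∪ vs p.2) (vs p'.1 ∪ vs p'.2)`, `K = 32 Δ³` (`cntA`; `p' = p` is also
in conflict with `p`): `P ⊆ I` with `X₁ ≤ 32 Δ³ ∑_P x`, `caseA`: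
`F ≤ 3/8 (X - X/(128 Δ³)) ≤ (3/8 - 1/(384 Δ³)) X` as `3/1024 ≥ 1/384`.

`X > 4 X₁`: `∑_{b ∈ E} wB b = 2 X - ∑_{e,f} x e f #{b ∈ E : Meets b e ∧ Meets b f} ≥ 2 X - 4 X₁ ≥ X`:
for `e, f` with `x e f ≠ 0` (disjoint, four different end points) an edge `b` meeting both is one
of the four `s(u, v)`, `u ∈ e`, `v ∈ f`, and the number is `0` if the pair is not connected.
`greedy` for `I = {b ∈ E : 0 < wB b}`, `w = wB`, `R = Meets`, `K = 2 Δ` (`cnt_meets`; `b = b` also
meets itself): `M` with `X ≤ ∑_I wB ≤ 2 Δ ∑_M wB`. `caseB` with `q = 1/(12 Δ)`: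
`F ≤ 3/8 X - X/(192 Δ²) + X/(384 Δ²) = (3/8 - 1/(384 Δ²)) X ≤ (3/8 - 1/(384 Δ³)) X`.
-/

set_option autoImplicit false
set_option linter.unusedSectionVars false

open scoped Classical

noncomputable section

namespace H29.BP

variable {V : Type} [Fintype V]

theorem card_meets_le (E : Finset (Sym2 V)) {e f : Sym2 V}
    (hm : ¬ Meets e f) :
    (E.filter fun b => Meets b e ∧ Meets b f).card ≤ 4 := by
  induction e using Sym2.ind with
  | _ a b =>
    induction f using Sym2.ind with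
    | _ c d =>
      have h1 : (E.filter fun b₀ => Meets b₀ s(a, b) ∧ Meets b₀ s(c, d)) ⊆
          {s(a, c), s(a, d), s(b, c), s(b, d)} := by
        intro b₀ hb₀
        rw [Finset.mem_filter] at hb₀
        obtain ⟨_, ⟨u, hu, hu'⟩, ⟨v, hv, hv'⟩⟩ := hb₀
        have huv : u ≠ v := by
          rintro rfl
          exact hm ⟨u, hu', hv'⟩
        have h2 : b₀ = s(u, v) := ((Sym2.mem_and_mem_iff huv).1 ⟨hu, hv⟩)
        rw [Sym2.mem_iff] at hu' hv'
        rw [h2]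
        simp only [Finset.mem_insert, Finset.mem_singleton]
        rcases hu' with rfl | rfl <;> rcases hv' with rfl | rfl <;> tauto
      refine (Finset.card_le_card h1).trans ?_
      refine (Finset.card_insert_le _ _).trans ?_
      refine (Nat.add_le_add_right (Finset.card_insert_le _ _) 1).trans ?_
      exact Nat.add_le_add_right (Nat.add_le_add_right (Finset.card_insert_le _ _) 1) 1

theorem comb_sum_w (E : Finset (Sym2 V)) (x : Sym2 V → Sym2 V → ℝ)
    (hx0 : ∀ e f, 0 ≤ x e f) (hxd : ∀ e ∈ E, ∀ f ∈ E, Meets e f → x e f = 0) :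
    2 * (∑ e ∈ E, ∑ f ∈ E, x e f) -
      4 * (∑ e ∈ E, ∑ f ∈ E, if ∃ b ∈ E, Meets b e ∧ Meets b f then x e f else 0) ≤
      ∑ b ∈ E, wB E x b := by
  have h1 : ∑ b ∈ E, wB E x b = 2 * (∑ e ∈ E, ∑ f ∈ E, x e f) -
      ∑ e ∈ E, ∑ f ∈ E, ∑ b ∈ E, if Meets b e ∧ Meets b f then x e f else 0 := by
    simp only [wB, Finset.sum_sub_distrib, ← Finset.mul_sum]
    congr 1
    rw [Finset.sum_comm]
    refine Finset.sum_congr rfl fun e _ => ?_
    rw [Finset.sum_comm]
  rw [h1]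
  have h2 : ∑ e ∈ E, ∑ f ∈ E, ∑ b ∈ E, (if Meets b e ∧ Meets b f then x e f else 0) ≤
      4 * (∑ e ∈ E, ∑ f ∈ E, if ∃ b ∈ E, Meets b e ∧ Meets b f then x e f else 0) := by
    rw [Finset.mul_sum]
    refine Finset.sum_le_sum fun e he => ?_
    rw [Finset.mul_sum]
    refine Finset.sum_le_sum fun f hf => ?_
    by_cases hx : x e f = 0
    · simp [hx]
    · have hm : ¬ Meets e f := fun h => hx (hxd e he f hf h)
      rw [← Finset.sum_filter, Finset.sum_const, nsmul_eq_mul]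
      split_ifs with h
      · exact mul_le_mul_of_nonneg_right (by exact_mod_cast card_meets_le E hm) (hx0 e f)
      · push Not at h
        have h3 : (E.filter fun b => Meets b e ∧ Meets b f) = ∅ := by
          refine Finset.filter_eq_empty_iff.2 fun b hb hbb => ?_
          exact h b hb hbb.1 hbb.2
        rw [h3]
        simp
  linarith

theorem comb (E : Finset (Sym2 V)) (x : Sym2 V → Sym2 V → ℝ) (hE : ∀ e ∈ E, ¬ e.IsDiag)
    (hx0 : ∀ e f, 0 ≤ x e f) (hxs : ∀ e f, x e f = x f e)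
    (hxd : ∀ e ∈ E, ∀ f ∈ E, Meets e f → x e f = 0) (Δ : ℕ) (hΔ : 1 ≤ Δ)
    (hdeg : ∀ v, (E.filter fun e => v ∈ e).card ≤ Δ) :
    ∃ s : V → ℤˣ, ∑ e ∈ E, ∑ f ∈ E, x e f * cost s e f ≤
      (3 / 8 - 1 / (384 * (Δ : ℝ) ^ 3)) * ∑ e ∈ E, ∑ f ∈ E, x e f := by
  set X : ℝ := ∑ e ∈ E, ∑ f ∈ E, x e f with hX
  set X₁ : ℝ := ∑ e ∈ E, ∑ f ∈ E, (if ∃ b ∈ E, Meets b e ∧ Meets b f then x e f else 0) with hX₁
  have hX0 : 0 ≤ X := Finset.sum_nonneg fun e _ => Finset.sum_nonneg fun f _ => hx0 e f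
  have hΔ1 : (1 : ℝ) ≤ Δ := by exact_mod_cast hΔ
  have hΔ3 : (1 : ℝ) ≤ (Δ : ℝ) ^ 3 := one_le_pow₀ hΔ1
  by_cases hc : X ≤ 4 * X₁
  · -- many connected pairs
    set I : Finset (Sym2 V × Sym2 V) := (E ×ˢ E).filter fun p =>
      (∃ b ∈ E, Meets b p.1 ∧ Meets b p.2) ∧ x p.1 p.2 ≠ 0 with hI
    have hIsum : ∑ p ∈ I, x p.1 p.2 = X₁ := by
      rw [hI, Finset.sum_filter, hX₁, ← Finset.sum_product' (f := fun e f =>
        if ∃ b ∈ E, Meets b e ∧ Meets b f then x e f else 0)]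
      refine Finset.sum_congr rfl fun p _ => ?_
      by_cases h1 : ∃ b ∈ E, Meets b p.1 ∧ Meets b p.2
      · by_cases h2 : x p.1 p.2 = 0
        · rw [if_neg (fun h => h.2 h2), if_pos h1, h2]
        · rw [if_pos ⟨h1, h2⟩, if_pos h1]
      · rw [if_neg (fun h => h1 h.1), if_neg h1]
    obtain ⟨J, hJI, hJR, hJw⟩ := greedy I (fun p => x p.1 p.2) (fun p _ => hx0 _ _)
      (fun p p' => ¬ Disjoint (vs p.1 ∪ vs p.2) (vs p'.1 ∪ vs p'.2))
      (fun p p' h h' => h h'.symm) (32 * Δ ^ 3) (by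
        intro p hp
        refine le_trans (Finset.card_le_card ?_) (cntA E Δ hdeg p)
        intro p' hp'
        simp only [Finset.mem_filter] at hp'
        rw [Finset.mem_filter]
        have h1 := Finset.mem_filter.1 hp'.1
        refine ⟨h1.1, h1.2.1, ?_⟩
        rcases hp'.2 with rfl | h2
        · intro h3
          rw [Finset.disjoint_self_iff_empty, Finset.union_eq_empty] at h3
          have h4 : (Quot.out p'.1).1 ∈ vs p'.1 := mem_vs.2 (Sym2.out_fst_mem _)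
          rw [h3.1] at h4
          simp at h4
        · exact h2)
    obtain ⟨s, hs⟩ := caseA E x hE hx0 hxd J
      (fun p hp => (Finset.mem_filter.1 (hJI hp)).1)
      (fun p hp h => by
        have h1 := Finset.mem_filter.1 (hJI hp)
        have h2 := Finset.mem_product.1 h1.1
        exact h1.2.2 (hxd _ h2.1 _ h2.2 h))
      (fun p hp p' hp' hne => not_not.1 (hJR p hp p' hp' hne))
    refine ⟨s, hs.trans ?_⟩
    have h1 : X₁ ≤ 32 * (Δ : ℝ) ^ 3 * ∑ p ∈ J, x p.1 p.2 := by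
      rw [← hIsum]
      refine hJw.trans (le_of_eq ?_)
      push_cast
      ring
    have h2 : X / (128 * (Δ : ℝ) ^ 3) ≤ ∑ p ∈ J, x p.1 p.2 := by
      rw [div_le_iff₀ (by positivity)]
      nlinarith
    have h3 : X / (384 * (Δ : ℝ) ^ 3) ≤ 3 / 8 * (X / (128 * (Δ : ℝ) ^ 3)) := by
      rw [div_le_iff₀ (by positivity)]
      have h4 : 3 / 8 * (X / (128 * (Δ : ℝ) ^ 3)) * (384 * (Δ : ℝ) ^ 3) = 9 / 8 * X := by
        field_simp
        ring
      rw [h4]
      linarith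
    have h5 : 1 / (384 * (Δ : ℝ) ^ 3) * X = X / (384 * (Δ : ℝ) ^ 3) := by ring
    nlinarith
  · -- few connected pairs
    push Not at hc
    set I : Finset (Sym2 V) := E.filter fun b => 0 < wB E x b with hI
    have hIsum : X ≤ ∑ b ∈ I, wB E x b := by
      have h1 := comb_sum_w E x hx0 hxd
      have h2 : ∑ b ∈ E, wB E x b ≤ ∑ b ∈ I, wB E x b := by
        rw [hI, Finset.sum_filter]
        refine Finset.sum_le_sum fun b _ => ?_
        split_ifs with h
        · exact le_rfl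
        · exact not_lt.1 h
      linarith
    obtain ⟨J, hJI, hJR, hJw⟩ := greedy I (fun b => wB E x b)
      (fun b hb => (Finset.mem_filter.1 hb).2.le) Meets (fun _ _ h => h.symm) (2 * Δ) (by
        intro b hb
        refine le_trans (Finset.card_le_card ?_) (cnt_meets E Δ hdeg b)
        intro b' hb'
        simp only [Finset.mem_filter] at hb'
        rw [Finset.mem_filter]
        refine ⟨(Finset.mem_filter.1 hb'.1).1, ?_⟩
        rcases hb'.2 with rfl | h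
        · exact ⟨_, Sym2.out_fst_mem _, Sym2.out_fst_mem _⟩
        · exact h.symm)
    have hq0 : (0 : ℝ) ≤ 1 / (12 * Δ) := by positivity
    have hq1 : (1 : ℝ) / (12 * Δ) ≤ 1 := by
      rw [div_le_one (by positivity)]
      linarith
    obtain ⟨s, hs⟩ := caseB E x hE hx0 hxs hxd J
      (fun b hb => (Finset.mem_filter.1 (hJI hb)).1) hJR (1 / (12 * Δ)) hq0 hq1
    refine ⟨s, hs.trans ?_⟩
    have h1 : X ≤ 2 * Δ * ∑ b ∈ J, wB E x b := by
      refine hIsum.trans (hJw.trans (le_of_eq ?_))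
      push_cast
      ring
    set S : ℝ := ∑ b ∈ J, wB E x b with hS
    have h2 : X / (2 * Δ) ≤ S := by
      rw [div_le_iff₀ (by positivity)]
      linarith
    have h3 : X / (192 * (Δ : ℝ) ^ 2) ≤ 1 / (12 * (Δ : ℝ)) / 8 * S := by
      have h4 := mul_le_mul_of_nonneg_left h2 (show (0 : ℝ) ≤ 1 / (12 * (Δ : ℝ)) / 8 by positivity)
      refine le_trans (le_of_eq ?_) h4
      field_simp
      ring
    have h5 : 3 / 8 * (1 / (12 * (Δ : ℝ))) ^ 2 * X = X / (384 * (Δ : ℝ) ^ 2) := by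
      field_simp
      ring
    have h6 : X / (192 * (Δ : ℝ) ^ 2) = 2 * (X / (384 * (Δ : ℝ) ^ 2)) := by
      field_simp
      ring
    have h7 : X / (384 * (Δ : ℝ) ^ 3) ≤ X / (384 * (Δ : ℝ) ^ 2) := by
      refine div_le_div_of_nonneg_left hX0 (by positivity) ?_
      have h8 : (Δ : ℝ) ^ 2 ≤ (Δ : ℝ) ^ 3 := pow_le_pow_right₀ hΔ1 (by norm_num)
      linarith
    have h9 : 1 / (384 * (Δ : ℝ) ^ 3) * X = X / (384 * (Δ : ℝ) ^ 3) := by ring
    rw [h5]
    nlinarith

end H29.BP
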