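import Pool.Agent.H29.BP.Pol
import Pool.Agent.H29.BP.Comb

/-!
# [H29 BP BDFIN] graphs of bounded degree: the final theorem

Paper proof. Let `D` be a drawing with `D.cr = CR G` such that every vertex is incident with at
most `Δ` crossed edges. Let `E` be the set of the edges `e ∈ ES G` which are crossed (there is
`f ∈ ES G` with `D.x e f ≠ 0`), `x e f = D.x e f`. `hxd`: `opt_x`. The sums over `ES G` in
`CR2_le_cost` and `two_mul_cr` do not change if they are restricted to `E`. `comb` gives `s`.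
For the second statement take any optimal drawing (`exists_opt`); the crossed edges at `v` are
among the edges at `v`, whose number is the number of the neighbours.
-/

set_option autoImplicit false

open Set
open scoped Classical

noncomputable section

namespace H29.BP

theorem sum_restrict {V : Type} [Finite V] {G : SimpleGraph V} (D : Drawing G)
    (w : Sym2 V → Sym2 V → ℝ) :
    ∑ e ∈ ES G, ∑ f ∈ ES G, (D.x e f : ℝ) * w e f =
      ∑ e ∈ (ES G).filter (fun e => ∃ f ∈ ES G, D.x e f ≠ 0),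
        ∑ f ∈ (ES G).filter (fun e => ∃ f ∈ ES G, D.x e f ≠ 0), (D.x e f : ℝ) * w e f := by
  symm
  have h1 : ∀ e ∈ ES G, ∑ f ∈ (ES G).filter (fun e => ∃ f ∈ ES G, D.x e f ≠ 0),
      (D.x e f : ℝ) * w e f = ∑ f ∈ ES G, (D.x e f : ℝ) * w e f := by
    intro e he
    refine Finset.sum_subset (Finset.filter_subset _ _) fun f hf hf' => ?_
    have h2 : D.x e f = 0 := by
      by_contra h3
      refine hf' (Finset.mem_filter.2 ⟨hf, e, he, ?_⟩)
      rwa [D.x_comm]
    rw [h2]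
    simp
  rw [Finset.sum_congr rfl fun e he => h1 e (Finset.mem_filter.1 he).1]
  refine Finset.sum_subset (Finset.filter_subset _ _) fun e he he' => ?_
  refine Finset.sum_eq_zero fun f hf => ?_
  have h2 : D.x e f = 0 := by
    by_contra h3
    exact he' (Finset.mem_filter.2 ⟨he, f, hf, h3⟩)
  rw [h2]
  simp

theorem bd1 {V : Type} [Finite V] {G : SimpleGraph V} (D : Drawing G) (hD : D.cr = CR G) (Δ : ℕ)
    (hΔ : 1 ≤ Δ) (hdeg : ∀ v, {e ∈ G.edgeSet | v ∈ e ∧ ∃ f ∈ G.edgeSet, e ≠ f ∧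
      (D.X e f).Nonempty}.ncard ≤ Δ) :
    (CR2 G : ℝ) ≤ (3 / 8 - 1 / (384 * (Δ : ℝ) ^ 3)) * CR G := by
  cases nonempty_fintype V
  set E : Finset (Sym2 V) := (ES G).filter (fun e => ∃ f ∈ ES G, D.x e f ≠ 0) with hE
  have hEG : ∀ e ∈ E, e ∈ ES G := fun e he => (Finset.mem_filter.1 he).1
  have hdeg' : ∀ v, (E.filter fun e => v ∈ e).card ≤ Δ := by
    intro v
    refine le_trans ?_ (hdeg v)
    rw [← Set.ncard_coe_finset]
    refine Set.ncard_le_ncard ?_ (Set.toFinite _)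
    intro e he
    rw [Finset.mem_coe, Finset.mem_filter, hE, Finset.mem_filter] at he
    obtain ⟨⟨he1, f, hf, hx⟩, hv⟩ := he
    refine ⟨mem_ES.1 he1, hv, f, mem_ES.1 hf, ?_, ?_⟩
    · rintro rfl
      exact hx (if_pos rfl)
    · by_contra h1
      rw [Set.not_nonempty_iff_eq_empty] at h1
      refine hx ?_
      unfold Drawing.x
      split_ifs
      · rfl
      · rw [h1, Set.ncard_empty]
  obtain ⟨s, hs⟩ := comb E (fun e f => (D.x e f : ℝ))
    (fun e he => G.not_isDiag_of_mem_edgeSet (mem_ES.1 (hEG e he)))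
    (fun e f => Nat.cast_nonneg _) (fun e f => by rw [D.x_comm])
    (fun e he f hf h => by
      obtain ⟨u, hue, huf⟩ := h
      rw [opt_x D hD (hEG e he) (hEG f hf) hue huf, Nat.cast_zero]) Δ hΔ hdeg'
  have h1 := CR2_le_cost D s
  rw [sum_restrict D (cost s), ← hE] at h1
  have h2 : (2 * (CR G : ℝ)) = ∑ e ∈ E, ∑ f ∈ E, (D.x e f : ℝ) := by
    have h3 := D.two_mul_cr
    rw [hD] at h3
    have h4 : (2 * (CR G : ℝ)) = ∑ e ∈ ES G, ∑ f ∈ ES G, (D.x e f : ℝ) * 1 := by
      simp only [mul_one]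
      exact_mod_cast h3
    rw [h4, sum_restrict D (fun _ _ => 1), ← hE]
    simp only [mul_one]
  rw [← h2] at hs
  linarith

theorem bd2 {V : Type} [Finite V] (G : SimpleGraph V) (Δ : ℕ) (hΔ : 1 ≤ Δ)
    (hdeg : ∀ v, (G.neighborSet v).ncard ≤ Δ) :
    (CR2 G : ℝ) ≤ (3 / 8 - 1 / (384 * (Δ : ℝ) ^ 3)) * CR G := by
  obtain ⟨D, hD⟩ := exists_opt G
  refine bd1 D hD Δ hΔ fun v => le_trans ?_ (hdeg v)
  have h1 : {e ∈ G.edgeSet | v ∈ e ∧ ∃ f ∈ G.edgeSet, e ≠ f ∧ (D.X e f).Nonempty} ⊆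
      (fun w => s(v, w)) '' G.neighborSet v := by
    rintro e ⟨he, hv, _⟩
    obtain ⟨w, rfl⟩ := Sym2.mem_iff_exists.1 hv
    exact ⟨w, he, rfl⟩
  exact (Set.ncard_le_ncard h1 (Set.toFinite _)).trans (Set.ncard_image_le (Set.toFinite _))

end H29.BP
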