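import Mathlib

/-!
# Definitions for the combinatorial part
-/

set_option autoImplicit false

open scoped Classical

noncomputable section

namespace H29.BP

variable {V : Type}

/-- two edges have a common vertex -/
def Meets (e f : Sym2 V) : Prop := ∃ v, v ∈ e ∧ v ∈ f

/-- the sign of a vertex as a real number -/
def sg (s : V → ℤˣ) (v : V) : ℝ := ((s v : ℤ) : ℝ)

/-- the product of the signs of the end points of an edge -/
def tau (s : V → ℤˣ) : Sym2 V → ℝ :=
  Sym2.lift ⟨fun u v => sg s u * sg s v, fun _ _ => mul_comm _ _⟩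

/-- the sum of the signs of the end points of an edge -/
def sig (s : V → ℤˣ) : Sym2 V → ℝ :=
  Sym2.lift ⟨fun u v => sg s u + sg s v, fun _ _ => add_comm _ _⟩

/-- the cost of two edges for the vertex partition `s`: `1` if all four end points have the same
sign or both edges are cut, `0` otherwise (see `Pol.lean`) -/
def cost (s : V → ℤˣ) (e f : Sym2 V) : ℝ :=
  3 / 8 - (tau s e + tau s f) / 8 + sig s e * sig s f / 8 + 3 * (tau s e * tau s f) / 8

variable [Fintype V]

/-- the end points of an edge -/
def vs (e : Sym2 V) : Finset V := Finset.univ.filter fun v => v ∈ e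

/-- sign vectors with prescribed products over the sets of `Q` -/
def HH (Q : Finset (Finset V)) (ω : Finset V → ℤˣ) : Finset (V → ℤˣ) :=
  Finset.univ.filter fun s => ∀ q ∈ Q, ∏ v ∈ q, s v = ω q

/-- weight of the edge `b`: twice its crossings minus the crossings of pairs joined by `b` -/
def wB (E : Finset (Sym2 V)) (x : Sym2 V → Sym2 V → ℝ) (b : Sym2 V) : ℝ :=
  2 * ∑ f ∈ E, x b f - ∑ e ∈ E, ∑ f ∈ E, if Meets b e ∧ Meets b f then x e f else 0

/-- second order term of two edges -/
def yB (E : Finset (Sym2 V)) (x : Sym2 V → Sym2 V → ℝ) (b b' : Sym2 V) : ℝ :=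
  3 / 16 * ∑ e ∈ E, ∑ f ∈ E, if vs e ∪ vs f = vs b ∪ vs b' then x e f else 0

end H29.BP
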