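import Pool.Agent.H29.BP.Par

/-!
# [H29 BP CASA] odd signs on disjoint crossing pairs

Paper proof. Average `∑_{e,f} x e f * cost s e f` over `s ∈ HH Q (-1)`, where `Q` is the set of all
`vs p.1 ∪ vs p.2`, `p ∈ P` (four elements each, pairwise disjoint, `HH_nonempty`). Only pairs
`e, f ∈ E` with `x e f ≠ 0` matter; they have four different end points (`hxd`, `hE`).
* `∑_s tau s e = 0`: `sum_HH_zero` with `T = vs e` (two elements; a set `q ∈ Q` has four elements,
  so it is not contained in `T`); the same for `f`.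
* `∑_s sig s e * sig s f = 0`: it is a sum of four terms `∑_s s u * s v`, `u ∈ e`, `v ∈ f`,
  `u ≠ v`, `T = {u, v}`.
* `∑_s tau s e * tau s f ≤ 0`: `T = vs e ∪ vs f`, four elements. If `T ∈ Q` every term is `-1`.
  Otherwise `sum_HH_zero` with any `a ∈ T`: if `a ∈ q ∈ Q` then `q ⊄ T` since `q ≠ T` have the same
  number of elements.
So `∑_s cost s e f ≤ 3/8 * #HH`. For `(e, f) ∈ P` every `cost s e f` is `0`: `tau s e * tau s f = -1`,
so `tau s f = - tau s e` and one of `sig s e`, `sig s f` is `0` (`tau = -1` means that the two signs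
are different). At least one `s` is not worse than the average (`Finset.exists_le_of_sum_le`).
-/

set_option autoImplicit false
set_option linter.unusedSectionVars false

open scoped Classical

noncomputable section

namespace H29.BP

variable {V : Type} [Fintype V]

theorem sg_mul_self (s : V → ℤˣ) (v : V) : sg s v * sg s v = 1 := by
  rcases Int.units_eq_one_or (s v) with h | h <;> simp [sg, h]

theorem sg_cases (s : V → ℤˣ) (v : V) : sg s v = 1 ∨ sg s v = -1 := by
  rcases Int.units_eq_one_or (s v) with h | h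
  · left; simp [sg, h]
  · right; simp [sg, h]

/-- the cost for given end points -/
theorem cost_mk (s : V → ℤˣ) (a b c d : V) : cost s s(a, b) s(c, d) =
    3 / 8 - (sg s a * sg s b + sg s c * sg s d) / 8 +
      (sg s a * sg s c + sg s a * sg s d + sg s b * sg s c + sg s b * sg s d) / 8 +
      3 * (sg s a * sg s b * sg s c * sg s d) / 8 := by
  have h1 : tau s s(a, b) = sg s a * sg s b := rfl
  have h2 : tau s s(c, d) = sg s c * sg s d := rfl
  have h3 : sig s s(a, b) = sg s a + sg s b := rfl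
  have h4 : sig s s(c, d) = sg s c + sg s d := rfl
  rw [cost, h1, h2, h3, h4]
  ring

theorem sum_pair_zero (Q : Finset (Finset V)) (ω : Finset V → ℤˣ)
    (hd : ∀ q ∈ Q, ∀ q' ∈ Q, q ≠ q' → Disjoint q q') (hc : ∀ q ∈ Q, 2 < q.card) {u v : V}
    (huv : u ≠ v) : ∑ s ∈ HH Q ω, sg s u * sg s v = 0 := by
  have h := sum_HH_zero Q ω hd {u, v} u (Finset.mem_insert_self _ _) ?_
  · rw [← h]
    refine Finset.sum_congr rfl fun s _ => ?_
    rw [Finset.prod_pair huv]
    rfl
  · by_cases h1 : ∀ q ∈ Q, u ∉ q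
    · exact Or.inl h1
    · push Not at h1
      obtain ⟨q, hq, huq⟩ := h1
      refine Or.inr ⟨q, hq, huq, ?_⟩
      by_contra h2
      push Not at h2
      have h3 : q ⊆ {u, v} := h2
      have h4 := Finset.card_le_card h3
      rw [Finset.card_pair huv] at h4
      exact absurd (hc q hq) (by omega)

theorem prod_four (s : V → ℤˣ) {a b c d : V} (hab : a ≠ b) (hac : a ≠ c) (had : a ≠ d)
    (hbc : b ≠ c) (hbd : b ≠ d) (hcd : c ≠ d) :
    ∏ v ∈ ({a, b, c, d} : Finset V), ((s v : ℤ) : ℝ) = sg s a * sg s b * sg s c * sg s d := by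
  rw [Finset.prod_insert, Finset.prod_insert, Finset.prod_pair hcd]
  · simp only [sg]
    ring
  · simp [hbc, hbd]
  · simp [hab, hac, had]

theorem vs_mk (a b : V) : vs s(a, b) = {a, b} := by
  ext v
  simp [vs]

theorem caseA_sum (Q : Finset (Finset V))
    (hd : ∀ q ∈ Q, ∀ q' ∈ Q, q ≠ q' → Disjoint q q') (hc : ∀ q ∈ Q, q.card = 4)
    {a b c d : V} (hab : a ≠ b) (hac : a ≠ c) (had : a ≠ d)
    (hbc : b ≠ c) (hbd : b ≠ d) (hcd : c ≠ d) :
    ∑ s ∈ HH Q (fun _ => -1), cost s s(a, b) s(c, d) ≤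
      3 / 8 * (HH Q (fun _ => -1)).card := by
  have hc' : ∀ q ∈ Q, 2 < q.card := fun q hq => by rw [hc q hq]; norm_num
  have hT : ({a, b, c, d} : Finset V).card = 4 := by
    rw [Finset.card_insert_of_notMem (by simp [hab, hac, had]),
      Finset.card_insert_of_notMem (by simp [hbc, hbd]), Finset.card_pair hcd]
  have h4 : ∑ s ∈ HH Q (fun _ => -1), sg s a * sg s b * sg s c * sg s d ≤ 0 := by
    by_cases hTQ : ({a, b, c, d} : Finset V) ∈ Q
    · refine Finset.sum_nonpos fun s hs => ?_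
      rw [HH, Finset.mem_filter] at hs
      have h1 := hs.2 _ hTQ
      rw [← prod_four s hab hac had hbc hbd hcd]
      have h2 : ∏ v ∈ ({a, b, c, d} : Finset V), ((s v : ℤ) : ℝ) =
          (((∏ v ∈ ({a, b, c, d} : Finset V), s v : ℤˣ) : ℤ) : ℝ) := by
        rw [Units.coe_prod, Int.cast_prod]
      rw [h2, h1]
      norm_num
    · have h := sum_HH_zero Q (fun _ => -1) hd {a, b, c, d} a (Finset.mem_insert_self _ _) ?_
      · rw [Finset.sum_congr rfl fun s _ => prod_four s hab hac had hbc hbd hcd] at h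
        exact h.le
      · by_cases h1 : ∀ q ∈ Q, a ∉ q
        · exact Or.inl h1
        · push Not at h1
          obtain ⟨q, hq, huq⟩ := h1
          refine Or.inr ⟨q, hq, huq, ?_⟩
          by_contra h2
          push Not at h2
          have h3 : q ⊆ {a, b, c, d} := h2
          have h5 := Finset.eq_of_subset_of_card_le h3 (by rw [hT, hc q hq])
          rw [h5] at hq
          exact hTQ hq
  have h0 : ∀ s : V → ℤˣ, cost s s(a, b) s(c, d) =
      3 / 8 - 1 / 8 * (sg s a * sg s b) - 1 / 8 * (sg s c * sg s d) +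
        1 / 8 * (sg s a * sg s c) + 1 / 8 * (sg s a * sg s d) + 1 / 8 * (sg s b * sg s c) +
        1 / 8 * (sg s b * sg s d) + 3 / 8 * (sg s a * sg s b * sg s c * sg s d) := by
    intro s
    rw [cost_mk]
    ring
  rw [Finset.sum_congr rfl fun s _ => h0 s]
  simp only [Finset.sum_add_distrib, Finset.sum_sub_distrib, ← Finset.mul_sum]
  rw [sum_pair_zero Q _ hd hc' hab, sum_pair_zero Q _ hd hc' hcd, sum_pair_zero Q _ hd hc' hac,
    sum_pair_zero Q _ hd hc' had, sum_pair_zero Q _ hd hc' hbc, sum_pair_zero Q _ hd hc' hbd,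
    Finset.sum_const, nsmul_eq_mul]
  linarith

theorem not_meets_mk {a b c d : V} (h : ¬ Meets s(a, b) s(c, d)) :
    a ≠ c ∧ a ≠ d ∧ b ≠ c ∧ b ≠ d := by
  refine ⟨?_, ?_, ?_, ?_⟩
  · rintro rfl
    exact h ⟨a, by simp, by simp⟩
  · rintro rfl
    exact h ⟨a, by simp, by simp⟩
  · rintro rfl
    exact h ⟨b, by simp, by simp⟩
  · rintro rfl
    exact h ⟨b, by simp, by simp⟩

theorem caseA_zero (s : V → ℤˣ) {a b c d : V} (hab : a ≠ b) (hac : a ≠ c) (had : a ≠ d)
    (hbc : b ≠ c) (hbd : b ≠ d) (hcd : c ≠ d)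
    (h : ∏ v ∈ ({a, b, c, d} : Finset V), s v = -1) : cost s s(a, b) s(c, d) = 0 := by
  have h1 : sg s a * sg s b * sg s c * sg s d = -1 := by
    rw [← prod_four s hab hac had hbc hbd hcd]
    have h2 : ∏ v ∈ ({a, b, c, d} : Finset V), ((s v : ℤ) : ℝ) =
        (((∏ v ∈ ({a, b, c, d} : Finset V), s v : ℤˣ) : ℤ) : ℝ) := by
      rw [Units.coe_prod, Int.cast_prod]
    rw [h2, h]
    norm_num
  rw [cost_mk, h1]
  rcases sg_cases s a with ha | ha <;> rcases sg_cases s b with hb | hb <;>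
    rcases sg_cases s c with hc | hc <;> rcases sg_cases s d with hd | hd <;>
    rw [ha, hb, hc, hd] at h1 <;> rw [ha, hb, hc, hd] <;>
    first
      | (exfalso; revert h1; norm_num; done)
      | norm_num

theorem caseA (E : Finset (Sym2 V)) (x : Sym2 V → Sym2 V → ℝ) (hE : ∀ e ∈ E, ¬ e.IsDiag)
    (hx0 : ∀ e f, 0 ≤ x e f) (hxd : ∀ e ∈ E, ∀ f ∈ E, Meets e f → x e f = 0)
    (P : Finset (Sym2 V × Sym2 V)) (hPE : P ⊆ E ×ˢ E) (hPd : ∀ p ∈ P, ¬ Meets p.1 p.2)
    (hPP : ∀ p ∈ P, ∀ p' ∈ P, p ≠ p' → Disjoint (vs p.1 ∪ vs p.2) (vs p'.1 ∪ vs p'.2)) :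
    ∃ s : V → ℤˣ, ∑ e ∈ E, ∑ f ∈ E, x e f * cost s e f ≤
      3 / 8 * (∑ e ∈ E, ∑ f ∈ E, x e f - ∑ p ∈ P, x p.1 p.2) := by
  set Q : Finset (Finset V) := P.image fun p => vs p.1 ∪ vs p.2 with hQ
  have hd : ∀ q ∈ Q, ∀ q' ∈ Q, q ≠ q' → Disjoint q q' := by
    intro q hq q' hq' hne
    rw [hQ, Finset.mem_image] at hq hq'
    obtain ⟨p, hp, rfl⟩ := hq
    obtain ⟨p', hp', rfl⟩ := hq'
    refine hPP p hp p' hp' ?_
    rintro rfl
    exact hne rfl
  have hquad : ∀ p ∈ P, ∃ a b c d : V, p = (s(a, b), s(c, d)) ∧ a ≠ b ∧ a ≠ c ∧ a ≠ d ∧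
      b ≠ c ∧ b ≠ d ∧ c ≠ d := by
    rintro ⟨e, f⟩ hp
    have h1 := Finset.mem_product.1 (hPE hp)
    have h2 := hPd _ hp
    induction e using Sym2.ind with
    | _ a b =>
      induction f using Sym2.ind with
      | _ c d =>
        have h3 := hE _ h1.1
        have h4 := hE _ h1.2
        rw [Sym2.mk_isDiag_iff] at h3 h4
        obtain ⟨h5, h6, h7, h8⟩ := not_meets_mk h2
        exact ⟨a, b, c, d, rfl, h3, h5, h6, h7, h8, h4⟩
  have hvs4 : ∀ a b c d : V, vs s(a, b) ∪ vs s(c, d) = {a, b, c, d} := by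
    intro a b c d
    rw [vs_mk, vs_mk]
    ext v
    simp only [Finset.mem_union, Finset.mem_insert, Finset.mem_singleton]
    tauto
  have hc : ∀ q ∈ Q, q.card = 4 := by
    intro q hq
    rw [hQ, Finset.mem_image] at hq
    obtain ⟨p, hp, rfl⟩ := hq
    obtain ⟨a, b, c, d, rfl, hab, hac, had, hbc, hbd, hcd⟩ := hquad p hp
    rw [hvs4, Finset.card_insert_of_notMem (by simp [hab, hac, had]),
      Finset.card_insert_of_notMem (by simp [hbc, hbd]), Finset.card_pair hcd]
  have hne : (HH Q (fun _ => -1)).Nonempty := by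
    refine HH_nonempty Q _ hd fun q hq => ?_
    rw [← Finset.card_pos, hc q hq]
    norm_num
  have hpos : (0 : ℝ) < (HH Q (fun _ => -1)).card := by
    exact_mod_cast Finset.card_pos.2 hne
  -- every pair
  have hpair : ∀ p ∈ E ×ˢ E, x p.1 p.2 * ∑ s ∈ HH Q (fun _ => -1), cost s p.1 p.2 ≤
      (x p.1 p.2 * (3 / 8) - if p ∈ P then x p.1 p.2 * (3 / 8) else 0) *
        (HH Q (fun _ => -1)).card := by
    rintro ⟨e, f⟩ hp
    have h1 := Finset.mem_product.1 hp
    by_cases hP : (e, f) ∈ P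
    · rw [if_pos hP]
      obtain ⟨a, b, c, d, h2, hab, hac, had, hbc, hbd, hcd⟩ := hquad _ hP
      obtain ⟨rfl, rfl⟩ := Prod.mk.inj h2
      have h3 : ∑ s ∈ HH Q (fun _ => -1), cost s s(a, b) s(c, d) = 0 := by
        refine Finset.sum_eq_zero fun s hs => ?_
        refine caseA_zero s hab hac had hbc hbd hcd ?_
        rw [HH, Finset.mem_filter] at hs
        rw [← hvs4]
        refine hs.2 _ ?_
        rw [hQ, Finset.mem_image]
        exact ⟨_, hP, rfl⟩
      simp only [h3]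
      norm_num
    · rw [if_neg hP]
      by_cases hm : Meets e f
      · have h2 := hxd e h1.1 f h1.2 hm
        simp only [h2]
        norm_num
      · have h3 : ∑ s ∈ HH Q (fun _ => -1), cost s e f ≤ 3 / 8 * (HH Q (fun _ => -1)).card := by
          have h4 := hE _ h1.1
          have h5 := hE _ h1.2
          clear hp h1 hP
          induction e using Sym2.ind with
          | _ a b =>
            induction f using Sym2.ind with
            | _ c d =>
              rw [Sym2.mk_isDiag_iff] at h4 h5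
              obtain ⟨h6, h7, h8, h9⟩ := not_meets_mk hm
              exact caseA_sum Q hd hc h4 h6 h7 h8 h9 h5
        have h4 := mul_le_mul_of_nonneg_left h3 (hx0 e f)
        simp only
        linarith
  have htot : ∑ s ∈ HH Q (fun _ => -1), ∑ e ∈ E, ∑ f ∈ E, x e f * cost s e f ≤
      ∑ _s ∈ HH Q (fun _ => -1),
        3 / 8 * (∑ e ∈ E, ∑ f ∈ E, x e f - ∑ p ∈ P, x p.1 p.2) := by
    have h1 : ∑ s ∈ HH Q (fun _ => -1), ∑ e ∈ E, ∑ f ∈ E, x e f * cost s e f =
        ∑ p ∈ E ×ˢ E, x p.1 p.2 * ∑ s ∈ HH Q (fun _ => -1), cost s p.1 p.2 := by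
      rw [Finset.sum_congr rfl fun s _ =>
        (Finset.sum_product' E E fun e f => x e f * cost s e f).symm, Finset.sum_comm]
      refine Finset.sum_congr rfl fun p _ => ?_
      rw [Finset.mul_sum]
    have h2 : ∑ p ∈ E ×ˢ E, (x p.1 p.2 * (3 / 8) -
        if p ∈ P then x p.1 p.2 * (3 / 8) else 0) =
        3 / 8 * (∑ e ∈ E, ∑ f ∈ E, x e f - ∑ p ∈ P, x p.1 p.2) := by
      rw [Finset.sum_sub_distrib, ← Finset.sum_filter]
      have h3 : (E ×ˢ E).filter (fun p => p ∈ P) = P := by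
        ext p
        rw [Finset.mem_filter]
        exact ⟨fun h => h.2, fun h => ⟨hPE h, h⟩⟩
      rw [h3, ← Finset.sum_mul, ← Finset.sum_mul, Finset.sum_product' E E fun e f => x e f]
      ring
    rw [h1, Finset.sum_const, nsmul_eq_mul, ← h2, mul_comm, Finset.sum_mul]
    exact Finset.sum_le_sum hpair
  obtain ⟨s, _, hs⟩ := Finset.exists_le_of_sum_le hne htot
  exact ⟨s, hs⟩

end H29.BP
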