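import Pool.Agent.H29.BP.CasA

/-!
# [H29 BP CASB1] equal signs on the edges of a matching

Paper proof. Average `∑_{e,f} x e f * cost s e f` over `s ∈ HH Q 1`, `Q` the set of all `vs b`,
`b ∈ B` (two elements each, pairwise disjoint as `B` is a matching, `HH_nonempty`), `N = #HH > 0`.
Only `e, f ∈ E` with `x e f ≠ 0` matter; they have four different end points.
* `∑_s tau s e = N` for `e ∈ B`, `0` for `e ∉ B` (`sum_HH_zero`, `T = vs e`, any `a ∈ T`: if
  `a ∈ vs b`, `b ∈ B`, then `b ≠ e` and `vs b ⊄ vs e`).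
* `∑_s sig s e * sig s f`: sum of four terms `∑_s s u * s v`, `u ∈ e`, `v ∈ f`; such a term is `N` for
  `s(u,v) ∈ B` and `0` otherwise; the number of the pairs `(u, v)` with `s(u,v) ∈ B` is the number
  of `b ∈ B` with `Meets b e ∧ Meets b f`.
* `∑_s tau s e * tau s f`: `T = vs e ∪ vs f`. If there are `b ≠ b'` in `B` with
  `vs b ∪ vs b' = T` it is `N`, and there are at least the two ordered pairs `(b, b')`, `(b', b)`, so it is
  at most `N/2 * #{(b, b') ∈ B² : b ≠ b', vs e ∪ vs f = vs b ∪ vs b'}`. Otherwise it is `0`: if all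
  `a ∈ T` lie in a `vs b ⊆ T`, `b ∈ B`, then `T` is the union of two of these sets; so for some `a`
  `sum_HH_zero` applies.
Sum up: `∑_{e,f} x e f ([e ∈ B] + [f ∈ B]) = 2 ∑_{b ∈ B} ∑_f x b f` by symmetry of `x`.
-/

set_option autoImplicit false
set_option linter.unusedSectionVars false

open scoped Classical

noncomputable section

namespace H29.BP

variable {V : Type} [Fintype V]

/-- the sets of the matching -/
theorem QB_disj (B : Finset (Sym2 V)) (hB : ∀ b ∈ B, ∀ b' ∈ B, b ≠ b' → ¬ Meets b b') :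
    ∀ q ∈ B.image vs, ∀ q' ∈ B.image vs, q ≠ q' → Disjoint q q' := by
  intro q hq q' hq' hne
  rw [Finset.mem_image] at hq hq'
  obtain ⟨b, hb, rfl⟩ := hq
  obtain ⟨b', hb', rfl⟩ := hq'
  have h1 : b ≠ b' := by
    rintro rfl
    exact hne rfl
  rw [Finset.disjoint_left]
  intro v hv hv'
  refine hB b hb b' hb' h1 ⟨v, ?_, ?_⟩
  · simpa [vs] using hv
  · simpa [vs] using hv'

theorem mem_vs {v : V} {e : Sym2 V} : v ∈ vs e ↔ v ∈ e := by
  simp [vs]

theorem sum_pairB (B : Finset (Sym2 V)) (hBd : ∀ b ∈ B, ¬ b.IsDiag)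
    (hB : ∀ b ∈ B, ∀ b' ∈ B, b ≠ b' → ¬ Meets b b') {u v : V} (huv : u ≠ v) :
    ∑ s ∈ HH (B.image vs) (fun _ => 1), sg s u * sg s v =
      if s(u, v) ∈ B then ((HH (B.image vs) (fun _ => 1)).card : ℝ) else 0 := by
  have hd := QB_disj B hB
  split_ifs with h
  · have h1 : ∀ s ∈ HH (B.image vs) (fun _ => 1), sg s u * sg s v = 1 := by
      intro s hs
      rw [HH, Finset.mem_filter] at hs
      have h2 := hs.2 (vs s(u, v)) (Finset.mem_image_of_mem _ h)
      rw [vs_mk, Finset.prod_pair huv] at h2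
      have h3 : sg s u * sg s v = (((s u * s v : ℤˣ) : ℤ) : ℝ) := by
        simp [sg]
      rw [h3, h2]
      simp
    rw [Finset.sum_congr rfl h1, Finset.sum_const, nsmul_eq_mul, mul_one]
  · have h0 := sum_HH_zero (B.image vs) (fun _ => 1) hd {u, v} u (Finset.mem_insert_self _ _) ?_
    · rw [← h0]
      refine Finset.sum_congr rfl fun s _ => ?_
      rw [Finset.prod_pair huv]
      rfl
    · by_cases h1 : ∀ q ∈ B.image vs, u ∉ q
      · exact Or.inl h1
      · push Not at h1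
        obtain ⟨q, hq, huq⟩ := h1
        refine Or.inr ⟨q, hq, huq, ?_⟩
        rw [Finset.mem_image] at hq
        obtain ⟨b, hb, rfl⟩ := hq
        rw [mem_vs] at huq
        obtain ⟨w, rfl⟩ := Sym2.mem_iff_exists.1 huq
        have h2 := hBd _ hb
        rw [Sym2.mk_isDiag_iff] at h2
        refine ⟨w, ?_, ?_⟩
        · rw [mem_vs]
          simp
        · rw [Finset.mem_insert, Finset.mem_singleton, not_or]
          refine ⟨fun h3 => h2 h3.symm, ?_⟩
          rintro rfl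
          exact h hb

theorem caseB1_four (B : Finset (Sym2 V)) (hBd : ∀ b ∈ B, ¬ b.IsDiag)
    (hB : ∀ b ∈ B, ∀ b' ∈ B, b ≠ b' → ¬ Meets b b') {a b c d : V}
    (hab : a ≠ b) (hac : a ≠ c) (had : a ≠ d)
    (hbc : b ≠ c) (hbd : b ≠ d) (hcd : c ≠ d) :
    ∑ s ∈ HH (B.image vs) (fun _ => 1), sg s a * sg s b * sg s c * sg s d ≤
      1 / 2 * (HH (B.image vs) (fun _ => 1)).card *
        ∑ e ∈ B, ∑ f ∈ B.erase e,
          if vs s(a, b) ∪ vs s(c, d) = vs e ∪ vs f then (1 : ℝ) else 0 := by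
  set T : Finset V := {a, b, c, d} with hTdef
  have hT : T.card = 4 := by
    rw [hTdef, Finset.card_insert_of_notMem (by simp [hab, hac, had]),
      Finset.card_insert_of_notMem (by simp [hbc, hbd]), Finset.card_pair hcd]
  have hvs4 : vs s(a, b) ∪ vs s(c, d) = T := by
    rw [vs_mk, vs_mk, hTdef]
    ext v
    simp only [Finset.mem_union, Finset.mem_insert, Finset.mem_singleton]
    tauto
  have hd := QB_disj B hB
  have hM : (0 : ℝ) ≤ (HH (B.image vs) (fun _ => 1)).card := by positivity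
  have hS : (0 : ℝ) ≤ ∑ e ∈ B, ∑ f ∈ B.erase e,
      if vs s(a, b) ∪ vs s(c, d) = vs e ∪ vs f then (1 : ℝ) else 0 :=
    Finset.sum_nonneg fun e _ => Finset.sum_nonneg fun f _ => by split_ifs <;> norm_num
  by_cases hz : ∃ a₀ ∈ T, (∀ q ∈ B.image vs, a₀ ∉ q) ∨ ∃ q ∈ B.image vs, a₀ ∈ q ∧ ∃ c ∈ q, c ∉ T
  · obtain ⟨a₀, ha₀, h⟩ := hz
    have h0 := sum_HH_zero (B.image vs) (fun _ => 1) hd T a₀ ha₀ h
    rw [Finset.sum_congr rfl fun s _ => prod_four s hab hac had hbc hbd hcd] at h0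
    rw [h0]
    positivity
  · push Not at hz
    have hq : ∀ a₀ ∈ T, ∃ b₀ ∈ B, a₀ ∈ vs b₀ ∧ vs b₀ ⊆ T := by
      intro a₀ ha₀
      obtain ⟨⟨q, hq, haq⟩, h2⟩ := hz a₀ ha₀
      have h3 := h2 q hq haq
      rw [Finset.mem_image] at hq
      obtain ⟨b₀, hb₀, rfl⟩ := hq
      exact ⟨b₀, hb₀, haq, h3⟩
    have hc2 : ∀ b₀ ∈ B, (vs b₀).card = 2 := by
      intro b₀ hb₀
      have h1 := hBd b₀ hb₀
      clear hb₀
      induction b₀ using Sym2.ind with
      | _ u v =>
        rw [Sym2.mk_isDiag_iff] at h1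
        rw [vs_mk, Finset.card_pair h1]
    obtain ⟨b₁, hb₁, ha₁, hs₁⟩ := hq a (by simp [hTdef])
    obtain ⟨a', ha'T, ha'⟩ : ∃ a' ∈ T, a' ∉ vs b₁ := by
      by_contra h
      push Not at h
      have h1 := Finset.card_le_card (show T ⊆ vs b₁ from h)
      rw [hT, hc2 b₁ hb₁] at h1
      omega
    obtain ⟨b₂, hb₂, ha₂, hs₂⟩ := hq a' ha'T
    have hne : b₁ ≠ b₂ := by
      rintro rfl
      exact ha' ha₂
    have hdis : Disjoint (vs b₁) (vs b₂) := by
      refine hd _ (Finset.mem_image_of_mem _ hb₁) _ (Finset.mem_image_of_mem _ hb₂) ?_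
      intro h
      rw [h] at ha'
      exact ha' ha₂
    have hun : vs b₁ ∪ vs b₂ = T := by
      refine Finset.eq_of_subset_of_card_le (Finset.union_subset hs₁ hs₂) ?_
      rw [Finset.card_union_of_disjoint hdis, hc2 b₁ hb₁, hc2 b₂ hb₂, hT]
    have h2 : (2 : ℝ) ≤ ∑ e ∈ B, ∑ f ∈ B.erase e,
        if vs s(a, b) ∪ vs s(c, d) = vs e ∪ vs f then (1 : ℝ) else 0 := by
      have hin : ∀ e ∈ B, (0 : ℝ) ≤ ∑ f ∈ B.erase e,
          if vs s(a, b) ∪ vs s(c, d) = vs e ∪ vs f then (1 : ℝ) else 0 :=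
        fun e _ => Finset.sum_nonneg fun f _ => by split_ifs <;> norm_num
      have hone : ∀ e ∈ B, ∀ f ∈ B.erase e, vs e ∪ vs f = T → (1 : ℝ) ≤ ∑ f ∈ B.erase e,
          if vs s(a, b) ∪ vs s(c, d) = vs e ∪ vs f then (1 : ℝ) else 0 := by
        intro e _ f hf h
        refine le_trans ?_ (Finset.single_le_sum (f := fun f =>
          if vs s(a, b) ∪ vs s(c, d) = vs e ∪ vs f then (1 : ℝ) else 0)
          (fun f _ => by split_ifs <;> norm_num) hf)
        rw [if_pos (hvs4.trans h.symm)]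
      have h3 : ∑ e ∈ ({b₁, b₂} : Finset (Sym2 V)), (1 : ℝ) ≤ ∑ e ∈ B, ∑ f ∈ B.erase e,
          if vs s(a, b) ∪ vs s(c, d) = vs e ∪ vs f then (1 : ℝ) else 0 := by
        refine le_trans (Finset.sum_le_sum (f := fun _ => (1 : ℝ)) (g := fun e =>
          ∑ f ∈ B.erase e, if vs s(a, b) ∪ vs s(c, d) = vs e ∪ vs f then (1 : ℝ) else 0) ?_) ?_
        · intro e he
          rw [Finset.mem_insert, Finset.mem_singleton] at he
          rcases he with rfl | rfl
          · exact hone _ hb₁ b₂ (Finset.mem_erase.2 ⟨hne.symm, hb₂⟩) hun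
          · exact hone _ hb₂ b₁ (Finset.mem_erase.2 ⟨hne, hb₁⟩)
              (by rw [Finset.union_comm]; exact hun)
        · refine Finset.sum_le_sum_of_subset_of_nonneg ?_ fun e he _ => hin e he
          intro e he
          rw [Finset.mem_insert, Finset.mem_singleton] at he
          rcases he with rfl | rfl <;> assumption
      rw [Finset.sum_pair hne] at h3
      linarith
    have h4 : ∑ s ∈ HH (B.image vs) (fun _ => 1), sg s a * sg s b * sg s c * sg s d ≤
        (HH (B.image vs) (fun _ => 1)).card := by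
      have h5 : ∀ s ∈ HH (B.image vs) (fun _ => 1),
          sg s a * sg s b * sg s c * sg s d ≤ (1 : ℝ) := by
        intro s _
        rcases sg_cases s a with ha | ha <;> rcases sg_cases s b with hb | hb <;>
          rcases sg_cases s c with hc | hc <;> rcases sg_cases s d with hd' | hd' <;>
          rw [ha, hb, hc, hd'] <;> norm_num
      refine (Finset.sum_le_sum h5).trans ?_
      rw [Finset.sum_const, nsmul_eq_mul, mul_one]
    nlinarith

theorem caseB1_sum (B : Finset (Sym2 V)) (hBd : ∀ b ∈ B, ¬ b.IsDiag)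
    (hB : ∀ b ∈ B, ∀ b' ∈ B, b ≠ b' → ¬ Meets b b') {a b c d : V}
    (hab : a ≠ b) (hac : a ≠ c) (had : a ≠ d)
    (hbc : b ≠ c) (hbd : b ≠ d) (hcd : c ≠ d) :
    ∑ s ∈ HH (B.image vs) (fun _ => 1), cost s s(a, b) s(c, d) ≤
      (3 / 8 - ((if s(a, b) ∈ B then 1 else 0) + (if s(c, d) ∈ B then 1 else 0)) / 8 +
        (∑ b₀ ∈ B, if Meets b₀ s(a, b) ∧ Meets b₀ s(c, d) then (1 : ℝ) else 0) / 8 +
        3 / 16 * ∑ e ∈ B, ∑ f ∈ B.erase e,
          if vs s(a, b) ∪ vs s(c, d) = vs e ∪ vs f then (1 : ℝ) else 0) *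
      (HH (B.image vs) (fun _ => 1)).card := by
  have h0 : ∀ s : V → ℤˣ, cost s s(a, b) s(c, d) =
      3 / 8 - 1 / 8 * (sg s a * sg s b) - 1 / 8 * (sg s c * sg s d) +
        1 / 8 * (sg s a * sg s c) + 1 / 8 * (sg s a * sg s d) + 1 / 8 * (sg s b * sg s c) +
        1 / 8 * (sg s b * sg s d) + 3 / 8 * (sg s a * sg s b * sg s c * sg s d) := by
    intro s
    rw [cost_mk]
    ring
  rw [Finset.sum_congr rfl fun s _ => h0 s]
  simp only [Finset.sum_add_distrib, Finset.sum_sub_distrib, ← Finset.mul_sum]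
  rw [sum_pairB B hBd hB hab, sum_pairB B hBd hB hcd, sum_pairB B hBd hB hac,
    sum_pairB B hBd hB had, sum_pairB B hBd hB hbc, sum_pairB B hBd hB hbd,
    Finset.sum_const, nsmul_eq_mul]
  have h4 := caseB1_four B hBd hB hab hac had hbc hbd hcd
  set M : ℝ := ((HH (B.image vs) (fun _ => 1)).card : ℝ) with hMdef
  have hM : 0 ≤ M := by positivity
  have h5 : (if s(a, c) ∈ B then (1 : ℝ) else 0) + (if s(a, d) ∈ B then 1 else 0) +
      (if s(b, c) ∈ B then 1 else 0) + (if s(b, d) ∈ B then 1 else 0) ≤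
      ∑ b₀ ∈ B, if Meets b₀ s(a, b) ∧ Meets b₀ s(c, d) then (1 : ℝ) else 0 := by
    have h6 : (if s(a, c) ∈ B then (1 : ℝ) else 0) + (if s(a, d) ∈ B then 1 else 0) +
        (if s(b, c) ∈ B then 1 else 0) + (if s(b, d) ∈ B then 1 else 0) =
        ∑ b₀ ∈ ({s(a, c), s(a, d), s(b, c), s(b, d)} : Finset (Sym2 V)),
          if b₀ ∈ B then (1 : ℝ) else 0 := by
      rw [Finset.sum_insert, Finset.sum_insert, Finset.sum_pair]
      · ring
      · rw [Ne, Sym2.eq_iff]
        tauto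
      · rw [Finset.mem_insert, Finset.mem_singleton, Sym2.eq_iff, Sym2.eq_iff]
        tauto
      · rw [Finset.mem_insert, Finset.mem_insert, Finset.mem_singleton, Sym2.eq_iff,
          Sym2.eq_iff, Sym2.eq_iff]
        tauto
    rw [h6, ← Finset.sum_filter, ← Finset.sum_filter, Finset.sum_const, Finset.sum_const,
      nsmul_eq_mul, nsmul_eq_mul, mul_one, mul_one]
    refine Nat.cast_le.2 (Finset.card_le_card ?_)
    intro b₀ hb₀
    rw [Finset.mem_filter, Finset.mem_insert, Finset.mem_insert, Finset.mem_insert,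
      Finset.mem_singleton] at hb₀
    rw [Finset.mem_filter]
    refine ⟨hb₀.2, ?_⟩
    rcases hb₀.1 with rfl | rfl | rfl | rfl
    · exact ⟨⟨a, by simp, by simp⟩, ⟨c, by simp, by simp⟩⟩
    · exact ⟨⟨a, by simp, by simp⟩, ⟨d, by simp, by simp⟩⟩
    · exact ⟨⟨b, by simp, by simp⟩, ⟨c, by simp, by simp⟩⟩
    · exact ⟨⟨b, by simp, by simp⟩, ⟨d, by simp, by simp⟩⟩
  have hite : ∀ (P : Prop) [Decidable P],
      (if P then M else 0) = (if P then (1 : ℝ) else 0) * M := by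
    intro P _
    split_ifs <;> ring
  simp only [hite]
  have h7 := mul_le_mul_of_nonneg_right h5 hM
  nlinarith

theorem caseB1 (E : Finset (Sym2 V)) (x : Sym2 V → Sym2 V → ℝ) (hE : ∀ e ∈ E, ¬ e.IsDiag)
    (hx0 : ∀ e f, 0 ≤ x e f) (hxs : ∀ e f, x e f = x f e)
    (hxd : ∀ e ∈ E, ∀ f ∈ E, Meets e f → x e f = 0)
    (B : Finset (Sym2 V)) (hBE : B ⊆ E) (hB : ∀ b ∈ B, ∀ b' ∈ B, b ≠ b' → ¬ Meets b b') :
    ∃ s : V → ℤˣ, ∑ e ∈ E, ∑ f ∈ E, x e f * cost s e f ≤
      3 / 8 * (∑ e ∈ E, ∑ f ∈ E, x e f) - 1 / 8 * ∑ b ∈ B, wB E x b +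
        ∑ b ∈ B, ∑ b' ∈ B.erase b, yB E x b b' := by
  have hBd : ∀ b ∈ B, ¬ b.IsDiag := fun b hb => hE b (hBE hb)
  have hd := QB_disj B hB
  have hne : (HH (B.image vs) (fun _ => 1)).Nonempty := by
    refine HH_nonempty _ _ hd fun q hq => ?_
    rw [Finset.mem_image] at hq
    obtain ⟨b, _, rfl⟩ := hq
    induction b using Sym2.ind with
    | _ u v =>
      rw [vs_mk]
      exact ⟨u, Finset.mem_insert_self _ _⟩
  set M : ℝ := ((HH (B.image vs) (fun _ => 1)).card : ℝ) with hMdef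
  have hM : 0 ≤ M := by positivity
  set K : Sym2 V → Sym2 V → ℝ := fun e f =>
    3 / 8 - ((if e ∈ B then 1 else 0) + (if f ∈ B then 1 else 0)) / 8 +
        (∑ b₀ ∈ B, if Meets b₀ e ∧ Meets b₀ f then (1 : ℝ) else 0) / 8 +
        3 / 16 * ∑ b₁ ∈ B, ∑ b₂ ∈ B.erase b₁,
          if vs e ∪ vs f = vs b₁ ∪ vs b₂ then (1 : ℝ) else 0 with hK
  have hpair : ∀ e ∈ E, ∀ f ∈ E, x e f * ∑ s ∈ HH (B.image vs) (fun _ => 1), cost s e f ≤
      x e f * K e f * M := by
    intro e he f hf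
    by_cases hm : Meets e f
    · rw [hxd e he f hf hm]
      simp
    · have h3 : ∑ s ∈ HH (B.image vs) (fun _ => 1), cost s e f ≤ K e f * M := by
        have h4 := hE _ he
        have h5 := hE _ hf
        clear he hf
        induction e using Sym2.ind with
        | _ a b =>
          induction f using Sym2.ind with
          | _ c d =>
            rw [Sym2.mk_isDiag_iff] at h4 h5
            obtain ⟨h6, h7, h8, h9⟩ := not_meets_mk hm
            exact caseB1_sum B hBd hB h4 h6 h7 h8 h9 h5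
      have h4 := mul_le_mul_of_nonneg_left h3 (hx0 e f)
      linarith
  -- the right side
  have hR : ∑ e ∈ E, ∑ f ∈ E, x e f * K e f =
      3 / 8 * (∑ e ∈ E, ∑ f ∈ E, x e f) - 1 / 8 * ∑ b ∈ B, wB E x b +
        ∑ b ∈ B, ∑ b' ∈ B.erase b, yB E x b b' := by
    have e1 : ∑ e ∈ E, ∑ f ∈ E, x e f * K e f =
        3 / 8 * (∑ e ∈ E, ∑ f ∈ E, x e f) -
        1 / 8 * (∑ e ∈ E, ∑ f ∈ E, (if e ∈ B then x e f else 0)) -
        1 / 8 * (∑ e ∈ E, ∑ f ∈ E, (if f ∈ B then x e f else 0)) +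
        1 / 8 * (∑ e ∈ E, ∑ f ∈ E, ∑ b ∈ B, if Meets b e ∧ Meets b f then x e f else 0) +
        3 / 16 * (∑ e ∈ E, ∑ f ∈ E, ∑ b ∈ B, ∑ b' ∈ B.erase b,
          if vs e ∪ vs f = vs b ∪ vs b' then x e f else 0) := by
      simp only [Finset.mul_sum, ← Finset.sum_add_distrib, ← Finset.sum_sub_distrib]
      refine Finset.sum_congr rfl fun e _ => Finset.sum_congr rfl fun f _ => ?_
      have g1 : ∀ (P : Prop) [Decidable P],
          (if P then x e f else 0) = (if P then (1 : ℝ) else 0) * x e f := by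
        intro P _
        split_ifs <;> ring
      simp only [← Finset.mul_sum]
      have g2 : ∑ b ∈ B, (if Meets b e ∧ Meets b f then x e f else 0) =
          (∑ b ∈ B, if Meets b e ∧ Meets b f then (1 : ℝ) else 0) * x e f := by
        rw [Finset.sum_mul]
        exact Finset.sum_congr rfl fun _ _ => g1 _
      have g3 : ∑ b ∈ B, ∑ b' ∈ B.erase b, (if vs e ∪ vs f = vs b ∪ vs b' then x e f else 0) =
          (∑ b ∈ B, ∑ b' ∈ B.erase b,
            if vs e ∪ vs f = vs b ∪ vs b' then (1 : ℝ) else 0) * x e f := by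
        rw [Finset.sum_mul]
        refine Finset.sum_congr rfl fun _ _ => ?_
        rw [Finset.sum_mul]
        exact Finset.sum_congr rfl fun _ _ => g1 _
      rw [g1 (e ∈ B), g1 (f ∈ B), g2, g3, hK]
      ring
    have e2 : ∑ e ∈ E, ∑ f ∈ E, (if e ∈ B then x e f else 0) = ∑ b ∈ B, ∑ f ∈ E, x b f := by
      have g1 : ∀ e ∈ E, ∑ f ∈ E, (if e ∈ B then x e f else 0) =
          if e ∈ B then ∑ f ∈ E, x e f else 0 := by
        intro e _
        split_ifs <;> simp
      rw [Finset.sum_congr rfl g1, ← Finset.sum_filter]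
      refine Finset.sum_congr ?_ fun _ _ => rfl
      ext e
      rw [Finset.mem_filter]
      exact ⟨fun h => h.2, fun h => ⟨hBE h, h⟩⟩
    have e3 : ∑ e ∈ E, ∑ f ∈ E, (if f ∈ B then x e f else 0) = ∑ b ∈ B, ∑ f ∈ E, x b f := by
      rw [Finset.sum_comm, ← e2]
      refine Finset.sum_congr rfl fun e _ => Finset.sum_congr rfl fun f _ => ?_
      rw [hxs]
    have e4 : ∑ e ∈ E, ∑ f ∈ E, ∑ b ∈ B, (if Meets b e ∧ Meets b f then x e f else 0) =
        ∑ b ∈ B, ∑ e ∈ E, ∑ f ∈ E, if Meets b e ∧ Meets b f then x e f else 0 := by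
      rw [Finset.sum_congr rfl fun e _ => Finset.sum_comm, Finset.sum_comm]
    have e5 : ∑ e ∈ E, ∑ f ∈ E, ∑ b ∈ B, ∑ b' ∈ B.erase b,
        (if vs e ∪ vs f = vs b ∪ vs b' then x e f else 0) =
        ∑ b ∈ B, ∑ b' ∈ B.erase b, ∑ e ∈ E, ∑ f ∈ E,
          if vs e ∪ vs f = vs b ∪ vs b' then x e f else 0 := by
      rw [Finset.sum_congr rfl fun e _ => Finset.sum_comm, Finset.sum_comm]
      refine Finset.sum_congr rfl fun b _ => ?_
      rw [Finset.sum_congr rfl fun e _ => Finset.sum_comm, Finset.sum_comm]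
    rw [e1, e2, e3, e4, e5]
    simp only [wB, yB, Finset.sum_sub_distrib, ← Finset.mul_sum]
    ring
  have htot : ∑ s ∈ HH (B.image vs) (fun _ => 1), ∑ e ∈ E, ∑ f ∈ E, x e f * cost s e f ≤
      ∑ _s ∈ HH (B.image vs) (fun _ => 1), ∑ e ∈ E, ∑ f ∈ E, x e f * K e f := by
    rw [Finset.sum_comm, Finset.sum_const, nsmul_eq_mul, mul_comm, Finset.sum_mul]
    refine Finset.sum_le_sum fun e he => ?_
    rw [Finset.sum_comm, Finset.sum_mul]
    refine Finset.sum_le_sum fun f hf => ?_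
    rw [← Finset.mul_sum]
    exact hpair e he f hf
  obtain ⟨s, _, hs⟩ := Finset.exists_le_of_sum_le hne htot
  exact ⟨s, hs.trans hR.le⟩

end H29.BP
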