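import Pool.Agent.H29.BP.Def

/-!
# [H29 BP CNT] the number of crossings as a sum over pairs of edges

`ES G` is the finite set of edges, `D.x e f` the number of crossings of two different edges. Since
no three arcs have a common crossing point, the set of crossings is the disjoint union over the
unordered pairs of the sets `X e f`, and every unordered pair is counted twice in the double sum.
Paper proof: the map from ordered pairs: for a crossing `p` there are exactly two ordered pairs
`(e, f)`, `e ≠ f`, of edges with `p ∈ X e f` (`no_triple`); count the pairs `(p, (e, f))` in two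
ways (`Finset.sum_comm`, `Set.ncard_eq_toFinset_card`).
-/

set_option autoImplicit false

open Set
open scoped Classical

noncomputable section

namespace H29.BP

variable {V : Type} [Finite V] {G : SimpleGraph V}

/-- the finite set of the edges of `G` -/
def ES (G : SimpleGraph V) : Finset (Sym2 V) := (Set.toFinite G.edgeSet).toFinset

theorem mem_ES {e : Sym2 V} : e ∈ ES G ↔ e ∈ G.edgeSet := by
  simp [ES]

/-- the number of crossings of two edges, `0` for `e = f` -/
def Drawing.x (D : Drawing G) (e f : Sym2 V) : ℕ := if e = f then 0 else (D.X e f).ncard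

omit [Finite V] in
theorem Drawing.X_comm (D : Drawing G) (e f : Sym2 V) : D.X e f = D.X f e := by
  unfold Drawing.X
  rw [Set.inter_comm]

omit [Finite V] in
theorem Drawing.x_comm (D : Drawing G) (e f : Sym2 V) : D.x e f = D.x f e := by
  unfold Drawing.x
  rw [D.X_comm e f]
  by_cases h : e = f
  · rw [if_pos h, if_pos h.symm]
  · rw [if_neg h, if_neg (fun h' => h h'.symm)]

omit [Finite V] in
theorem Drawing.X_finite (D : Drawing G) {e f : Sym2 V} (he : e ∈ G.edgeSet)
    (hf : f ∈ G.edgeSet) (h : e ≠ f) : (D.X e f).Finite :=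
  (D.inter_finite e he f hf h).subset Set.sdiff_subset

theorem Drawing.crossings_finite (D : Drawing G) : D.crossings.Finite := by
  have h1 : D.crossings ⊆ ⋃ p ∈ {p : Sym2 V × Sym2 V | p.1 ∈ G.edgeSet ∧ p.2 ∈ G.edgeSet ∧
      p.1 ≠ p.2}, D.X p.1 p.2 := by
    rintro z ⟨e, he, f, hf, hef, hz⟩
    rw [Set.mem_iUnion₂]
    exact ⟨(e, f), ⟨he, hf, hef⟩, hz⟩
  refine Set.Finite.subset (Set.Finite.biUnion (Set.toFinite _) ?_) h1
  rintro p ⟨he, hf, hef⟩
  exact D.X_finite he hf hef

theorem Drawing.two_mul_cr (D : Drawing G) :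
    2 * D.cr = ∑ e ∈ ES G, ∑ f ∈ ES G, D.x e f := by
  set C : Finset ℂ := D.crossings_finite.toFinset with hC
  have hcr : D.cr = C.card := by
    unfold Drawing.cr
    rw [Set.ncard_eq_toFinset_card _ D.crossings_finite]
  have hx : ∀ e ∈ ES G, ∀ f ∈ ES G, D.x e f =
      ∑ p ∈ C, if e ≠ f ∧ p ∈ D.X e f then 1 else 0 := by
    intro e he f hf
    by_cases hef : e = f
    · unfold Drawing.x
      rw [if_pos hef]
      symm
      refine Finset.sum_eq_zero fun p _ => ?_
      rw [if_neg (fun h => h.1 hef)]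
    · unfold Drawing.x
      rw [if_neg hef, Finset.sum_ite, Finset.sum_const_zero, add_zero, Finset.sum_const,
        smul_eq_mul, mul_one, Set.ncard_eq_toFinset_card _ (D.X_finite (mem_ES.1 he) (mem_ES.1 hf) hef)]
      congr 1
      ext p
      rw [Set.Finite.mem_toFinset, Finset.mem_filter, hC, Set.Finite.mem_toFinset]
      constructor
      · intro hp
        exact ⟨⟨e, mem_ES.1 he, f, mem_ES.1 hf, hef, hp⟩, hef, hp⟩
      · exact fun hp => hp.2.2
  rw [Finset.sum_congr rfl fun e he => Finset.sum_congr rfl fun f hf => hx e he f hf]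
  have h1 : ∑ e ∈ ES G, ∑ f ∈ ES G, ∑ p ∈ C, (if e ≠ f ∧ p ∈ D.X e f then 1 else 0) =
      ∑ p ∈ C, ∑ e ∈ ES G, ∑ f ∈ ES G, (if e ≠ f ∧ p ∈ D.X e f then 1 else 0) := by
    have h2 : ∀ e ∈ ES G, ∑ f ∈ ES G, ∑ p ∈ C, (if e ≠ f ∧ p ∈ D.X e f then 1 else 0) =
        ∑ p ∈ C, ∑ f ∈ ES G, (if e ≠ f ∧ p ∈ D.X e f then 1 else 0) := by
      intro e _
      rw [Finset.sum_comm]
    rw [Finset.sum_congr rfl h2, Finset.sum_comm]
  have h3 : ∀ p ∈ C, ∑ e ∈ ES G, ∑ f ∈ ES G, (if e ≠ f ∧ p ∈ D.X e f then 1 else 0) = 2 := by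
    intro p hp
    rw [hC, Set.Finite.mem_toFinset] at hp
    obtain ⟨e₀, he₀, f₀, hf₀, hef₀, hp₀⟩ := hp
    rw [← Finset.sum_product' (f := fun e f => if e ≠ f ∧ p ∈ D.X e f then 1 else 0),
      Finset.sum_ite, Finset.sum_const_zero, add_zero, Finset.sum_const, smul_eq_mul, mul_one]
    have h4 : ((ES G ×ˢ ES G).filter fun q : Sym2 V × Sym2 V => q.1 ≠ q.2 ∧ p ∈ D.X q.1 q.2) =
        {(e₀, f₀), (f₀, e₀)} := by
      ext ⟨e, f⟩
      rw [Finset.mem_filter, Finset.mem_product, mem_ES, mem_ES, Finset.mem_insert,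
        Finset.mem_singleton, Prod.mk.injEq, Prod.mk.injEq]
      constructor
      · rintro ⟨⟨he, hf⟩, hef, hp1⟩
        simp only at he hf hef hp1
        have hin : ∀ g ∈ G.edgeSet, p ∈ D.arc g → g = e₀ ∨ g = f₀ := by
          intro g hg hpg
          by_contra hne
          push Not at hne
          exact hp₀.2 (D.no_triple e₀ he₀ f₀ hf₀ g hg hef₀ hne.1.symm hne.2.symm p hp₀.1 hpg)
        rcases hin e he hp1.1.1 with h5 | h5 <;> rcases hin f hf hp1.1.2 with h6 | h6
        · exact absurd (h5.trans h6.symm) hef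
        · exact Or.inl ⟨h5, h6⟩
        · exact Or.inr ⟨h5, h6⟩
        · exact absurd (h5.trans h6.symm) hef
      · rintro (⟨rfl, rfl⟩ | ⟨rfl, rfl⟩)
        · exact ⟨⟨he₀, hf₀⟩, hef₀, hp₀⟩
        · exact ⟨⟨hf₀, he₀⟩, hef₀.symm, by rw [D.X_comm]; exact hp₀⟩
    rw [h4, Finset.card_pair]
    intro h5
    exact hef₀ (Prod.mk.inj h5).1
  rw [h1, Finset.sum_congr rfl h3, Finset.sum_const, smul_eq_mul, hcr, mul_comm]

end H29.BP
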