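import Pool.Agent.H29.BP.Loc

/-!
# [H29 BP CUT] resolving a proper crossing in two disjoint arcs

Paper proof. Let `φ` be the chart. We may add the four points `α 0`, `α 1`, `β 0`, `β 1` (different
from `α t = β r` by injectivity) to the closed set `K`. The set
`φ.target ∩ φ.symm ⁻¹' Kᶜ` is a neighbourhood of `0` (`φ.symm 0 = α t ∉ K`); take `ρ > 0` such
that the closed ball of radius `ρ` lies in it. For real `x`, `|x| ≤ ρ`, the point `φ.symm x` is on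
`α '' [0,1]` (its `φ`-image has `im = 0`): `φ.symm x = α (g x)` with `g x ∈ [0,1]`; `g` is
continuous on `[-ρ, ρ]` (the inverse of a continuous injective map on the compact `[0,1]` is
continuous) and injective, so strictly monotone or antitone, `g 0 = t`. So one of `g (-ρ)`, `g ρ`
is `< t` (call it `t₁ = g (-σ ρ)`) and the other one `> t` (`t₃ = g (σ ρ)`), `σ = ±1`, and they are
in `(0, 1)` since `α 0`, `α 1` are in `K`. In the same way `φ.symm (y I) = β (h y)`,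
`r₁ = h (σ' ρ) < r < r₃ = h (-σ' ρ)`. Let `κ = φ.symm '' segment (σ' ρ I) (σ ρ)` and
`κ' = φ.symm '' segment (-σ ρ) (-σ' ρ I)`. Both are arcs (`isArc_segment` and `φ.symm` is
continuous and injective on the ball); they are disjoint as the segments are disjoint (on the
first `σ re + σ' im = ρ`, on the second `= -ρ`). A point of `κ` on `α '' [0,1]` comes from a
point of the segment with `im = 0`, this is `σ ρ`; a point of `κ` on `β '' [0,1]` comes from one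
with `re = 0`. In the same way for `κ'`. The arcs avoid `K` by the choice of `ρ`.
-/

set_option autoImplicit false

open Set

namespace H29.BP

/-- the image of an arc under an injective continuous map -/
theorem IsArc.image {a b : ℂ} {γ : Set ℂ} (h : IsArc a b γ) (f : ℂ → ℂ) (hf : ContinuousOn f γ)
    (hi : InjOn f γ) : IsArc (f a) (f b) (f '' γ) := by
  obtain ⟨g, hgc, hgi, h0, h1, rfl⟩ := h
  refine ⟨fun t => f (g t), ?_, ?_, congrArg f h0, congrArg f h1, ?_⟩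
  · exact hf.comp hgc (mapsTo_image _ _)
  · intro x hx y hy hxy
    exact hgi hx hy (hi (mem_image_of_mem _ hx) (mem_image_of_mem _ hy) hxy)
  · rw [Set.image_image]

/-- an axis inside an arc -/
theorem cut_axis {γ ψ : ℝ → ℂ} (hγc : ContinuousOn γ (Icc 0 1)) (hγi : InjOn γ (Icc 0 1))
    {s ρ : ℝ} (hs : s ∈ Ioo (0 : ℝ) 1) (hρ : 0 < ρ) (hψc : ContinuousOn ψ (Icc (-ρ) ρ))
    (hψi : InjOn ψ (Icc (-ρ) ρ)) (hψγ : ∀ x ∈ Icc (-ρ) ρ, ψ x ∈ γ '' Icc 0 1)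
    (hψ0 : ψ 0 = γ s) (h0 : ∀ x ∈ Icc (-ρ) ρ, ψ x ≠ γ 0) (h1 : ∀ x ∈ Icc (-ρ) ρ, ψ x ≠ γ 1) :
    ∃ σ : ℝ, (σ = 1 ∨ σ = -1) ∧ ∃ s₁ s₃ : ℝ, 0 < s₁ ∧ s₁ < s ∧ s < s₃ ∧ s₃ < 1 ∧
      ψ (-(σ * ρ)) = γ s₁ ∧ ψ (σ * ρ) = γ s₃ := by
  choose! g hg using hψγ
  have hgI : ∀ x ∈ Icc (-ρ) ρ, g x ∈ Icc (0 : ℝ) 1 := fun x hx => (hg x hx).1
  have hgψ : ∀ x ∈ Icc (-ρ) ρ, γ (g x) = ψ x := fun x hx => (hg x hx).2
  have hgc : ContinuousOn g (Icc (-ρ) ρ) := by
    rw [continuousOn_iff_continuous_domRestrict]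
    have e1 : Continuous ((Icc (0 : ℝ) 1).domRestrict γ) :=
      continuousOn_iff_continuous_domRestrict.1 hγc
    have e2 : Function.Injective ((Icc (0 : ℝ) 1).domRestrict γ) := Set.injOn_iff_injective.1 hγi
    have e3 := (e1.isClosedEmbedding e2).isEmbedding
    have e4 : Continuous (fun x : Icc (-ρ) ρ => (⟨g x, hgI x x.2⟩ : Icc (0 : ℝ) 1)) := by
      rw [e3.isInducing.continuous_iff]
      have e5 : ((Icc (0 : ℝ) 1).domRestrict γ ∘
          fun x : Icc (-ρ) ρ => (⟨g x, hgI x x.2⟩ : Icc (0 : ℝ) 1)) =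
          (Icc (-ρ) ρ).domRestrict ψ := by
        funext x
        exact hgψ x x.2
      rw [e5]
      exact continuousOn_iff_continuous_domRestrict.1 hψc
    exact continuous_subtype_val.comp e4
  have hgi : InjOn g (Icc (-ρ) ρ) := by
    intro x hx y hy hxy
    refine hψi hx hy ?_
    rw [← hgψ x hx, ← hgψ y hy, hxy]
  have hm : (-ρ) ∈ Icc (-ρ) ρ := ⟨le_rfl, by linarith⟩
  have hp : ρ ∈ Icc (-ρ) ρ := ⟨by linarith, le_rfl⟩
  have h00 : (0 : ℝ) ∈ Icc (-ρ) ρ := ⟨by linarith, hρ.le⟩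
  have hg0 : g 0 = s := hγi (hgI 0 h00) ⟨hs.1.le, hs.2.le⟩ ((hgψ 0 h00).trans hψ0)
  have hne0 : ∀ x ∈ Icc (-ρ) ρ, 0 < g x := by
    intro x hx
    refine lt_of_le_of_ne (hgI x hx).1 fun h => h0 x hx ?_
    rw [← hgψ x hx, ← h]
  have hne1 : ∀ x ∈ Icc (-ρ) ρ, g x < 1 := by
    intro x hx
    refine lt_of_le_of_ne (hgI x hx).2 fun h => h1 x hx ?_
    rw [← hgψ x hx, h]
  rcases hgc.strictMonoOn_of_injOn_Icc' (by linarith) hgi with h | h
  · refine ⟨1, Or.inl rfl, g (-ρ), g ρ, hne0 _ hm, ?_, ?_, hne1 _ hp, ?_, ?_⟩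
    · rw [← hg0]
      exact h hm h00 (by linarith)
    · rw [← hg0]
      exact h h00 hp hρ
    · rw [one_mul, hgψ _ hm]
    · rw [one_mul, hgψ _ hp]
  · refine ⟨-1, Or.inr rfl, g ρ, g (-ρ), hne0 _ hp, ?_, ?_, hne1 _ hm, ?_, ?_⟩
    · rw [← hg0]
      exact h h00 hp hρ
    · rw [← hg0]
      exact h hm h00 (by linarith)
    · rw [neg_one_mul, neg_neg, hgψ _ hp]
    · rw [neg_one_mul, hgψ _ hm]

theorem cut {α β : ℝ → ℂ} (hαc : ContinuousOn α (Icc 0 1)) (hαi : InjOn α (Icc 0 1))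
    (hβc : ContinuousOn β (Icc 0 1)) (hβi : InjOn β (Icc 0 1)) {t r : ℝ} (ht : t ∈ Ioo (0 : ℝ) 1)
    (hr : r ∈ Ioo (0 : ℝ) 1) (h : α t = β r)
    (hX : CrossAt (α '' Icc 0 1) (β '' Icc 0 1) (α t)) (K : Set ℂ) (hK : IsClosed K)
    (hcK : α t ∉ K) :
    ∃ (t₁ t₃ r₁ r₃ : ℝ) (κ κ' : Set ℂ), 0 < t₁ ∧ t₁ < t ∧ t < t₃ ∧ t₃ < 1 ∧ 0 < r₁ ∧ r₁ < r ∧
      r < r₃ ∧ r₃ < 1 ∧ IsArc (β r₁) (α t₃) κ ∧ IsArc (α t₁) (β r₃) κ' ∧ Disjoint κ κ' ∧
      κ ∩ α '' Icc 0 1 ⊆ {α t₃} ∧ κ ∩ β '' Icc 0 1 ⊆ {β r₁} ∧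
      κ' ∩ α '' Icc 0 1 ⊆ {α t₁} ∧ κ' ∩ β '' Icc 0 1 ⊆ {β r₃} ∧ Disjoint κ K ∧
      Disjoint κ' K := by
  obtain ⟨φ, hsrc, hφ0, hφ⟩ := hX
  have h00 : (0 : ℝ) ∈ Icc (0 : ℝ) 1 := ⟨le_rfl, zero_le_one⟩
  have h11 : (1 : ℝ) ∈ Icc (0 : ℝ) 1 := ⟨zero_le_one, le_rfl⟩
  have htI : t ∈ Icc (0 : ℝ) 1 := ⟨ht.1.le, ht.2.le⟩
  have hrI : r ∈ Icc (0 : ℝ) 1 := ⟨hr.1.le, hr.2.le⟩
  set K' : Set ℂ := K ∪ {α 0, α 1, β 0, β 1} with hK'
  have hK'c : IsClosed K' := hK.union (Set.toFinite _).isClosed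
  have hcK' : α t ∉ K' := by
    rintro (h1 | h1)
    · exact hcK h1
    · simp only [Set.mem_insert_iff, Set.mem_singleton_iff] at h1
      rcases h1 with h1 | h1 | h1 | h1
      · exact ht.1.ne' (hαi htI h00 h1)
      · exact ht.2.ne (hαi htI h11 h1)
      · rw [h] at h1
        exact hr.1.ne' (hβi hrI h00 h1)
      · rw [h] at h1
        exact hr.2.ne (hβi hrI h11 h1)
  have hsymm0 : φ.symm 0 = α t := by
    rw [← hφ0]
    exact φ.left_inv hsrc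
  have h0t : (0 : ℂ) ∈ φ.target := by
    rw [← hφ0]
    exact φ.map_source hsrc
  have hW : IsOpen (φ.target ∩ φ.symm ⁻¹' K'ᶜ) :=
    φ.isOpen_inter_preimage_symm hK'c.isOpen_compl
  have h0W : (0 : ℂ) ∈ φ.target ∩ φ.symm ⁻¹' K'ᶜ := ⟨h0t, by
    rw [Set.mem_preimage, hsymm0]
    exact hcK'⟩
  obtain ⟨ε, hε, hball⟩ := Metric.isOpen_iff.1 hW 0 h0W
  set ρ : ℝ := ε / 2 with hρdef
  have hρ : 0 < ρ := by positivity
  have hB : ∀ z ∈ Metric.closedBall (0 : ℂ) ρ, z ∈ φ.target ∧ φ.symm z ∉ K' := by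
    intro z hz
    refine hball ?_
    rw [Metric.mem_closedBall] at hz
    rw [Metric.mem_ball]
    linarith
  have hsub : Metric.closedBall (0 : ℂ) ρ ⊆ φ.target := fun z hz => (hB z hz).1
  have hcont : ContinuousOn φ.symm (Metric.closedBall (0 : ℂ) ρ) := φ.continuousOn_symm.mono hsub
  have hinj : InjOn φ.symm (Metric.closedBall (0 : ℂ) ρ) := φ.symm.injOn.mono hsub
  have hαmem : ∀ z ∈ Metric.closedBall (0 : ℂ) ρ, (φ.symm z ∈ α '' Icc 0 1 ↔ z.im = 0) := by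
    intro z hz
    have h1 := (hφ (φ.symm z) (φ.map_target (hsub hz))).1
    rwa [φ.right_inv (hsub hz)] at h1
  have hβmem : ∀ z ∈ Metric.closedBall (0 : ℂ) ρ, (φ.symm z ∈ β '' Icc 0 1 ↔ z.re = 0) := by
    intro z hz
    have h1 := (hφ (φ.symm z) (φ.map_target (hsub hz))).2
    rwa [φ.right_inv (hsub hz)] at h1
  have hnotK : ∀ z ∈ Metric.closedBall (0 : ℂ) ρ, ∀ w ∈ K', φ.symm z ≠ w := by
    intro z hz w hw h1
    rw [← h1] at hw
    exact (hB z hz).2 hw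
  -- the two axes
  have hx : ∀ x ∈ Icc (-ρ) ρ, (x : ℂ) ∈ Metric.closedBall (0 : ℂ) ρ := by
    intro x hx
    rw [mem_closedBall_zero_iff, Complex.norm_real, Real.norm_eq_abs, abs_le]
    exact hx
  have hy : ∀ x ∈ Icc (-ρ) ρ, (x : ℂ) * Complex.I ∈ Metric.closedBall (0 : ℂ) ρ := by
    intro x hx
    rw [mem_closedBall_zero_iff, norm_mul, Complex.norm_I, mul_one, Complex.norm_real,
      Real.norm_eq_abs, abs_le]
    exact hx
  obtain ⟨σ, hσ, t₁, t₃, ht₁0, ht₁, ht₃, ht₃1, et₁, et₃⟩ :=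
    cut_axis (γ := α) (ψ := fun x : ℝ => φ.symm (x : ℂ)) hαc hαi ht hρ
      (hcont.comp Complex.continuous_ofReal.continuousOn hx)
      (fun x hx' y hy' hxy => by exact_mod_cast hinj (hx x hx') (hx y hy') hxy)
      (fun x hx' => (hαmem _ (hx x hx')).2 (Complex.ofReal_im x))
      (by rw [Complex.ofReal_zero]; exact hsymm0)
      (fun x hx' => hnotK _ (hx x hx') _ (Or.inr (by simp)))
      (fun x hx' => hnotK _ (hx x hx') _ (Or.inr (by simp)))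
  obtain ⟨τ, hτ, r₁, r₃, hr₁0, hr₁, hr₃, hr₃1, er₁, er₃⟩ :=
    cut_axis (γ := β) (ψ := fun x : ℝ => φ.symm ((x : ℂ) * Complex.I)) hβc hβi hr hρ
      (hcont.comp (Complex.continuous_ofReal.mul continuous_const).continuousOn hy)
      (fun x hx' y hy' hxy => by
        exact_mod_cast mul_right_cancel₀ Complex.I_ne_zero (hinj (hy x hx') (hy y hy') hxy))
      (fun x hx' => (hβmem _ (hy x hx')).2 (by simp))
      (by rw [Complex.ofReal_zero, zero_mul, hsymm0, h])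
      (fun x hx' => hnotK _ (hy x hx') _ (Or.inr (by simp)))
      (fun x hx' => hnotK _ (hy x hx') _ (Or.inr (by simp)))
  have hσ2 : σ * σ = 1 := by rcases hσ with rfl | rfl <;> norm_num
  have hτ2 : τ * τ = 1 := by rcases hτ with rfl | rfl <;> norm_num
  have hσρ : σ * ρ ∈ Icc (-ρ) ρ := by
    rcases hσ with rfl | rfl <;> constructor <;> linarith
  have hσρ' : -(σ * ρ) ∈ Icc (-ρ) ρ := by
    rcases hσ with rfl | rfl <;> constructor <;> linarith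
  have hτρ : τ * ρ ∈ Icc (-ρ) ρ := by
    rcases hτ with rfl | rfl <;> constructor <;> linarith
  have hτρ' : -(τ * ρ) ∈ Icc (-ρ) ρ := by
    rcases hτ with rfl | rfl <;> constructor <;> linarith
  -- the two segments
  have hseg1 : segment ℝ (((-(τ * ρ) : ℝ) : ℂ) * Complex.I) ((σ * ρ : ℝ) : ℂ) ⊆
      Metric.closedBall (0 : ℂ) ρ :=
    (convex_closedBall (0 : ℂ) ρ).segment_subset (hy _ hτρ') (hx _ hσρ)
  have hseg2 : segment ℝ ((-(σ * ρ) : ℝ) : ℂ) (((τ * ρ : ℝ) : ℂ) * Complex.I) ⊆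
      Metric.closedBall (0 : ℂ) ρ :=
    (convex_closedBall (0 : ℂ) ρ).segment_subset (hx _ hσρ') (hy _ hτρ)
  have hd1 : ∀ z ∈ segment ℝ (((-(τ * ρ) : ℝ) : ℂ) * Complex.I) ((σ * ρ : ℝ) : ℂ),
      σ * z.re - τ * z.im = ρ ∧ (z.im = 0 → z = ((σ * ρ : ℝ) : ℂ)) ∧
      (z.re = 0 → z = ((-(τ * ρ) : ℝ) : ℂ) * Complex.I) := by
    rintro z ⟨a, b, ha, hb, hab, rfl⟩
    have hre : (a • (((-(τ * ρ) : ℝ) : ℂ) * Complex.I) + b • ((σ * ρ : ℝ) : ℂ)).re =
        b * (σ * ρ) := by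
      simp
    have him : (a • (((-(τ * ρ) : ℝ) : ℂ) * Complex.I) + b • ((σ * ρ : ℝ) : ℂ)).im =
        -(a * (τ * ρ)) := by
      simp
    refine ⟨?_, ?_, ?_⟩
    · rw [hre, him]
      linear_combination b * ρ * hσ2 + a * ρ * hτ2 + ρ * hab
    · intro h1
      rw [him, neg_eq_zero] at h1
      have h2 : a = 0 := by
        rcases mul_eq_zero.1 h1 with h3 | h3
        · exact h3
        · exfalso
          rcases mul_eq_zero.1 h3 with h4 | h4
          · rw [h4] at hτ2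
            norm_num at hτ2
          · exact hρ.ne' h4
      have h3 : b = 1 := by linarith
      rw [h2, h3]
      simp
    · intro h1
      rw [hre] at h1
      have h2 : b = 0 := by
        rcases mul_eq_zero.1 h1 with h3 | h3
        · exact h3
        · exfalso
          rcases mul_eq_zero.1 h3 with h4 | h4
          · rw [h4] at hσ2
            norm_num at hσ2
          · exact hρ.ne' h4
      have h3 : a = 1 := by linarith
      rw [h2, h3]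
      simp
  have hd2 : ∀ z ∈ segment ℝ ((-(σ * ρ) : ℝ) : ℂ) (((τ * ρ : ℝ) : ℂ) * Complex.I),
      σ * z.re - τ * z.im = -ρ ∧ (z.im = 0 → z = ((-(σ * ρ) : ℝ) : ℂ)) ∧
      (z.re = 0 → z = ((τ * ρ : ℝ) : ℂ) * Complex.I) := by
    rintro z ⟨a, b, ha, hb, hab, rfl⟩
    have hre : (a • ((-(σ * ρ) : ℝ) : ℂ) + b • (((τ * ρ : ℝ) : ℂ) * Complex.I)).re =
        -(a * (σ * ρ)) := by
      simp
    have him : (a • ((-(σ * ρ) : ℝ) : ℂ) + b • (((τ * ρ : ℝ) : ℂ) * Complex.I)).im =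
        b * (τ * ρ) := by
      simp
    refine ⟨?_, ?_, ?_⟩
    · rw [hre, him]
      linear_combination -(a * ρ) * hσ2 - b * ρ * hτ2 - ρ * hab
    · intro h1
      rw [him] at h1
      have h2 : b = 0 := by
        rcases mul_eq_zero.1 h1 with h3 | h3
        · exact h3
        · exfalso
          rcases mul_eq_zero.1 h3 with h4 | h4
          · rw [h4] at hτ2
            norm_num at hτ2
          · exact hρ.ne' h4
      have h3 : a = 1 := by linarith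
      rw [h2, h3]
      simp
    · intro h1
      rw [hre, neg_eq_zero] at h1
      have h2 : a = 0 := by
        rcases mul_eq_zero.1 h1 with h3 | h3
        · exact h3
        · exfalso
          rcases mul_eq_zero.1 h3 with h4 | h4
          · rw [h4] at hσ2
            norm_num at hσ2
          · exact hρ.ne' h4
      have h3 : b = 1 := by linarith
      rw [h2, h3]
      simp
  have hne1 : ((-(τ * ρ) : ℝ) : ℂ) * Complex.I ≠ ((σ * ρ : ℝ) : ℂ) := by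
    intro h1
    have h2 := congrArg Complex.re h1
    simp at h2
    rcases h2 with h2 | h2
    · rw [h2] at hσ2
      norm_num at hσ2
    · exact hρ.ne' h2
  have hne2 : ((-(σ * ρ) : ℝ) : ℂ) ≠ ((τ * ρ : ℝ) : ℂ) * Complex.I := by
    intro h1
    have h2 := congrArg Complex.re h1
    simp at h2
    rcases h2 with h2 | h2
    · rw [h2] at hσ2
      norm_num at hσ2
    · exact hρ.ne' h2
  refine ⟨t₁, t₃, r₁, r₃,
    φ.symm '' segment ℝ (((-(τ * ρ) : ℝ) : ℂ) * Complex.I) ((σ * ρ : ℝ) : ℂ),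
    φ.symm '' segment ℝ ((-(σ * ρ) : ℝ) : ℂ) (((τ * ρ : ℝ) : ℂ) * Complex.I),
    ht₁0, ht₁, ht₃, ht₃1, hr₁0, hr₁, hr₃, hr₃1, ?_, ?_, ?_, ?_, ?_, ?_, ?_, ?_, ?_⟩
  · rw [← er₁, ← et₃]
    exact (isArc_segment hne1).image _ (hcont.mono hseg1) (hinj.mono hseg1)
  · rw [← et₁, ← er₃]
    exact (isArc_segment hne2).image _ (hcont.mono hseg2) (hinj.mono hseg2)
  · rw [Set.disjoint_left]
    rintro _ ⟨z, hz, rfl⟩ ⟨w, hw, hzw⟩
    have h1 := hinj (hseg2 hw) (hseg1 hz) hzw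
    rw [h1] at hw
    have h2 := (hd1 z hz).1
    have h3 := (hd2 z hw).1
    linarith
  · rintro _ ⟨⟨z, hz, rfl⟩, h1⟩
    rw [hαmem z (hseg1 hz)] at h1
    rw [(hd1 z hz).2.1 h1, et₃]
    rfl
  · rintro _ ⟨⟨z, hz, rfl⟩, h1⟩
    rw [hβmem z (hseg1 hz)] at h1
    rw [(hd1 z hz).2.2 h1, er₁]
    rfl
  · rintro _ ⟨⟨z, hz, rfl⟩, h1⟩
    rw [hαmem z (hseg2 hz)] at h1
    rw [(hd2 z hz).2.1 h1, et₁]
    rfl
  · rintro _ ⟨⟨z, hz, rfl⟩, h1⟩
    rw [hβmem z (hseg2 hz)] at h1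
    rw [(hd2 z hz).2.2 h1, er₃]
    rfl
  · rw [Set.disjoint_left]
    rintro _ ⟨z, hz, rfl⟩ h1
    exact (hB z (hseg1 hz)).2 (Or.inl h1)
  · rw [Set.disjoint_left]
    rintro _ ⟨z, hz, rfl⟩ h1
    exact (hB z (hseg2 hz)).2 (Or.inl h1)

end H29.BP
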