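import Mathlib

/-!
# Drawings of graphs in the plane, crossing number, biplanar crossing number (MP_2d2db3_co)

The plane is `ℂ`. An edge is represented by a simple arc (image of a continuous injective map of
`[0,1]`), no arc passes through a vertex other than its own end points, two arcs have only
finitely many common points, at every common point which is not a vertex they cross properly
(in a suitable local chart they are the two coordinate axes), and no three arcs have a common
point which is not a vertex.
-/

set_option autoImplicit false

open Set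

namespace H29.BP

/-- `γ` is a simple continuous arc in the plane with end points `a` and `b` -/
def IsArc (a b : ℂ) (γ : Set ℂ) : Prop :=
  ∃ f : ℝ → ℂ, ContinuousOn f (Icc 0 1) ∧ InjOn f (Icc 0 1) ∧ f 0 = a ∧ f 1 = b ∧
    f '' Icc 0 1 = γ

/-- the sets `γ` and `δ` cross properly at `p`: there is a chart `φ` of the plane around `p` in
which `p` is the origin, `γ` is the horizontal axis and `δ` is the vertical axis -/
def CrossAt (γ δ : Set ℂ) (p : ℂ) : Prop :=
  ∃ φ : OpenPartialHomeomorph ℂ ℂ, p ∈ φ.source ∧ φ p = 0 ∧
    ∀ z ∈ φ.source, (z ∈ γ ↔ (φ z).im = 0) ∧ (z ∈ δ ↔ (φ z).re = 0)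

/-- a drawing of the graph `G` in the plane; `arc e` is only meaningful for edges `e` of `G` -/
structure Drawing {V : Type} (G : SimpleGraph V) where
  /-- the places of the vertices -/
  pos : V → ℂ
  /-- the arcs of the edges -/
  arc : Sym2 V → Set ℂ
  /-- different vertices have different places -/
  pos_inj : Function.Injective pos
  /-- edges are simple continuous arcs joining the places of their end points -/
  isArc : ∀ u v, G.Adj u v → IsArc (pos u) (pos v) (arc s(u, v))
  /-- no arc passes through a vertex other than its own end points -/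
  avoid : ∀ u v w, G.Adj u v → pos w ∈ arc s(u, v) → w = u ∨ w = v
  /-- two different arcs have finitely many common points -/
  inter_finite : ∀ e ∈ G.edgeSet, ∀ f ∈ G.edgeSet, e ≠ f → (arc e ∩ arc f).Finite
  /-- two different arcs cross properly at every common point which is not a vertex -/
  proper : ∀ e ∈ G.edgeSet, ∀ f ∈ G.edgeSet, e ≠ f → ∀ p ∈ arc e ∩ arc f, p ∉ range pos →
    CrossAt (arc e) (arc f) p
  /-- no three arcs have a common point which is not a vertex -/
  no_triple : ∀ e ∈ G.edgeSet, ∀ f ∈ G.edgeSet, ∀ g ∈ G.edgeSet, e ≠ f → e ≠ g → f ≠ g →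
    ∀ p ∈ arc e ∩ arc f, p ∈ arc g → p ∈ range pos

variable {V : Type} {G : SimpleGraph V}

/-- the crossings of the arcs of `e` and `f` -/
def Drawing.X (D : Drawing G) (e f : Sym2 V) : Set ℂ := (D.arc e ∩ D.arc f) \ range D.pos

/-- the crossing points of the drawing -/
def Drawing.crossings (D : Drawing G) : Set ℂ :=
  {p | ∃ e ∈ G.edgeSet, ∃ f ∈ G.edgeSet, e ≠ f ∧ p ∈ D.X e f}

/-- the number of crossings of the drawing -/
noncomputable def Drawing.cr (D : Drawing G) : ℕ := D.crossings.ncard

/-- the crossing number of `G`: the least number of crossings over all drawings of `G` -/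
noncomputable def CR (G : SimpleGraph V) : ℕ := sInf {n | ∃ D : Drawing G, D.cr = n}

/-- the biplanar crossing number of `G`: the least value of `CR G₁ + CR G₂` over all ways of
splitting the edge set of `G` into two disjoint parts `G₁`, `G₂` -/
noncomputable def CR2 (G : SimpleGraph V) : ℕ :=
  sInf {n | ∃ G₁ G₂ : SimpleGraph V, Disjoint G₁ G₂ ∧ G₁ ⊔ G₂ = G ∧ n = CR G₁ + CR G₂}

end H29.BP
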