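import Mathlib

/-!
# [H29 BP GENPOS] points in general position

`cp` is the cross product of two vectors of the plane. Paper proofs.

`avoid_lines`: take `q = t + t² I`; for `v = l.2 ≠ 0`, `z = l.1` the number
`cp v (q - z) = v.re (t² - z.im) - v.im (t - z.re)` is a polynomial in `t` of degree at most two
with at most two zeros (if `v.re ≠ 0` it has degree two; if `v.re = 0` it is `-v.im (t - z.re)`
with `v.im ≠ 0`). So the union of the zero sets over `L` is finite, and some real `t` is outside.

`genPos`: induction over a finite set `S` of vertices (`Finset.induction_on`, statement for all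
vertices in `S`; at the end `S = univ`). Insert `w`: keep the places of `S` and choose the place
`q` of `w` by `avoid_lines` outside of: the lines through two points of `S` (so `q` is on none of
them; if `S` has only one point take any line through it), and the lines through `pos e` and `p`,
`e ∈ S`, `p` a common point of the segments `ab`, `cd`, with `a, b, c, d, e` different in `S`
(`p ≠ pos e` as `e` is not on the line `ab`; `p` is unique for given `a, b, c, d`: two common
points `p ≠ p'` of the segments would put all of `a, b, c, d` on the line through `p, p'`; so the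
set of all `p` is finite). The six different vertices of the second property contain `w` at most
once, without loss of generality in the last pair.
-/

set_option autoImplicit false

open Set

namespace H29.BP

/-- cross product -/
def cp (z w : ℂ) : ℝ := z.re * w.im - z.im * w.re

/-- the polynomial for the cross product of two vectors of polynomials -/
noncomputable def pcp {V : Type} (z w : MvPolynomial (V × Bool) ℝ × MvPolynomial (V × Bool) ℝ) :
    MvPolynomial (V × Bool) ℝ := z.1 * w.2 - z.2 * w.1

/-- the place of a vertex as a pair of variables -/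
noncomputable def pp {V : Type} (v : V) :
    MvPolynomial (V × Bool) ℝ × MvPolynomial (V × Bool) ℝ :=
  (MvPolynomial.X (v, false), MvPolynomial.X (v, true))

/-- collinearity of three points -/
noncomputable def pA {V : Type} (a b c : V) : MvPolynomial (V × Bool) ℝ :=
  pcp (pp b - pp a) (pp c - pp a)

/-- concurrency of three lines -/
noncomputable def pC {V : Type} (a b c d e f : V) : MvPolynomial (V × Bool) ℝ :=
  pcp (pp b - pp a) (pp a) * pcp (pp d - pp c) (pp f - pp e) +
    pcp (pp d - pp c) (pp c) * pcp (pp f - pp e) (pp b - pp a) +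
    pcp (pp f - pp e) (pp e) * pcp (pp b - pp a) (pp d - pp c)

/-- the places given by the values of the variables -/
noncomputable def plc {V : Type} (x : V × Bool → ℝ) (v : V) : ℂ := ⟨x (v, false), x (v, true)⟩

theorem eval_pA {V : Type} (x : V × Bool → ℝ) (a b c : V) : MvPolynomial.eval x (pA a b c) =
    cp (plc x b - plc x a) (plc x c - plc x a) := by
  simp [pA, pcp, pp, cp, plc]

theorem eval_pC {V : Type} (x : V × Bool → ℝ) (a b c d e f : V) :
    MvPolynomial.eval x (pC a b c d e f) =
    cp (plc x b - plc x a) (plc x a) * cp (plc x d - plc x c) (plc x f - plc x e) +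
    cp (plc x d - plc x c) (plc x c) * cp (plc x f - plc x e) (plc x b - plc x a) +
    cp (plc x f - plc x e) (plc x e) * cp (plc x b - plc x a) (plc x d - plc x c) := by
  simp [pC, pcp, pp, cp, plc]

/-- three lines with a common point -/
theorem concur {a b c d e f p : ℂ} (h1 : cp (b - a) (p - a) = 0) (h2 : cp (d - c) (p - c) = 0)
    (h3 : cp (f - e) (p - e) = 0) :
    cp (b - a) a * cp (d - c) (f - e) + cp (d - c) c * cp (f - e) (b - a) +
      cp (f - e) e * cp (b - a) (d - c) = 0 := by
  have e1 : cp (b - a) a = cp (b - a) p := by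
    simp only [cp, Complex.sub_re, Complex.sub_im] at h1 ⊢
    linarith
  have e2 : cp (d - c) c = cp (d - c) p := by
    simp only [cp, Complex.sub_re, Complex.sub_im] at h2 ⊢
    linarith
  have e3 : cp (f - e) e = cp (f - e) p := by
    simp only [cp, Complex.sub_re, Complex.sub_im] at h3 ⊢
    linarith
  rw [e1, e2, e3]
  simp only [cp, Complex.sub_re, Complex.sub_im]
  ring

theorem cp_segment {a b p : ℂ} (hp : p ∈ segment ℝ a b) : cp (b - a) (p - a) = 0 := by
  obtain ⟨s, t, _, _, hst, rfl⟩ := hp
  have hs : s = 1 - t := by linarith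
  subst hs
  simp only [cp, Complex.sub_re, Complex.sub_im, Complex.add_re, Complex.add_im,
    Complex.real_smul, Complex.mul_re, Complex.mul_im, Complex.ofReal_re, Complex.ofReal_im]
  ring

/-- a value assignment for the variables -/
noncomputable def asg {V : Type} (g : V → ℂ) (q : V × Bool) : ℝ :=
  if q.2 then (g q.1).im else (g q.1).re

theorem ne_zero_of_eval {V : Type} {P : MvPolynomial (V × Bool) ℝ} (g : V → ℂ)
    (h : MvPolynomial.eval (asg g) P ≠ 0) : P ≠ 0 := by
  rintro rfl
  exact h (map_zero _)

theorem plc_asg {V : Type} (g : V → ℂ) (v : V) : plc (asg g) v = g v := by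
  simp [plc, asg]

theorem genPos (V : Type) [Finite V] : ∃ pos : V → ℂ, Function.Injective pos ∧
    (∀ a b c, a ≠ b → a ≠ c → b ≠ c → cp (pos b - pos a) (pos c - pos a) ≠ 0) ∧
    (∀ a b c d e f, [a, b, c, d, e, f].Nodup → ∀ p ∈ segment ℝ (pos a) (pos b),
      p ∈ segment ℝ (pos c) (pos d) → p ∉ segment ℝ (pos e) (pos f)) := by
  classical
  cases nonempty_fintype V
  set S2 : Finset (V × V) := Finset.univ.filter fun q => q.1 ≠ q.2 with hS2
  set S3 : Finset (V × V × V) := Finset.univ.filter fun q =>
    q.1 ≠ q.2.1 ∧ q.1 ≠ q.2.2 ∧ q.2.1 ≠ q.2.2 with hS3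
  set S6 : Finset (V × V × V × V × V × V) := Finset.univ.filter fun q =>
    [q.1, q.2.1, q.2.2.1, q.2.2.2.1, q.2.2.2.2.1, q.2.2.2.2.2].Nodup with hS6
  set P2 : MvPolynomial (V × Bool) ℝ := ∏ q ∈ S2, ((pp q.1).1 - (pp q.2).1) with hP2
  set P3 : MvPolynomial (V × Bool) ℝ := ∏ q ∈ S3, pA q.1 q.2.1 q.2.2 with hP3
  set P6 : MvPolynomial (V × Bool) ℝ := ∏ q ∈ S6,
    pC q.1 q.2.1 q.2.2.1 q.2.2.2.1 q.2.2.2.2.1 q.2.2.2.2.2 with hP6
  have h2 : P2 ≠ 0 := by
    rw [hP2, Finset.prod_ne_zero_iff]
    rintro ⟨a, b⟩ hq
    rw [hS2, Finset.mem_filter] at hq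
    have hab : a ≠ b := hq.2
    refine ne_zero_of_eval (fun v => if v = a then 1 else 0) ?_
    simp [pp, asg, hab.symm]
  have h3 : P3 ≠ 0 := by
    rw [hP3, Finset.prod_ne_zero_iff]
    rintro ⟨a, b, c⟩ hq
    rw [hS3, Finset.mem_filter] at hq
    obtain ⟨_, hab, hac, hbc⟩ := hq
    simp only at hab hac hbc
    refine ne_zero_of_eval (fun v => if v = b then 1 else if v = c then Complex.I else 0) ?_
    rw [eval_pA]
    simp only [plc_asg]
    simp [hab, hac, hbc.symm, cp]
  have h6 : P6 ≠ 0 := by
    rw [hP6, Finset.prod_ne_zero_iff]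
    rintro ⟨a, b, c, d, e, f⟩ hq
    rw [hS6, Finset.mem_filter] at hq
    have hq' : [a, b, c, d, e, f].Nodup := hq.2
    simp only [List.nodup_cons, List.mem_cons, List.not_mem_nil, or_false, not_or,
      List.nodup_nil, not_false_eq_true, and_true] at hq'
    obtain ⟨⟨ab, ac, ad, ae, af⟩, ⟨bc, bd, be, bf⟩, ⟨cd, ce, cf⟩, ⟨de, df⟩, ef⟩ := hq'
    refine ne_zero_of_eval (fun v => if v = b ∨ v = e then 1 else
      if v = d ∨ v = f then Complex.I else 0) ?_
    rw [eval_pC]
    simp only [plc_asg]
    simp [cp, ab, ad, ae, af, Ne.symm bc, Ne.symm bd, Ne.symm bf, cd, ce, cf, de, Ne.symm ef]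
  have hne : P2 * P3 * P6 ≠ 0 := mul_ne_zero (mul_ne_zero h2 h3) h6
  obtain ⟨x, hx⟩ : ∃ x, MvPolynomial.eval x (P2 * P3 * P6) ≠ 0 := by
    by_contra hcon
    push Not at hcon
    refine hne (MvPolynomial.funext fun x => ?_)
    rw [hcon x, map_zero]
  rw [map_mul, map_mul] at hx
  have hx2 : MvPolynomial.eval x P2 ≠ 0 := left_ne_zero_of_mul (left_ne_zero_of_mul hx)
  have hx3 : MvPolynomial.eval x P3 ≠ 0 := right_ne_zero_of_mul (left_ne_zero_of_mul hx)
  have hx6 : MvPolynomial.eval x P6 ≠ 0 := right_ne_zero_of_mul hx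
  rw [hP2, map_prod, Finset.prod_ne_zero_iff] at hx2
  rw [hP3, map_prod, Finset.prod_ne_zero_iff] at hx3
  rw [hP6, map_prod, Finset.prod_ne_zero_iff] at hx6
  refine ⟨plc x, ?_, ?_, ?_⟩
  · intro a b hab
    by_contra hne'
    have h7 := hx2 (a, b) (by rw [hS2, Finset.mem_filter]; exact ⟨Finset.mem_univ _, hne'⟩)
    refine h7 ?_
    have h8 := congrArg Complex.re hab
    simp only [plc] at h8
    simp [pp, h8]
  · intro a b c hab hac hbc
    have h7 := hx3 (a, b, c) (by
      rw [hS3, Finset.mem_filter]
      exact ⟨Finset.mem_univ _, hab, hac, hbc⟩)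
    rwa [eval_pA] at h7
  · intro a b c d e f hnd p hp1 hp2 hp3
    have h7 := hx6 (a, b, c, d, e, f) (by
      rw [hS6, Finset.mem_filter]
      exact ⟨Finset.mem_univ _, hnd⟩)
    rw [eval_pC] at h7
    exact h7 (concur (cp_segment hp1) (cp_segment hp2) (cp_segment hp3))

end H29.BP
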