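import Pool.Agent.H29.BP.Loc
import Pool.Agent.H29.BP.GenPos

/-!
# [H29 BP EXIST] every finite graph has a drawing

Paper proofs. `cross_segment`: two non-parallel segments with a common point `p` which is not an
end point cross properly at `p`: with `v = b - a`, `w = d - c`, `cp v w ≠ 0`, take the affine chart
`φ z = (cp (z - p) w / cp v w) + (cp v (z - p) / cp v w) I` (so `z = p + re v + im w`), a
homeomorphism of the plane, restricted to a small ball around `p`: near `p` the segment `ab` is the
line `p + ℝ v` as `p` is in its interior (`p = a + s v`, `0 < s < 1`).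

`exists_drawing`: straight line drawing with the places of `genPos`, `arc e` is the segment
(`Sym2.lift`, `segment_symm`). A vertex on a segment `ab` is `a` or `b` (not collinear). Two
edges with a common end point meet only there. Two disjoint edges meet in at most one point (two
common points would make four points collinear), it is not an end point of one of the segments
(not collinear), and the directions are not parallel if they meet (else the segments are on one
line). Three edges with a common point which is not a vertex: any two of them are disjoint, so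
they have six different end points: excluded by `genPos`.
-/

set_option autoImplicit false

open Set

namespace H29.BP

/-- affine coordinates of the plane -/
noncomputable def affC (p v w : ℂ) (h : cp v w ≠ 0) : ℂ ≃ₜ ℂ where
  toFun z := ((cp (z - p) w / cp v w : ℝ) : ℂ) + ((cp v (z - p) / cp v w : ℝ) : ℂ) * Complex.I
  invFun u := p + (u.re : ℂ) * v + (u.im : ℂ) * w
  left_inv := by
    intro z
    have h1 : (((cp (z - p) w / cp v w : ℝ) : ℂ) +
        ((cp v (z - p) / cp v w : ℝ) : ℂ) * Complex.I).re = cp (z - p) w / cp v w := by simp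
    have h2 : (((cp (z - p) w / cp v w : ℝ) : ℂ) +
        ((cp v (z - p) / cp v w : ℝ) : ℂ) * Complex.I).im = cp v (z - p) / cp v w := by simp
    simp only
    rw [h1, h2]
    apply Complex.ext
    · simp only [Complex.add_re, Complex.mul_re, Complex.ofReal_re, Complex.ofReal_im, zero_mul,
        sub_zero]
      field_simp
      simp only [cp, Complex.sub_re, Complex.sub_im]
      ring
    · simp only [Complex.add_im, Complex.mul_im, Complex.ofReal_re, Complex.ofReal_im, zero_mul,
        add_zero]
      field_simp
      simp only [cp, Complex.sub_re, Complex.sub_im]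
      ring
  right_inv := by
    intro u
    have h1 : cp (p + (u.re : ℂ) * v + (u.im : ℂ) * w - p) w = u.re * cp v w := by
      simp only [cp, Complex.add_re, Complex.mul_re, Complex.ofReal_re, Complex.ofReal_im,
        Complex.sub_re, Complex.sub_im, Complex.add_im, Complex.mul_im]
      ring
    have h2 : cp v (p + (u.re : ℂ) * v + (u.im : ℂ) * w - p) = u.im * cp v w := by
      simp only [cp, Complex.add_re, Complex.mul_re, Complex.ofReal_re, Complex.ofReal_im,
        Complex.sub_re, Complex.sub_im, Complex.add_im, Complex.mul_im]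
      ring
    simp only
    rw [h1, h2, mul_div_cancel_right₀ _ h, mul_div_cancel_right₀ _ h, Complex.re_add_im]
  continuous_toFun := by
    unfold cp
    fun_prop
  continuous_invFun := by fun_prop

theorem affC_re (p v w : ℂ) (h : cp v w ≠ 0) (z : ℂ) :
    (affC p v w h z).re = cp (z - p) w / cp v w := by
  show (((cp (z - p) w / cp v w : ℝ) : ℂ) +
        ((cp v (z - p) / cp v w : ℝ) : ℂ) * Complex.I).re = _
  simp

theorem affC_im (p v w : ℂ) (h : cp v w ≠ 0) (z : ℂ) :
    (affC p v w h z).im = cp v (z - p) / cp v w := by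
  show (((cp (z - p) w / cp v w : ℝ) : ℂ) +
        ((cp v (z - p) / cp v w : ℝ) : ℂ) * Complex.I).im = _
  simp

theorem affC_eq (p v w : ℂ) (h : cp v w ≠ 0) (z : ℂ) :
    z = p + ((affC p v w h z).re : ℂ) * v + ((affC p v w h z).im : ℂ) * w :=
  ((affC p v w h).left_inv z).symm

/-- a point of an open segment -/
theorem mem_open_seg {a b p : ℂ} (hp : p ∈ segment ℝ a b) (ha : p ≠ a) (hb : p ≠ b) :
    ∃ s : ℝ, 0 < s ∧ s < 1 ∧ p = a + (s : ℂ) * (b - a) := by
  obtain ⟨r, s, hr, hs, hrs, rfl⟩ := hp
  refine ⟨s, ?_, ?_, ?_⟩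
  · rcases hs.eq_or_lt with h | h
    · exfalso
      have h1 : r = 1 := by linarith
      rw [← h, h1] at ha
      simp at ha
    · exact h
  · rcases hr.eq_or_lt with h | h
    · exfalso
      have h1 : s = 1 := by linarith
      rw [← h, h1] at hb
      simp at hb
    · linarith
  · have h1 : r = 1 - s := by linarith
    rw [h1]
    simp only [Complex.real_smul, Complex.ofReal_sub, Complex.ofReal_one]
    ring

theorem mem_segment_of {a b z : ℂ} {x : ℝ} (h0 : 0 ≤ x) (h1 : x ≤ 1)
    (h : z = a + (x : ℂ) * (b - a)) : z ∈ segment ℝ a b := by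
  refine ⟨1 - x, x, by linarith, h0, by ring, ?_⟩
  rw [h]
  simp only [Complex.real_smul, Complex.ofReal_sub, Complex.ofReal_one]
  ring

theorem cross_segment {a b c d p : ℂ} (hp : p ∈ segment ℝ a b) (hp' : p ∈ segment ℝ c d)
    (ha : p ≠ a) (hb : p ≠ b) (hc : p ≠ c) (hd : p ≠ d) (h : cp (b - a) (d - c) ≠ 0) :
    CrossAt (segment ℝ a b) (segment ℝ c d) p := by
  obtain ⟨s, hs0, hs1, hs⟩ := mem_open_seg hp ha hb
  obtain ⟨r, hr0, hr1, hr⟩ := mem_open_seg hp' hc hd
  set v : ℂ := b - a with hv
  set w : ℂ := d - c with hw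
  set ε : ℝ := min (min s (1 - s)) (min r (1 - r)) with hε
  have hε0 : 0 < ε := by
    rw [hε]
    exact lt_min (lt_min hs0 (by linarith)) (lt_min hr0 (by linarith))
  have hεs : ε ≤ s := (min_le_left _ _).trans (min_le_left _ _)
  have hεs' : ε ≤ 1 - s := (min_le_left _ _).trans (min_le_right _ _)
  have hεr : ε ≤ r := (min_le_right _ _).trans (min_le_left _ _)
  have hεr' : ε ≤ 1 - r := (min_le_right _ _).trans (min_le_right _ _)
  set A := affC p v w h with hA
  have hAc : Continuous A := A.continuous
  set S : Set ℂ := {z | |(A z).re| < ε ∧ |(A z).im| < ε} with hS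
  have hSo : IsOpen S := by
    rw [hS]
    exact (isOpen_lt (Complex.continuous_re.comp hAc).abs continuous_const).inter
      (isOpen_lt (Complex.continuous_im.comp hAc).abs continuous_const)
  have hAp : A p = 0 := by
    apply Complex.ext
    · rw [hA, affC_re]
      simp [cp]
    · rw [hA, affC_im]
      simp [cp]
  refine ⟨A.toOpenPartialHomeomorph.restrOpen S hSo, ⟨Set.mem_univ _, ?_⟩, hAp, ?_⟩
  · show |(A p).re| < ε ∧ |(A p).im| < ε
    rw [hAp]
    simpa using hε0
  · rintro z ⟨_, hz⟩
    have hz' : |(A z).re| < ε ∧ |(A z).im| < ε := hz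
    obtain ⟨hz1, hz2⟩ := hz'
    rw [abs_lt] at hz1 hz2
    have hzeq : z = p + ((A z).re : ℂ) * v + ((A z).im : ℂ) * w := affC_eq p v w h z
    have him : (A z).im = cp v (z - p) / cp v w := affC_im p v w h z
    have hre : (A z).re = cp (z - p) w / cp v w := affC_re p v w h z
    show (z ∈ segment ℝ a b ↔ (A z).im = 0) ∧ (z ∈ segment ℝ c d ↔ (A z).re = 0)
    generalize (A z).re = x at *
    generalize (A z).im = y at *
    constructor
    · constructor
      · intro h1
        have h2 := cp_segment h1
        have h3 := cp_segment hp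
        rw [him]
        have h4 : cp v (z - p) = 0 := by
          simp only [cp, Complex.sub_re, Complex.sub_im, hv] at h2 h3 ⊢
          linarith
        rw [h4, zero_div]
      · intro h1
        rw [h1] at hzeq
        refine mem_segment_of (x := s + x) (by linarith) (by linarith) ?_
        rw [← hv, hzeq, hs]
        push_cast
        ring
    · constructor
      · intro h1
        have h2 := cp_segment h1
        have h3 := cp_segment hp'
        rw [hre]
        have h4 : cp (z - p) w = 0 := by
          simp only [cp, Complex.sub_re, Complex.sub_im, hw] at h2 h3 ⊢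
          linarith
        rw [h4, zero_div]
      · intro h1
        rw [h1] at hzeq
        refine mem_segment_of (x := r + y) (by linarith) (by linarith) ?_
        rw [← hw, hzeq, hr]
        push_cast
        ring

/-- two lines which are not parallel have at most one common point -/
theorem lines_unique {v w p q a c : ℂ} (h : cp v w ≠ 0) (hp : cp v (p - a) = 0)
    (hq : cp v (q - a) = 0) (hp' : cp w (p - c) = 0) (hq' : cp w (q - c) = 0) : p = q := by
  have h1 : cp v (p - q) = 0 := by
    simp only [cp, Complex.sub_re, Complex.sub_im] at hp hq ⊢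
    linarith
  have h2 : cp w (p - q) = 0 := by
    simp only [cp, Complex.sub_re, Complex.sub_im] at hp' hq' ⊢
    linarith
  have h3 : cp v w * (p - q).re = 0 := by
    have : cp v w * (p - q).re = v.re * cp w (p - q) * (-1) + w.re * cp v (p - q) := by
      simp only [cp]
      ring
    rw [this, h1, h2]
    ring
  have h4 : cp v w * (p - q).im = 0 := by
    have : cp v w * (p - q).im = v.im * cp w (p - q) * (-1) + w.im * cp v (p - q) := by
      simp only [cp]
      ring
    rw [this, h1, h2]
    ring
  apply sub_eq_zero.1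
  apply Complex.ext
  · exact (mul_eq_zero.1 h3).resolve_left h
  · exact (mul_eq_zero.1 h4).resolve_left h

/-- the segments of two different edges which meet are not parallel -/
theorem nonpar {V : Type} {pos : V → ℂ}
    (hcol : ∀ a b c, a ≠ b → a ≠ c → b ≠ c → cp (pos b - pos a) (pos c - pos a) ≠ 0)
    {a b c d : V} (hab : a ≠ b) (hcd : c ≠ d) (hne : s(a, b) ≠ s(c, d)) {p : ℂ}
    (hp : p ∈ segment ℝ (pos a) (pos b)) (hp' : p ∈ segment ℝ (pos c) (pos d)) :
    cp (pos b - pos a) (pos d - pos c) ≠ 0 := by
  intro h0
  by_cases hac : a = c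
  · subst hac
    have hbd : b ≠ d := by
      rintro rfl
      exact hne rfl
    exact hcol a b d hab hcd hbd h0
  by_cases had : a = d
  · subst had
    have hbc : b ≠ c := by
      rintro rfl
      exact hne Sym2.eq_swap
    refine hcol a b c hab hac hbc ?_
    simp only [cp, Complex.sub_re, Complex.sub_im] at h0 ⊢
    linarith
  by_cases hbc : b = c
  · subst hbc
    refine hcol a b d hab had hcd ?_
    simp only [cp, Complex.sub_re, Complex.sub_im] at h0 ⊢
    linarith
  by_cases hbd : b = d
  · subst hbd
    refine hcol a b c hab hac hbc ?_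
    simp only [cp, Complex.sub_re, Complex.sub_im] at h0 ⊢
    linarith
  refine hcol a b c hab hac hbc ?_
  have h1 := cp_segment hp
  obtain ⟨r, s, _, _, hrs, rfl⟩ := hp'
  have hr : r = 1 - s := by linarith
  subst hr
  simp only [cp, Complex.sub_re, Complex.sub_im, Complex.add_re, Complex.add_im,
    Complex.real_smul, Complex.mul_re, Complex.mul_im, Complex.ofReal_re, Complex.ofReal_im] at h0 h1 ⊢
  linear_combination h1 - s * h0

theorem exists_drawing {V : Type} [Finite V] (G : SimpleGraph V) : Nonempty (Drawing G) := by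
  obtain ⟨pos, hinj, hcol, hconc⟩ := genPos V
  set arc : Sym2 V → Set ℂ := Sym2.lift ⟨fun a b => segment ℝ (pos a) (pos b),
    fun a b => segment_symm ℝ _ _⟩ with harc
  have harc' : ∀ a b, arc s(a, b) = segment ℝ (pos a) (pos b) := fun a b => rfl
  have hends : ∀ e ∈ G.edgeSet, ∃ a b, a ≠ b ∧ e = s(a, b) := by
    intro e he
    induction e using Sym2.ind with
    | _ a b => exact ⟨a, b, G.ne_of_adj he, rfl⟩
  -- two different edges meet in at most one point
  have huniq : ∀ a b c d : V, a ≠ b → c ≠ d → s(a, b) ≠ s(c, d) → ∀ p q : ℂ,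
      p ∈ segment ℝ (pos a) (pos b) → p ∈ segment ℝ (pos c) (pos d) →
      q ∈ segment ℝ (pos a) (pos b) → q ∈ segment ℝ (pos c) (pos d) → p = q := by
    intro a b c d hab hcd hne p q h1 h2 h3 h4
    exact lines_unique (nonpar hcol hab hcd hne h1 h2) (cp_segment h1) (cp_segment h3)
      (cp_segment h2) (cp_segment h4)
  -- edges with a common crossing have no common end point
  have hdis : ∀ a b c d : V, a ≠ b → c ≠ d → s(a, b) ≠ s(c, d) → ∀ p : ℂ,
      p ∈ segment ℝ (pos a) (pos b) → p ∈ segment ℝ (pos c) (pos d) → p ∉ range pos →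
      a ≠ c ∧ a ≠ d ∧ b ≠ c ∧ b ≠ d := by
    intro a b c d hab hcd hne p h1 h2 hp
    refine ⟨?_, ?_, ?_, ?_⟩
    · rintro rfl
      exact hp ⟨a, huniq a b a d hab hcd hne _ _ (left_mem_segment ℝ _ _) (left_mem_segment ℝ _ _)
        h1 h2⟩
    · rintro rfl
      exact hp ⟨a, huniq a b c a hab hcd hne _ _ (left_mem_segment ℝ _ _) (right_mem_segment ℝ _ _)
        h1 h2⟩
    · rintro rfl
      exact hp ⟨b, huniq a b b d hab hcd hne _ _ (right_mem_segment ℝ _ _) (left_mem_segment ℝ _ _)
        h1 h2⟩
    · rintro rfl
      exact hp ⟨b, huniq a b c b hab hcd hne _ _ (right_mem_segment ℝ _ _)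
        (right_mem_segment ℝ _ _) h1 h2⟩
  refine ⟨{ pos := pos
            arc := arc
            pos_inj := hinj
            isArc := ?_
            avoid := ?_
            inter_finite := ?_
            proper := ?_
            no_triple := ?_ }⟩
  · intro u v huv
    rw [harc']
    exact isArc_segment (fun h => huv.ne (hinj h))
  · intro u v w huv hw
    rw [harc'] at hw
    by_contra hcon
    push Not at hcon
    exact hcol u v w huv.ne hcon.1.symm hcon.2.symm (cp_segment hw)
  · intro e he f hf hef
    obtain ⟨a, b, hab, rfl⟩ := hends e he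
    obtain ⟨c, d, hcd, rfl⟩ := hends f hf
    rw [harc', harc']
    refine Set.Subsingleton.finite ?_
    rintro p ⟨h1, h2⟩ q ⟨h3, h4⟩
    exact huniq a b c d hab hcd hef p q h1 h2 h3 h4
  · intro e he f hf hef p hp hpp
    obtain ⟨a, b, hab, rfl⟩ := hends e he
    obtain ⟨c, d, hcd, rfl⟩ := hends f hf
    rw [harc', harc'] at hp ⊢
    refine cross_segment hp.1 hp.2 ?_ ?_ ?_ ?_ (nonpar hcol hab hcd hef hp.1 hp.2)
    · rintro rfl
      exact hpp ⟨a, rfl⟩
    · rintro rfl
      exact hpp ⟨b, rfl⟩
    · rintro rfl
      exact hpp ⟨c, rfl⟩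
    · rintro rfl
      exact hpp ⟨d, rfl⟩
  · intro e he f hf g hg hef heg hfg p hp hpg
    obtain ⟨a, b, hab, rfl⟩ := hends e he
    obtain ⟨c, d, hcd, rfl⟩ := hends f hf
    obtain ⟨x, y, hxy, rfl⟩ := hends g hg
    rw [harc', harc'] at hp
    rw [harc'] at hpg
    by_contra hpp
    obtain ⟨h1, h2, h3, h4⟩ := hdis a b c d hab hcd hef p hp.1 hp.2 hpp
    obtain ⟨h5, h6, h7, h8⟩ := hdis a b x y hab hxy heg p hp.1 hpg hpp
    obtain ⟨h9, h10, h11, h12⟩ := hdis c d x y hcd hxy hfg p hp.2 hpg hpp
    refine hconc a b c d x y ?_ p hp.1 hp.2 hpg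
    simp only [List.nodup_cons, List.mem_cons, List.not_mem_nil, or_false, not_or,
      List.nodup_nil, not_false_eq_true, and_true]
    exact ⟨⟨hab, h1, h2, h5, h6⟩, ⟨h3, h4, h7, h8⟩, ⟨hcd, h9, h10⟩, ⟨h11, h12⟩, hxy⟩

end H29.BP
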