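import Pool.Agent.H29.BP.Def

/-!
# [H29 BP LOC] elementary properties of arcs and proper crossings

Paper proofs: the crossing relation is symmetric (compose the chart with multiplication by `I`,
which exchanges `re = 0` and `im = 0`), local (restrict the chart to `φ.source ∩ U`,
`OpenPartialHomeomorph.restr`), and invariant under translations (compose with
`Homeomorph.addRight`). Arcs are compact, connected, symmetric (`t ↦ 1 - t`), invariant under
translations, and two arcs with one common point, which is an end point of both, form an arc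
(`t ↦ f (2 t)` for `t ≤ 1/2`, `g (2 t - 1)` for `t ≥ 1/2`).
-/

set_option autoImplicit false

open Set

namespace H29.BP

theorem CrossAt.symm {γ δ : Set ℂ} {p : ℂ} (h : CrossAt γ δ p) : CrossAt δ γ p := by
  obtain ⟨φ, h1, h2, h3⟩ := h
  refine ⟨φ.transHomeomorph (Homeomorph.mulLeft₀ Complex.I Complex.I_ne_zero), h1, ?_, ?_⟩
  · show Complex.I * φ p = 0
    rw [h2, mul_zero]
  · intro z hz
    have h4 := h3 z hz
    have h5 : (φ.transHomeomorph (Homeomorph.mulLeft₀ Complex.I Complex.I_ne_zero)) z =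
      Complex.I * φ z := rfl
    rw [h5, Complex.I_mul_im, Complex.I_mul_re, neg_eq_zero]
    exact ⟨h4.2, h4.1⟩

/-- proper crossing is a local property -/
theorem CrossAt.congr {γ δ γ' δ' : Set ℂ} {p : ℂ} (h : CrossAt γ δ p) (U : Set ℂ)
    (hU : IsOpen U) (hp : p ∈ U) (h1 : γ' ∩ U = γ ∩ U) (h2 : δ' ∩ U = δ ∩ U) :
    CrossAt γ' δ' p := by
  obtain ⟨φ, k1, k2, k3⟩ := h
  refine ⟨φ.restrOpen U hU, ⟨k1, hp⟩, k2, ?_⟩
  rintro z ⟨hz, hzU⟩
  have h3 : z ∈ γ' ↔ z ∈ γ := by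
    have h4 := Set.ext_iff.1 h1 z
    exact ⟨fun h => (h4.1 ⟨h, hzU⟩).1, fun h => (h4.2 ⟨h, hzU⟩).1⟩
  have h5 : z ∈ δ' ↔ z ∈ δ := by
    have h4 := Set.ext_iff.1 h2 z
    exact ⟨fun h => (h4.1 ⟨h, hzU⟩).1, fun h => (h4.2 ⟨h, hzU⟩).1⟩
  rw [h3, h5]
  exact k3 z hz

theorem CrossAt.translate {γ δ : Set ℂ} {p : ℂ} (h : CrossAt γ δ p) (c : ℂ) :
    CrossAt ((fun z => z + c) '' γ) ((fun z => z + c) '' δ) (p + c) := by
  obtain ⟨φ, k1, k2, k3⟩ := h
  have himg : ∀ (s : Set ℂ) (z : ℂ), z ∈ (fun z => z + c) '' s ↔ z - c ∈ s := by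
    intro s z
    constructor
    · rintro ⟨y, hy, rfl⟩
      simpa using hy
    · intro hz
      exact ⟨z - c, hz, by simp⟩
  refine ⟨(Homeomorph.subRight c).toOpenPartialHomeomorph.trans φ, ?_, ?_, ?_⟩
  · rw [OpenPartialHomeomorph.trans_source]
    refine ⟨Set.mem_univ _, ?_⟩
    show p + c - c ∈ φ.source
    rw [add_sub_cancel_right]
    exact k1
  · show φ (p + c - c) = 0
    rw [add_sub_cancel_right]
    exact k2
  · intro z hz
    rw [OpenPartialHomeomorph.trans_source] at hz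
    have hz' : z - c ∈ φ.source := hz.2
    rw [himg, himg]
    exact k3 (z - c) hz'

theorem IsArc.left_mem {a b : ℂ} {γ : Set ℂ} (h : IsArc a b γ) : a ∈ γ := by
  obtain ⟨f, _, _, h0, _, rfl⟩ := h
  exact ⟨0, ⟨le_rfl, zero_le_one⟩, h0⟩

theorem IsArc.right_mem {a b : ℂ} {γ : Set ℂ} (h : IsArc a b γ) : b ∈ γ := by
  obtain ⟨f, _, _, _, h1, rfl⟩ := h
  exact ⟨1, ⟨zero_le_one, le_rfl⟩, h1⟩

theorem IsArc.ne {a b : ℂ} {γ : Set ℂ} (h : IsArc a b γ) : a ≠ b := by
  obtain ⟨f, _, hi, h0, h1, _⟩ := h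
  intro hab
  rw [← h0, ← h1] at hab
  exact zero_ne_one (hi ⟨le_rfl, zero_le_one⟩ ⟨zero_le_one, le_rfl⟩ hab)

theorem IsArc.symm {a b : ℂ} {γ : Set ℂ} (h : IsArc a b γ) : IsArc b a γ := by
  obtain ⟨f, hc, hi, h0, h1, himg⟩ := h
  have hmap : MapsTo (fun t : ℝ => 1 - t) (Icc 0 1) (Icc 0 1) := by
    intro t ht
    exact ⟨by linarith [ht.2], by linarith [ht.1]⟩
  refine ⟨fun t => f (1 - t), ?_, ?_, ?_, ?_, ?_⟩
  · exact hc.comp (continuous_const.sub continuous_id).continuousOn hmap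
  · intro x hx y hy hxy
    have h2 := hi (hmap hx) (hmap hy) hxy
    simp only at h2
    linarith
  · simp [h1]
  · simp [h0]
  · rw [← himg]
    ext z
    constructor
    · rintro ⟨t, ht, rfl⟩
      exact ⟨1 - t, hmap ht, rfl⟩
    · rintro ⟨t, ht, rfl⟩
      exact ⟨1 - t, hmap ht, by simp⟩

theorem IsArc.isCompact {a b : ℂ} {γ : Set ℂ} (h : IsArc a b γ) : IsCompact γ := by
  obtain ⟨f, hc, _, _, _, rfl⟩ := h
  exact isCompact_Icc.image_of_continuousOn hc

theorem IsArc.translate {a b : ℂ} {γ : Set ℂ} (h : IsArc a b γ) (c : ℂ) :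
    IsArc (a + c) (b + c) ((fun z => z + c) '' γ) := by
  obtain ⟨f, hc, hi, h0, h1, rfl⟩ := h
  refine ⟨fun t => f t + c, hc.add continuousOn_const, ?_, by simp [h0], by simp [h1], ?_⟩
  · intro x hx y hy hxy
    exact hi hx hy (add_right_cancel hxy)
  · rw [Set.image_image]

/-- concatenation of two arcs -/
theorem IsArc.trans {a b c : ℂ} {γ δ : Set ℂ} (h1 : IsArc a b γ) (h2 : IsArc b c δ)
    (h : γ ∩ δ ⊆ {b}) : IsArc a c (γ ∪ δ) := by
  obtain ⟨f, hfc, hfi, hf0, hf1, rfl⟩ := h1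
  obtain ⟨g, hgc, hgi, hg0, hg1, rfl⟩ := h2
  set k : ℝ → ℂ := fun t => if t ≤ 1 / 2 then f (2 * t) else g (2 * t - 1) with hk
  have hkf : ∀ t ∈ Icc (0 : ℝ) (1 / 2), k t = f (2 * t) := by
    intro t ht
    rw [hk]
    exact if_pos ht.2
  have hkg : ∀ t ∈ Icc (1 / 2 : ℝ) 1, k t = g (2 * t - 1) := by
    intro t ht
    rcases ht.1.eq_or_lt with h2 | h2
    · rw [hk, ← h2]
      simp only [le_refl, if_true]
      norm_num [hf1, hg0]
    · rw [hk]
      exact if_neg (not_le.2 h2)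
  have hmf : MapsTo (fun t : ℝ => 2 * t) (Icc 0 (1 / 2)) (Icc 0 1) := by
    intro t ht
    exact ⟨by simp only; linarith [ht.1], by simp only; linarith [ht.2]⟩
  have hmg : MapsTo (fun t : ℝ => 2 * t - 1) (Icc (1 / 2) 1) (Icc 0 1) := by
    intro t ht
    exact ⟨by simp only; linarith [ht.1], by simp only; linarith [ht.2]⟩
  have hun : Icc (0 : ℝ) 1 = Icc 0 (1 / 2) ∪ Icc (1 / 2) 1 := by
    rw [Set.Icc_union_Icc_eq_Icc] <;> norm_num
  have h00 : (0 : ℝ) ∈ Icc (0 : ℝ) 1 := ⟨le_rfl, zero_le_one⟩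
  have h11 : (1 : ℝ) ∈ Icc (0 : ℝ) 1 := ⟨zero_le_one, le_rfl⟩
  have hcross : ∀ x ∈ Icc (0 : ℝ) (1 / 2), ∀ y ∈ Icc (1 / 2 : ℝ) 1, k x = k y → x = y := by
    intro x hx y hy hxy
    rw [hkf x hx, hkg y hy] at hxy
    have h3 : f (2 * x) ∈ f '' Icc 0 1 ∩ g '' Icc 0 1 :=
      ⟨⟨_, hmf hx, rfl⟩, ⟨_, hmg hy, hxy.symm⟩⟩
    have h4 := h h3
    rw [Set.mem_singleton_iff] at h4
    have h5 := hfi (hmf hx) h11 (h4.trans hf1.symm)
    rw [hxy] at h4
    have h6 := hgi (hmg hy) h00 (h4.trans hg0.symm)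
    simp only at h5 h6
    linarith
  refine ⟨k, ?_, ?_, ?_, ?_, ?_⟩
  · rw [hun]
    refine ContinuousOn.union_of_isClosed ?_ ?_ isClosed_Icc isClosed_Icc
    · refine ContinuousOn.congr ?_ hkf
      exact hfc.comp (continuous_const.mul continuous_id).continuousOn hmf
    · refine ContinuousOn.congr ?_ hkg
      exact hgc.comp ((continuous_const.mul continuous_id).sub continuous_const).continuousOn hmg
  · intro x hx y hy hxy
    rw [hun] at hx hy
    rcases hx with hx | hx <;> rcases hy with hy | hy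
    · rw [hkf x hx, hkf y hy] at hxy
      have h3 := hfi (hmf hx) (hmf hy) hxy
      simp only at h3
      linarith
    · exact hcross x hx y hy hxy
    · exact (hcross y hy x hx hxy.symm).symm
    · rw [hkg x hx, hkg y hy] at hxy
      have h3 := hgi (hmg hx) (hmg hy) hxy
      simp only at h3
      linarith
  · rw [hkf 0 ⟨le_rfl, by norm_num⟩, mul_zero, hf0]
  · rw [hkg 1 ⟨by norm_num, le_rfl⟩]
    norm_num [hg1]
  · have i0 : k '' Icc 0 1 = k '' Icc 0 (1 / 2) ∪ k '' Icc (1 / 2) 1 := by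
      rw [← Set.image_union, ← hun]
    rw [i0]
    congr 1
    · ext z
      constructor
      · rintro ⟨x, hx, rfl⟩
        rw [hkf x hx]
        exact ⟨_, hmf hx, rfl⟩
      · rintro ⟨x, hx, rfl⟩
        have hx' : x / 2 ∈ Icc (0 : ℝ) (1 / 2) := ⟨by linarith [hx.1], by linarith [hx.2]⟩
        refine ⟨x / 2, hx', ?_⟩
        rw [hkf _ hx']
        congr 1
        ring
    · ext z
      constructor
      · rintro ⟨x, hx, rfl⟩
        rw [hkg x hx]
        exact ⟨_, hmg hx, rfl⟩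
      · rintro ⟨x, hx, rfl⟩
        have hx' : (x + 1) / 2 ∈ Icc (1 / 2 : ℝ) 1 := ⟨by linarith [hx.1], by linarith [hx.2]⟩
        refine ⟨(x + 1) / 2, hx', ?_⟩
        rw [hkg _ hx']
        congr 1
        ring

/-- sub-arcs of a parametrised arc -/
theorem isArc_sub {f : ℝ → ℂ} (hc : ContinuousOn f (Icc 0 1)) (hi : InjOn f (Icc 0 1)) {s t : ℝ}
    (hs : 0 ≤ s) (hst : s < t) (ht : t ≤ 1) : IsArc (f s) (f t) (f '' Icc s t) := by
  have hmap : MapsTo (fun u : ℝ => s + u * (t - s)) (Icc 0 1) (Icc s t) := by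
    intro u hu
    refine ⟨?_, ?_⟩
    · simp only
      nlinarith [hu.1]
    · simp only
      nlinarith [hu.2]
  have hsub : Icc s t ⊆ Icc (0 : ℝ) 1 := Icc_subset_Icc hs ht
  refine ⟨fun u => f (s + u * (t - s)), ?_, ?_, by simp, by simp, ?_⟩
  · exact hc.comp (continuous_const.add (continuous_id.mul continuous_const)).continuousOn
      (fun u hu => hsub (hmap hu))
  · intro x hx y hy hxy
    have h3 := hi (hsub (hmap hx)) (hsub (hmap hy)) hxy
    simp only [add_right_inj] at h3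
    exact mul_right_cancel₀ (sub_ne_zero.2 hst.ne') h3
  · ext z
    constructor
    · rintro ⟨x, hx, rfl⟩
      exact ⟨_, hmap hx, rfl⟩
    · rintro ⟨x, hx, rfl⟩
      have hd : 0 < t - s := by linarith
      refine ⟨(x - s) / (t - s), ⟨div_nonneg (by linarith [hx.1]) hd.le, ?_⟩, ?_⟩
      · rw [div_le_one hd]
        linarith [hx.2]
      · simp only
        congr 1
        rw [div_mul_cancel₀ _ hd.ne']
        ring

/-- segments are arcs -/
theorem isArc_segment {a b : ℂ} (h : a ≠ b) : IsArc a b (segment ℝ a b) := by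
  refine ⟨fun t => AffineMap.lineMap a b t, ?_, ?_, by simp, by simp, ?_⟩
  · exact AffineMap.lineMap_continuous.continuousOn
  · intro x _ y _ hxy
    simp only [AffineMap.lineMap_apply, vsub_eq_sub, vadd_eq_add, add_left_inj] at hxy
    have h1 : ((x : ℂ) - y) * (b - a) = 0 := by
      have h2 : (x : ℂ) * (b - a) = y * (b - a) := by
        simpa [Complex.real_smul] using hxy
      rw [sub_mul, h2, sub_self]
    rcases mul_eq_zero.1 h1 with h2 | h2
    · exact_mod_cast sub_eq_zero.1 h2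
    · exact absurd (sub_eq_zero.1 h2).symm h
  · rw [segment_eq_image_lineMap]

end H29.BP
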