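import Pool.Agent.H29.BP.OcG

/-!
# [H29 BP OCA] graphs with a homomorphism to an odd cycle: the average over the bits

Paper proofs. `sum_update`: `a ↦ (Function.update a x true, Function.update a x false)`; every
`a` occurs once among the `update a x b` with ... : the map `(a, b) ↦ update a x b` from
`(V → Bool) × Bool` is two-to-one (split the sum over `b` and use the involution
`a ↦ update a x (! a x)`).

`oca`: for an edge `e = s(x, y)` of `G` the piece `pc e` depends only on `a x`, `a y`. If no end
point is special, each of the four pieces `(1,0), (1,1), (2,0), (2,1)` occurs for exactly one of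
the four values of `(a x, a y)` (equal bits `t`: `(1, t)`; different bits: `(2, t)`, `t` the bit of
the end point of even position; the parities of the positions are different). If an end point is
special, the pieces `(1,0)` and `(2,0)` occur twice each (exactly one special end point: the other
one, `y`, has odd position `1` or `m - 2`; `a y = false` gives `(1,0)`, `a y = true` gives `(2,0)`;
both special: equal bits `(1,0)`, different bits `(2,0)`). So for disjoint edges `e`, `f` the
number of the 16 values of the four bits with `pc e = pc f` is `4` if one of them has no special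
end point, and `8` otherwise. By `sum_update` for the four vertices the number of all
`a : V → Bool` with `pc e = pc f` is `1/4` resp. `1/2` of `2 ^ #V`.
-/

set_option autoImplicit false

open Set
open scoped Classical

noncomputable section

namespace H29.BP

theorem sum_update {V : Type} [Fintype V] (x : V) (g : (V → Bool) → ℝ) :
    ∑ a : V → Bool, ∑ b : Bool, g (Function.update a x b) = 2 * ∑ a : V → Bool, g a := by
  have h1 : ∀ a : V → Bool, ∑ b : Bool, g (Function.update a x b) =
      g a + g (Function.update a x (! a x)) := by
    intro a
    rw [Fintype.sum_bool]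
    cases hax : a x
    · have h2 : Function.update a x false = a := by
        rw [← hax]
        exact Function.update_eq_self x a
      rw [h2, Bool.not_false]
      ring
    · have h2 : Function.update a x true = a := by
        rw [← hax]
        exact Function.update_eq_self x a
      rw [h2, Bool.not_true]
  rw [Finset.sum_congr rfl fun a _ => h1 a, Finset.sum_add_distrib, two_mul]
  congr 1
  refine Finset.sum_nbij' (fun a => Function.update a x (! a x))
    (fun a => Function.update a x (! a x)) (fun _ _ => Finset.mem_univ _)
    (fun _ _ => Finset.mem_univ _) ?_ ?_ (fun _ _ => rfl)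
  · intro a _
    simp
  · intro a _
    simp

/-- the piece of an edge as a function of Booleans -/
def PB (sx sy ex ey bx cy : Bool) : ℕ × ℕ :=
  if (if sx && sy then bx == cy else
      (if sx then 0 else if bx then 1 else 0) == (if sy then 0 else if cy then 1 else 0)) then
    (1, max (if sx then 0 else if bx then 1 else 0) (if sy then 0 else if cy then 1 else 0))
  else (2, max (if sx then 0 else if ex then (if bx then 1 else 0) else (if bx then 0 else 1))
    (if sy then 0 else if ey then (if cy then 1 else 0) else (if cy then 0 else 1)))

def cntB (sx sy ex ey sz sw ez ew : Bool) : ℕ :=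
  ∑ b1 : Bool, ∑ b2 : Bool, ∑ b3 : Bool, ∑ b4 : Bool,
    if PB sx sy ex ey b1 b2 = PB sz sw ez ew b3 b4 then 1 else 0

theorem cntB_le : ∀ sx sy ex ey sz sw ez ew : Bool, CB sx sy ex ey = true →
    CB sz sw ez ew = true → cntB sx sy ex ey sz sw ez ew ≤
      4 + if (sx || sy) && (sz || sw) then 4 else 0 := by
  decide +kernel

theorem pc_eq_PB {V : Type} {m : ℕ} (h : V → ZMod m) (i : ZMod m) (a : V → Bool) (x y : V) :
    pc h i a s(x, y) = PB (decide (sp h i x)) (decide (sp h i y)) (decide (Even (ps h i x)))
      (decide (Even (ps h i y))) (a x) (a y) := by
  have h0 : pc h i a s(x, y) = if first h i a x y then (1, max (c1 h i a x) (c1 h i a y))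
    else (2, max (c2 h i a x) (c2 h i a y)) := rfl
  rw [h0]
  unfold PB first c1 c2
  by_cases hx : sp h i x <;> by_cases hy : sp h i y <;> by_cases kx : Even (ps h i x) <;>
    by_cases ky : Even (ps h i y) <;> cases a x <;> cases a y <;> simp [hx, hy, kx, ky]

theorem oca {V : Type} [Fintype V] {G : SimpleGraph V} {m : ℕ} (hm : Odd m) (hm3 : 3 ≤ m)
    (h : V → ZMod m) (hh : ∀ u v, G.Adj u v → h v = h u + 1 ∨ h u = h v + 1) (i : ZMod m)
    (e f : Sym2 V) (he : e ∈ G.edgeSet) (hf : f ∈ G.edgeSet) (hef : ∀ v, v ∈ e → v ∉ f) :
    ∑ a : V → Bool, (if pc h i a e = pc h i a f then (1 : ℝ) else 0) ≤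
      (1 / 4 + if (∃ u ∈ e, sp h i u) ∧ (∃ u ∈ f, sp h i u) then 1 / 4 else 0) *
        Fintype.card (V → Bool) := by
  induction e using Sym2.ind with
  | _ x y =>
    induction f using Sym2.ind with
    | _ z w =>
      rw [SimpleGraph.mem_edgeSet] at he hf
      have hxy : x ≠ y := he.ne
      have hzw : z ≠ w := hf.ne
      have hxz : x ≠ z := by
        rintro rfl
        exact hef x (by simp) (by simp)
      have hxw : x ≠ w := by
        rintro rfl
        exact hef x (by simp) (by simp)
      have hyz : y ≠ z := by
        rintro rfl
        exact hef y (by simp) (by simp)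
      have hyw : y ≠ w := by
        rintro rfl
        exact hef y (by simp) (by simp)
      set g : (V → Bool) → ℝ := fun a =>
        if pc h i a s(x, y) = pc h i a s(z, w) then (1 : ℝ) else 0 with hg
      set g4 : (V → Bool) → ℝ := fun a => ∑ b : Bool, g (Function.update a w b) with hg4
      set g3 : (V → Bool) → ℝ := fun a => ∑ b : Bool, g4 (Function.update a z b) with hg3
      set g2 : (V → Bool) → ℝ := fun a => ∑ b : Bool, g3 (Function.update a y b) with hg2
      have e4 : ∑ a : V → Bool, g4 a = 2 * ∑ a : V → Bool, g a := sum_update w g
      have e3 : ∑ a : V → Bool, g3 a = 2 * ∑ a : V → Bool, g4 a := sum_update z g4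
      have e2 : ∑ a : V → Bool, g2 a = 2 * ∑ a : V → Bool, g3 a := sum_update y g3
      have e1 : ∑ a : V → Bool, ∑ b : Bool, g2 (Function.update a x b) =
          2 * ∑ a : V → Bool, g2 a := sum_update x g2
      have hval : ∀ a : V → Bool, ∑ b : Bool, g2 (Function.update a x b) =
          (cntB (decide (sp h i x)) (decide (sp h i y)) (decide (Even (ps h i x)))
            (decide (Even (ps h i y))) (decide (sp h i z)) (decide (sp h i w))
            (decide (Even (ps h i z))) (decide (Even (ps h i w))) : ℕ) := by
        intro a
        unfold cntB
        push_cast
        refine Finset.sum_congr rfl fun b1 _ => ?_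
        rw [hg2]
        refine Finset.sum_congr rfl fun b2 _ => ?_
        rw [hg3]
        refine Finset.sum_congr rfl fun b3 _ => ?_
        rw [hg4]
        refine Finset.sum_congr rfl fun b4 _ => ?_
        rw [hg]
        simp only
        rw [pc_eq_PB, pc_eq_PB]
        have v1 : Function.update (Function.update (Function.update (Function.update a x b1) y b2)
            z b3) w b4 x = b1 := by
          rw [Function.update_of_ne hxw, Function.update_of_ne hxz, Function.update_of_ne hxy,
            Function.update_self]
        have v2 : Function.update (Function.update (Function.update (Function.update a x b1) y b2)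
            z b3) w b4 y = b2 := by
          rw [Function.update_of_ne hyw, Function.update_of_ne hyz, Function.update_self]
        have v3 : Function.update (Function.update (Function.update (Function.update a x b1) y b2)
            z b3) w b4 z = b3 := by
          rw [Function.update_of_ne hzw, Function.update_self]
        have v4 : Function.update (Function.update (Function.update (Function.update a x b1) y b2)
            z b3) w b4 w = b4 := by
          rw [Function.update_self]
        rw [v1, v2, v3, v4]
      have hcnt := cntB_le (decide (sp h i x)) (decide (sp h i y)) (decide (Even (ps h i x)))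
            (decide (Even (ps h i y))) (decide (sp h i z)) (decide (sp h i w))
            (decide (Even (ps h i z))) (decide (Even (ps h i w)))
            (CB_edge hm hm3 h i (hh x y he)) (CB_edge hm hm3 h i (hh z w hf))
      have hsum : 16 * ∑ a : V → Bool, g a =
          (Fintype.card (V → Bool) : ℝ) *
          (cntB (decide (sp h i x)) (decide (sp h i y)) (decide (Even (ps h i x)))
            (decide (Even (ps h i y))) (decide (sp h i z)) (decide (sp h i w))
            (decide (Even (ps h i z))) (decide (Even (ps h i w))) : ℕ) := by
        rw [Finset.sum_congr rfl fun a _ => hval a, Finset.sum_const, nsmul_eq_mul,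
          Finset.card_univ] at e1
        linarith
      have hex : ∀ u v : V, (∃ t ∈ s(u, v), sp h i t) ↔ (sp h i u ∨ sp h i v) := by
        intro u v
        constructor
        · rintro ⟨t, ht, h1⟩
          rw [Sym2.mem_iff] at ht
          rcases ht with rfl | rfl
          · exact Or.inl h1
          · exact Or.inr h1
        · rintro (h1 | h1)
          · exact ⟨u, by simp, h1⟩
          · exact ⟨v, by simp, h1⟩
      have hN : (0 : ℝ) ≤ (Fintype.card (V → Bool) : ℝ) := Nat.cast_nonneg _
      have hex2 : ((∃ u ∈ s(x, y), sp h i u) ∧ ∃ u ∈ s(z, w), sp h i u) ↔
          ((sp h i x ∨ sp h i y) ∧ (sp h i z ∨ sp h i w)) := by rw [hex, hex]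
      rw [if_congr hex2 rfl rfl]
      by_cases hc : (sp h i x ∨ sp h i y) ∧ (sp h i z ∨ sp h i w)
      · have hc' : ((decide (sp h i x) || decide (sp h i y)) &&
            (decide (sp h i z) || decide (sp h i w))) = true := by
          simpa using hc
        rw [if_pos hc]
        rw [if_pos hc'] at hcnt
        have h8 : ((cntB (decide (sp h i x)) (decide (sp h i y)) (decide (Even (ps h i x)))
            (decide (Even (ps h i y))) (decide (sp h i z)) (decide (sp h i w))
            (decide (Even (ps h i z))) (decide (Even (ps h i w))) : ℕ) : ℝ) ≤ 8 := by
          exact_mod_cast hcnt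
        nlinarith [mul_le_mul_of_nonneg_left h8 hN]
      · have hc' : ¬ ((decide (sp h i x) || decide (sp h i y)) &&
            (decide (sp h i z) || decide (sp h i w))) = true := by
          simpa using hc
        rw [if_neg hc]
        rw [if_neg hc'] at hcnt
        have h8 : ((cntB (decide (sp h i x)) (decide (sp h i y)) (decide (Even (ps h i x)))
            (decide (Even (ps h i y))) (decide (sp h i z)) (decide (sp h i w))
            (decide (Even (ps h i z))) (decide (Even (ps h i w))) : ℕ) : ℝ) ≤ 4 := by
          exact_mod_cast hcnt
        nlinarith [mul_le_mul_of_nonneg_left h8 hN]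

end H29.BP
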