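import Pool.Agent.H29.BP.OcA

/-!
# [H29 BP OCF] graphs with a homomorphism to an odd cycle: the final theorem

Paper proofs. `card_sp`: let `e = s(x, y)`, `h y = h x + 1` without loss of generality. A vertex
`v` is special for `i` iff `h v - i = 0` or `h v - i = -1`, so `i ∈ {h v, h v + 1}`; for the two end
points together `i ∈ {h x, h x + 1, h x + 2}`.

`oc`: take an optimal drawing `D` (`exists_opt`), average `oc_bound` over all `a : V → Bool` and all
`i : ZMod m`; only pairs `e, f` with `D.x e f ≠ 0` matter, they are disjoint (`opt_x`). By `oca` and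
`card_sp` the average of the indicator of `pc e = pc f` is at most `1/4 + (1/4) (3/m)`, and
`∑ ∑ D.x e f = 2 CR G` (`two_mul_cr`).
-/

set_option autoImplicit false

open Set
open scoped Classical

noncomputable section

namespace H29.BP

variable {V : Type} {G : SimpleGraph V} {m : ℕ}

theorem sp_iff [NeZero m] (h : V → ZMod m) (hm3 : 3 ≤ m) (i : ZMod m) (v : V) (hs : sp h i v) :
    i = h v ∨ i = h v + 1 := by
  rcases hs with h1 | h1
  · left
    unfold ps at h1
    rw [ZMod.val_eq_zero] at h1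
    exact (sub_eq_zero.1 h1).symm
  · right
    unfold ps at h1
    have h2 : ((h v - i).val : ZMod m) = h v - i := ZMod.natCast_zmod_val _
    rw [h1, Nat.cast_sub (by omega), ZMod.natCast_self, Nat.cast_one, zero_sub] at h2
    linear_combination h2

theorem card_sp_aux [NeZero m] (h : V → ZMod m) (hm3 : 3 ≤ m) {x y : V} (hxy : h y = h x + 1) :
    ((Finset.univ : Finset (ZMod m)).filter fun i => ∃ u ∈ s(x, y), sp h i u).card ≤ 3 := by
  have h1 : ((Finset.univ : Finset (ZMod m)).filter fun i => ∃ u ∈ s(x, y), sp h i u) ⊆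
      {h x, h x + 1, h x + 2} := by
    intro i hi
    obtain ⟨u, hu, hs⟩ := (Finset.mem_filter.1 hi).2
    rw [Sym2.mem_iff] at hu
    simp only [Finset.mem_insert, Finset.mem_singleton]
    rcases hu with rfl | rfl
    · rcases sp_iff h hm3 i _ hs with h2 | h2
      · exact Or.inl h2
      · exact Or.inr (Or.inl h2)
    · rcases sp_iff h hm3 i _ hs with h2 | h2
      · exact Or.inr (Or.inl (h2.trans hxy))
      · refine Or.inr (Or.inr ?_)
        rw [h2, hxy]
        ring
  exact (Finset.card_le_card h1).trans Finset.card_le_three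

theorem card_sp [NeZero m] (h : V → ZMod m) (hm3 : 3 ≤ m)
    (hh : ∀ u v, G.Adj u v → h v = h u + 1 ∨ h u = h v + 1) (e : Sym2 V) (he : e ∈ G.edgeSet) :
    ((Finset.univ : Finset (ZMod m)).filter fun i => ∃ u ∈ e, sp h i u).card ≤ 3 := by
  induction e using Sym2.ind with
  | _ x y =>
    rw [SimpleGraph.mem_edgeSet] at he
    rcases hh x y he with h1 | h1
    · exact card_sp_aux h hm3 h1
    · have h2 := card_sp_aux h hm3 h1
      rw [Sym2.eq_swap]
      exact h2

theorem oc [Finite V] (hm : Odd m) (hm3 : 3 ≤ m) (h : V → ZMod m)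
    (hh : ∀ u v, G.Adj u v → h v = h u + 1 ∨ h u = h v + 1) :
    (CR2 G : ℝ) ≤ (1 / 4 + 3 / (4 * (m : ℝ))) * CR G := by
  obtain ⟨D, hD⟩ := exists_opt G
  cases nonempty_fintype V
  have : NeZero m := ⟨by omega⟩
  set N : ℝ := (Fintype.card (V → Bool) : ℝ) with hN
  have hN0 : 0 < N := by
    rw [hN]
    exact_mod_cast Fintype.card_pos
  have hm0 : (0 : ℝ) < m := by
    have : 0 < m := by omega
    exact_mod_cast this
  -- the sum of the upper bounds
  have h1 : (m : ℝ) * N * (2 * (CR2 G : ℝ)) ≤ ∑ i : ZMod m, ∑ a : V → Bool,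
      ∑ e ∈ ES G, ∑ f ∈ ES G, (D.x e f : ℝ) * (if pc h i a e = pc h i a f then 1 else 0) := by
    have h2 : ∀ i : ZMod m, ∀ a : V → Bool, (2 * (CR2 G : ℝ)) ≤
        ∑ e ∈ ES G, ∑ f ∈ ES G, (D.x e f : ℝ) * (if pc h i a e = pc h i a f then 1 else 0) := by
      intro i a
      have h3 := oc_bound hm hm3 h hh i a D
      have h4 : (2 * (CR2 G : ℝ)) ≤
          ((∑ e ∈ ES G, ∑ f ∈ ES G, if pc h i a e = pc h i a f then D.x e f else 0 : ℕ) : ℝ) := by
        exact_mod_cast h3
      refine h4.trans (le_of_eq ?_)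
      push_cast
      refine Finset.sum_congr rfl fun e _ => Finset.sum_congr rfl fun f _ => ?_
      rw [mul_ite, mul_one, mul_zero]
    have h5 : ∀ i : ZMod m, N * (2 * (CR2 G : ℝ)) ≤ ∑ a : V → Bool,
        ∑ e ∈ ES G, ∑ f ∈ ES G,
          (D.x e f : ℝ) * (if pc h i a e = pc h i a f then 1 else 0) := by
      intro i
      have h6 := Finset.card_nsmul_le_sum (Finset.univ : Finset (V → Bool)) _ _
        (fun a _ => h2 i a)
      rw [nsmul_eq_mul, Finset.card_univ] at h6
      exact h6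
    have h7 := Finset.card_nsmul_le_sum (Finset.univ : Finset (ZMod m)) _ _
        (fun i _ => h5 i)
    rw [nsmul_eq_mul, Finset.card_univ, ZMod.card] at h7
    rw [mul_assoc]
    exact h7
  have h8 : ∑ i : ZMod m, ∑ a : V → Bool,
      ∑ e ∈ ES G, ∑ f ∈ ES G, (D.x e f : ℝ) * (if pc h i a e = pc h i a f then 1 else 0) =
      ∑ e ∈ ES G, ∑ f ∈ ES G, (D.x e f : ℝ) *
        ∑ i : ZMod m, ∑ a : V → Bool, (if pc h i a e = pc h i a f then 1 else 0) := by
    have h9 : ∀ i : ZMod m, ∑ a : V → Bool, ∑ e ∈ ES G, ∑ f ∈ ES G,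
        (D.x e f : ℝ) * (if pc h i a e = pc h i a f then 1 else 0) =
        ∑ e ∈ ES G, ∑ f ∈ ES G, ∑ a : V → Bool,
          (D.x e f : ℝ) * (if pc h i a e = pc h i a f then 1 else 0) := by
      intro i
      rw [Finset.sum_comm]
      refine Finset.sum_congr rfl fun e _ => ?_
      rw [Finset.sum_comm]
    rw [Finset.sum_congr rfl fun i _ => h9 i, Finset.sum_comm]
    refine Finset.sum_congr rfl fun e _ => ?_
    rw [Finset.sum_comm]
    refine Finset.sum_congr rfl fun f _ => ?_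
    rw [Finset.mul_sum]
    refine Finset.sum_congr rfl fun i _ => ?_
    rw [Finset.mul_sum]
  have h10 : ∑ e ∈ ES G, ∑ f ∈ ES G, (D.x e f : ℝ) *
        ∑ i : ZMod m, ∑ a : V → Bool, (if pc h i a e = pc h i a f then 1 else 0) ≤
      ∑ e ∈ ES G, ∑ f ∈ ES G, (D.x e f : ℝ) * (((m : ℝ) / 4 + 3 / 4) * N) := by
    refine Finset.sum_le_sum fun e he => Finset.sum_le_sum fun f hf => ?_
    by_cases hx : D.x e f = 0
    · rw [hx]
      simp
    · refine mul_le_mul_of_nonneg_left ?_ (Nat.cast_nonneg _)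
      have hef : ∀ v, v ∈ e → v ∉ f := fun v hv hv' => hx (opt_x D hD he hf hv hv')
      have h11 : ∀ i : ZMod m, ∑ a : V → Bool, (if pc h i a e = pc h i a f then (1 : ℝ) else 0) ≤
          (1 / 4 + if ∃ u ∈ e, sp h i u then 1 / 4 else 0) * N := by
        intro i
        refine (oca hm hm3 h hh i e f (mem_ES.1 he) (mem_ES.1 hf) hef).trans ?_
        refine mul_le_mul_of_nonneg_right ?_ hN0.le
        by_cases h12 : ∃ u ∈ e, sp h i u
        · rw [if_pos h12]
          split_ifs <;> norm_num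
        · rw [if_neg h12, if_neg (fun h13 => h12 h13.1)]
      refine (Finset.sum_le_sum fun i _ => h11 i).trans ?_
      rw [← Finset.sum_mul]
      refine mul_le_mul_of_nonneg_right ?_ hN0.le
      rw [Finset.sum_add_distrib, Finset.sum_const, nsmul_eq_mul, Finset.card_univ, ZMod.card,
        ← Finset.sum_filter, Finset.sum_const, nsmul_eq_mul]
      have h14 := card_sp h hm3 hh e (mem_ES.1 he)
      have h15 : ((((Finset.univ : Finset (ZMod m)).filter fun i => ∃ u ∈ e, sp h i u).card : ℕ)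
          : ℝ) ≤ 3 := by
        have h14' : ((Finset.univ : Finset (ZMod m)).filter fun i => ∃ u ∈ e, sp h i u).card ≤ 3 := by
          convert h14
        exact_mod_cast h14'
      linarith
  have h16 : ∑ e ∈ ES G, ∑ f ∈ ES G, (D.x e f : ℝ) * (((m : ℝ) / 4 + 3 / 4) * N) =
      2 * (CR G : ℝ) * (((m : ℝ) / 4 + 3 / 4) * N) := by
    have h17 : (2 * (CR G : ℝ)) = ∑ e ∈ ES G, ∑ f ∈ ES G, (D.x e f : ℝ) := by
      have h18 := D.two_mul_cr
      rw [hD] at h18
      exact_mod_cast h18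
    rw [h17, Finset.sum_mul]
    refine Finset.sum_congr rfl fun e _ => ?_
    rw [Finset.sum_mul]
  rw [h8] at h1
  have h19 := (h1.trans h10).trans (le_of_eq h16)
  have h20 : (m : ℝ) * (CR2 G : ℝ) ≤ ((m : ℝ) / 4 + 3 / 4) * CR G := by
    have h21 : (2 * N) * ((m : ℝ) * (CR2 G : ℝ)) ≤
        (2 * N) * (((m : ℝ) / 4 + 3 / 4) * CR G) := by
      linarith
    exact le_of_mul_le_mul_left h21 (by positivity)
  have h22 : (1 / 4 + 3 / (4 * (m : ℝ))) * (CR G : ℝ) =
      (((m : ℝ) / 4 + 3 / 4) * CR G) / m := by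
    field_simp
  rw [h22, le_div_iff₀ hm0]
  linarith

/-- graphs with a homomorphism to the odd cycle of length `m` -/
theorem oc_hom [Finite V] (hm : Odd m) (hm3 : 3 ≤ m)
    (h : Nonempty (G →g SimpleGraph.cycleGraph m)) :
    (CR2 G : ℝ) ≤ (1 / 4 + 3 / (4 * (m : ℝ))) * CR G := by
  obtain ⟨φ⟩ := h
  obtain ⟨n, rfl⟩ : ∃ n, m = n + 2 := ⟨m - 2, by omega⟩
  refine oc hm hm3 (fun v => (φ v : Fin (n + 2))) ?_
  intro u v huv
  have h1 := φ.map_adj huv
  rw [SimpleGraph.cycleGraph_adj] at h1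
  rcases h1 with h1 | h1
  · right
    have h2 : (φ u : Fin (n + 2)) = φ v + 1 := (sub_eq_iff_eq_add'.1 h1)
    exact h2
  · left
    have h2 : (φ v : Fin (n + 2)) = φ u + 1 := (sub_eq_iff_eq_add'.1 h1)
    exact h2

end H29.BP
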