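import Pool.Agent.H29.BP.Opt

/-!
# [H29 BP OCG] graphs with a homomorphism to an odd cycle: the planes and the classes

`m` is odd, `h : V → ZMod m` changes by `1` along every edge. For a rotation `i : ZMod m` the
position of a vertex is `ps v = (h v - i).val ∈ {0, …, m - 1}`; the vertices of the positions `0`
and `m - 1` are special. `a : V → Bool` are the random bits. Labels: `c1 = c2 = 0` for special
vertices; for other vertices `c1 v = a v`, and `c2 v = a v` for even, `1 - a v` for odd positions.
An edge with two special end points is in the first plane iff its bits agree; every other edge iff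
its labels `c1` agree. `pc` is the piece of the edge (plane, class).

Paper proof of `oc_bound`: `CR2_le` with `G₁.Adj u v ↔ G.Adj u v ∧ first u v`, `G₂` the other edges,
`c₁ = c1`, `c₂ = c2`. `h1`: clear (both special: `c1 = 0`). `h2`: both special: `c2 = 0`. One special
(say `u`): `v` has position `1` or `m - 2` (odd, as `m` is odd), `c1 v ≠ c1 u = 0`, so `a v = true` and
`c2 v = 1 - 1 = 0`. No one special: the positions are in `{1, …, m - 2}` and differ by one, so they
have different parity, and `a u ≠ a v` gives `c2 u = c2 v`. For edges `e, f` of `G₁` (of `G₂`) the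
classes agree (`SameCl`) iff `pc e = pc f`. The sums over `ES G₁` and `ES G₂` together are at most the
sum over `ES G` of `x e f` for `pc e = pc f`.
-/

set_option autoImplicit false

open Set
open scoped Classical

noncomputable section

namespace H29.BP

section

variable {V : Type} {m : ℕ} (h : V → ZMod m) (i : ZMod m) (a : V → Bool)

/-- the position of a vertex -/
def ps (v : V) : ℕ := (h v - i).val

/-- special vertices -/
def sp (v : V) : Prop := ps h i v = 0 ∨ ps h i v = m - 1

/-- label in the first plane -/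
def c1 (v : V) : ℕ := if sp h i v then 0 else if a v then 1 else 0

/-- label in the second plane -/
def c2 (v : V) : ℕ :=
  if sp h i v then 0 else if Even (ps h i v) then (if a v then 1 else 0)
  else (if a v then 0 else 1)

/-- the edge `uv` is drawn in the first plane -/
def first (u v : V) : Prop :=
  if sp h i u ∧ sp h i v then a u = a v else c1 h i a u = c1 h i a v

/-- the piece of an edge: plane and class -/
def pc (e : Sym2 V) : ℕ × ℕ :=
  Sym2.lift ⟨fun u v => if first h i a u v then (1, max (c1 h i a u) (c1 h i a v))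
    else (2, max (c2 h i a u) (c2 h i a v)), by
      intro u v
      have h1 : first h i a u v ↔ first h i a v u := by
        unfold first
        simp only [and_comm, eq_comm]
      simp only [h1, max_comm]⟩ e

end

/-- the possible types of edges -/
def CB (sx sy ex ey : Bool) : Bool :=
  (sx && sy) || (sx && !sy && !ey) || (!sx && sy && !ex) || (!sx && !sy && (ex != ey))

theorem ps_succ {V : Type} {m : ℕ} (hm3 : 3 ≤ m) (h : V → ZMod m) (i : ZMod m) {x y : V}
    (hxy : h y = h x + 1) :
    ps h i y = ps h i x + 1 ∨ (ps h i x = m - 1 ∧ ps h i y = 0) := by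
  have : NeZero m := ⟨by omega⟩
  have h1 : h y - i = (h x - i) + 1 := by rw [hxy]; ring
  have h2 : ps h i y = (ps h i x + 1) % m := by
    unfold ps
    rw [h1, ZMod.val_add, ZMod.val_one_eq_one_mod, Nat.add_mod_mod]
  have h3 : ps h i x < m := ZMod.val_lt _
  by_cases h4 : ps h i x = m - 1
  · right
    refine ⟨h4, ?_⟩
    rw [h2, h4, Nat.sub_add_cancel (by omega), Nat.mod_self]
  · left
    rw [h2, Nat.mod_eq_of_lt (by omega)]

theorem CB_edge_aux {V : Type} {m : ℕ} (hm : Odd m) (hm3 : 3 ≤ m) (h : V → ZMod m) (i : ZMod m)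
    {x y : V} (hxy : h y = h x + 1) :
    CB (decide (sp h i x)) (decide (sp h i y)) (decide (Even (ps h i x)))
      (decide (Even (ps h i y))) = true ∧
    CB (decide (sp h i y)) (decide (sp h i x)) (decide (Even (ps h i y)))
      (decide (Even (ps h i x))) = true := by
  have : NeZero m := ⟨by omega⟩
  have h3 : ps h i x < m := ZMod.val_lt _
  have h3' : ps h i y < m := ZMod.val_lt _
  obtain ⟨k, hk⟩ := hm
  rcases ps_succ hm3 h i hxy with h1 | ⟨h1, h2⟩
  · by_cases hx : sp h i x
    · have hx' : ps h i x = 0 := by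
        rcases hx with h4 | h4
        · exact h4
        · omega
      have hy' : ¬ Even (ps h i y) := by
        rw [h1, hx']
        decide
      by_cases hy : sp h i y
      · simp [CB, hx, hy]
      · simp [CB, hx, hy, hy']
    · by_cases hy : sp h i y
      · have hy' : ps h i y = m - 1 := by
          rcases hy with h4 | h4
          · omega
          · exact h4
        have hx' : ¬ Even (ps h i x) := by
          rw [Nat.not_even_iff_odd]
          exact ⟨k - 1, by omega⟩
        simp [CB, hx, hy, hx']
      · have h5 : Even (ps h i y) ↔ ¬ Even (ps h i x) := by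
          rw [h1, Nat.even_add_one]
        by_cases h6 : Even (ps h i x)
        · have h7 : ¬ Even (ps h i y) := fun h8 => h5.1 h8 h6
          simp [CB, hx, hy, h6, h7]
        · have h7 : Even (ps h i y) := h5.2 h6
          simp [CB, hx, hy, h6, h7]
  · have hx : sp h i x := Or.inr h1
    have hy : sp h i y := Or.inl h2
    simp [CB, hx, hy]

theorem CB_edge {V : Type} {m : ℕ} (hm : Odd m) (hm3 : 3 ≤ m) (h : V → ZMod m) (i : ZMod m)
    {x y : V} (hxy : h y = h x + 1 ∨ h x = h y + 1) :
    CB (decide (sp h i x)) (decide (sp h i y)) (decide (Even (ps h i x)))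
      (decide (Even (ps h i y))) = true := by
  rcases hxy with h1 | h1
  · exact (CB_edge_aux hm hm3 h i h1).1
  · exact (CB_edge_aux hm hm3 h i h1).2

variable {V : Type} [Finite V] {G : SimpleGraph V} {m : ℕ}


/-- the edges in the first plane -/
def G1 (G : SimpleGraph V) (h : V → ZMod m) (i : ZMod m) (a : V → Bool) : SimpleGraph V where
  Adj u v := G.Adj u v ∧ first h i a u v
  symm := ⟨fun u v huv => by
    refine ⟨huv.1.symm, ?_⟩
    have h1 := huv.2
    unfold first at h1 ⊢
    simpa only [and_comm, eq_comm] using h1⟩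
  loopless := ⟨fun u hu => G.loopless.irrefl u hu.1⟩

/-- the edges in the second plane -/
def G2 (G : SimpleGraph V) (h : V → ZMod m) (i : ZMod m) (a : V → Bool) : SimpleGraph V where
  Adj u v := G.Adj u v ∧ ¬ first h i a u v
  symm := ⟨fun u v huv => by
    refine ⟨huv.1.symm, fun h0 => huv.2 ?_⟩
    unfold first at h0 ⊢
    simpa only [and_comm, eq_comm] using h0⟩
  loopless := ⟨fun u hu => G.loopless.irrefl u hu.1⟩

theorem oc_bound (hm : Odd m) (hm3 : 3 ≤ m) (h : V → ZMod m)
    (hh : ∀ u v, G.Adj u v → h v = h u + 1 ∨ h u = h v + 1) (i : ZMod m) (a : V → Bool)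
    (D : Drawing G) :
    2 * CR2 G ≤ ∑ e ∈ ES G, ∑ f ∈ ES G, if pc h i a e = pc h i a f then D.x e f else 0 := by
  have hd : Disjoint (G1 G h i a) (G2 G h i a) := by
    rw [disjoint_iff]
    ext u v
    simp only [SimpleGraph.inf_adj, G1, G2, SimpleGraph.bot_adj, iff_false]
    rintro ⟨⟨_, h1⟩, ⟨_, h2⟩⟩
    exact h2 h1
  have hs : G1 G h i a ⊔ G2 G h i a = G := by
    ext u v
    simp only [SimpleGraph.sup_adj, G1, G2]
    tauto
  have h1 : ∀ u v, (G1 G h i a).Adj u v → c1 h i a u = c1 h i a v := by
    rintro u v ⟨_, hf⟩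
    unfold first at hf
    split_ifs at hf with h2
    · unfold c1
      rw [if_pos h2.1, if_pos h2.2]
    · exact hf
  have h2 : ∀ u v, (G2 G h i a).Adj u v → c2 h i a u = c2 h i a v := by
    rintro u v ⟨hG, hf⟩
    have hCB := CB_edge hm hm3 h i (hh u v hG)
    unfold first at hf
    unfold c1 at hf
    unfold c2
    by_cases hx : sp h i u <;> by_cases hy : sp h i v <;> by_cases kx : Even (ps h i u) <;>
      by_cases ky : Even (ps h i v) <;> cases hau : a u <;> cases hav : a v <;>
      simp [CB, hx, hy, kx, ky, hau, hav] at hCB hf ⊢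
  refine (CR2_le D (G1 G h i a) (G2 G h i a) hd hs (c1 h i a) (c2 h i a) h1 h2).trans ?_
  have hpc1 : ∀ e ∈ (G1 G h i a).edgeSet, ∀ u ∈ e, pc h i a e = (1, c1 h i a u) := by
    intro e he u hu
    obtain ⟨v, rfl⟩ := Sym2.mem_iff_exists.1 hu
    rw [SimpleGraph.mem_edgeSet] at he
    have h3 : pc h i a s(u, v) = if first h i a u v then (1, max (c1 h i a u) (c1 h i a v))
      else (2, max (c2 h i a u) (c2 h i a v)) := rfl
    rw [h3, if_pos he.2, h1 u v he, max_self]
  have hpc2 : ∀ e ∈ (G2 G h i a).edgeSet, ∀ u ∈ e, pc h i a e = (2, c2 h i a u) := by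
    intro e he u hu
    obtain ⟨v, rfl⟩ := Sym2.mem_iff_exists.1 hu
    rw [SimpleGraph.mem_edgeSet] at he
    have h3 : pc h i a s(u, v) = if first h i a u v then (1, max (c1 h i a u) (c1 h i a v))
      else (2, max (c2 h i a u) (c2 h i a v)) := rfl
    rw [h3, if_neg he.2, h2 u v he, max_self]
  have hle1 : ES (G1 G h i a) ⊆ ES G := by
    intro e he
    rw [mem_ES] at he ⊢
    refine SimpleGraph.edgeSet_mono ?_ he
    intro u v huv
    exact huv.1
  have hle2 : ES (G2 G h i a) ⊆ ES G := by
    intro e he
    rw [mem_ES] at he ⊢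
    refine SimpleGraph.edgeSet_mono ?_ he
    intro u v huv
    exact huv.1
  have hdisj : Disjoint (ES (G1 G h i a)) (ES (G2 G h i a)) := by
    rw [Finset.disjoint_left]
    intro e he he'
    rw [mem_ES] at he he'
    have h3 := hpc1 e he _ (Sym2.out_fst_mem e)
    have h4 := hpc2 e he' _ (Sym2.out_fst_mem e)
    rw [h3] at h4
    exact absurd (congrArg Prod.fst h4) (by norm_num)
  have hA : ∑ e ∈ ES (G1 G h i a), ∑ f ∈ ES (G1 G h i a),
        (if SameCl (c1 h i a) e f then D.x e f else 0) ≤
      ∑ e ∈ ES (G1 G h i a), ∑ f ∈ ES G, if pc h i a e = pc h i a f then D.x e f else 0 := by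
    refine Finset.sum_le_sum fun e he => ?_
    refine le_trans (Finset.sum_le_sum fun f hf => ?_)
      (Finset.sum_le_sum_of_subset hle1)
    by_cases hc : SameCl (c1 h i a) e f
    · obtain ⟨u, hu, v, hv, huv⟩ := hc
      rw [if_pos ⟨u, hu, v, hv, huv⟩, if_pos]
      rw [hpc1 e (mem_ES.1 he) u hu, hpc1 f (mem_ES.1 hf) v hv, huv]
    · rw [if_neg hc]
      exact Nat.zero_le _
  have hB : ∑ e ∈ ES (G2 G h i a), ∑ f ∈ ES (G2 G h i a),
        (if SameCl (c2 h i a) e f then D.x e f else 0) ≤
      ∑ e ∈ ES (G2 G h i a), ∑ f ∈ ES G, if pc h i a e = pc h i a f then D.x e f else 0 := by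
    refine Finset.sum_le_sum fun e he => ?_
    refine le_trans (Finset.sum_le_sum fun f hf => ?_)
      (Finset.sum_le_sum_of_subset hle2)
    by_cases hc : SameCl (c2 h i a) e f
    · obtain ⟨u, hu, v, hv, huv⟩ := hc
      rw [if_pos ⟨u, hu, v, hv, huv⟩, if_pos]
      rw [hpc2 e (mem_ES.1 he) u hu, hpc2 f (mem_ES.1 hf) v hv, huv]
    · rw [if_neg hc]
      exact Nat.zero_le _
  refine (Nat.add_le_add hA hB).trans ?_
  rw [← Finset.sum_union hdisj]
  exact Finset.sum_le_sum_of_subset (Finset.union_subset hle1 hle2)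

end H29.BP
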