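import Pool.Agent.H29.BP.Loc
import Pool.Agent.H29.BP.Cnt

/-!
# [H29 BP PIECE] drawing vertex disjoint pieces far away from each other

Let `D` be a drawing of `G`, `G' ≤ G`, and let `c : V → ℕ` be constant on the edges of `G'`. Then
`G'` has a drawing in which only edges of the same class cross.

Paper proof. All sets `arc e`, `e ∈ G.edgeSet`, are compact and there are finitely many, `V` is
finite: there is `R` with `‖z‖ ≤ R` for all `z` in one of the arcs or `z = pos v`. Put `T = 2 R + 1`,
`pos' v = pos v + (T * c v : ℝ)`, and for an edge `e` of `G'` `arc' e = arc e + (T * c u)`, `u ∈ e`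
(choose `u = (Quot.out e).1`; all end points have the same class). If the classes are different,
then the translates are disjoint, as the real parts differ: for `c u < c v` the real part of a
point of the first is at most `R + T c u` and that of a point of the second at least
`-R + T (c u + 1) > R + T c u`. If the classes are equal both are translated by the same vector
(`IsArc.translate`, `CrossAt.translate`), `X' e f` is the translate of `X e f` (a point of
`range pos'` of another class is not on the arcs), so the numbers of common points agree. Use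
`two_mul_cr` for the new drawing.
-/

set_option autoImplicit false

open Set
open scoped Classical

noncomputable section

namespace H29.BP

variable {V : Type} [Finite V] {G : SimpleGraph V}

/-- two edges have end points of the same class -/
def SameCl (c : V → ℕ) (e f : Sym2 V) : Prop := ∃ u ∈ e, ∃ v ∈ f, c u = c v

theorem piece (D : Drawing G) (G' : SimpleGraph V) (hG : G' ≤ G) (c : V → ℕ)
    (hc : ∀ u v, G'.Adj u v → c u = c v) :
    ∃ D' : Drawing G', 2 * D'.cr ≤
      ∑ e ∈ ES G', ∑ f ∈ ES G', if SameCl c e f then D.x e f else 0 := by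
  set B : Set ℂ := (⋃ e ∈ G.edgeSet, D.arc e) ∪ range D.pos with hB
  have hBc : IsCompact B := by
    refine IsCompact.union (Set.Finite.isCompact_biUnion (Set.toFinite _) ?_)
      (Set.finite_range _).isCompact
    intro e he
    induction e using Sym2.ind with
    | _ a b => exact (D.isArc a b he).isCompact
  obtain ⟨R, hR0, hR⟩ : ∃ R : ℝ, 0 ≤ R ∧ ∀ z ∈ B, ‖z‖ ≤ R := by
    obtain ⟨R, hR⟩ := hBc.isBounded.exists_norm_le
    exact ⟨max R 0, le_max_right _ _, fun z hz => (hR z hz).trans (le_max_left _ _)⟩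
  set T : ℝ := 2 * R + 1 with hT
  have hBarc : ∀ e ∈ G.edgeSet, ∀ z ∈ D.arc e, z ∈ B := by
    intro e he z hz
    exact Or.inl (Set.mem_iUnion₂.2 ⟨e, he, hz⟩)
  have hBpos : ∀ w, D.pos w ∈ B := fun w => Or.inr ⟨w, rfl⟩
  have hkey : ∀ z ∈ B, ∀ z' ∈ B, ∀ k k' : ℕ, z + ((T * k : ℝ) : ℂ) = z' + ((T * k' : ℝ) : ℂ) →
      k = k' ∧ z = z' := by
    intro z hz z' hz' k k' h
    have h1 : z.re + T * k = z'.re + T * k' := by
      have h2 := congrArg Complex.re h
      rwa [Complex.add_re, Complex.add_re, Complex.ofReal_re, Complex.ofReal_re] at h2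
    have h3 := (abs_le.1 ((Complex.abs_re_le_norm z).trans (hR z hz)))
    have h4 := (abs_le.1 ((Complex.abs_re_le_norm z').trans (hR z' hz')))
    have h5 : k = k' := by
      rcases lt_trichotomy k k' with h6 | h6 | h6
      · exfalso
        have h7 : (k : ℝ) + 1 ≤ k' := by exact_mod_cast h6
        have h8 : T * (k + 1) ≤ T * k' := mul_le_mul_of_nonneg_left h7 (by linarith)
        linarith
      · exact h6
      · exfalso
        have h7 : (k' : ℝ) + 1 ≤ k := by exact_mod_cast h6
        have h8 : T * (k' + 1) ≤ T * k := mul_le_mul_of_nonneg_left h7 (by linarith)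
        linarith
    refine ⟨h5, ?_⟩
    rw [h5] at h
    exact add_right_cancel h
  set cl : Sym2 V → ℕ := fun e => c (Quot.out e).1 with hcl
  have hclu : ∀ e ∈ G'.edgeSet, ∀ u ∈ e, c u = cl e := by
    intro e he u hu
    have h1 : (Quot.out e).1 ∈ e := Sym2.out_fst_mem e
    obtain ⟨v, rfl⟩ := Sym2.mem_iff_exists.1 hu
    have h2 := Sym2.mem_iff.1 h1
    have h3 := hc u v he
    rcases h2 with h2 | h2
    · show c u = c (Quot.out s(u, v)).1
      rw [h2]
    · show c u = c (Quot.out s(u, v)).1
      rw [h2]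
      exact h3
  have hEG : ∀ e ∈ G'.edgeSet, e ∈ G.edgeSet := fun e he => SimpleGraph.edgeSet_mono hG he
  set pos' : V → ℂ := fun v => D.pos v + ((T * c v : ℝ) : ℂ) with hpos'
  set arc' : Sym2 V → Set ℂ := fun e => (fun z => z + ((T * cl e : ℝ) : ℂ)) '' D.arc e with harc'
  -- the preimage of a common point
  have hpre : ∀ e ∈ G'.edgeSet, ∀ f ∈ G'.edgeSet, ∀ p ∈ arc' e ∩ arc' f, ∃ z ∈ D.arc e ∩ D.arc f,
      cl f = cl e ∧ p = z + ((T * cl e : ℝ) : ℂ) := by
    rintro e he f hf p ⟨⟨z, hz, rfl⟩, ⟨z', hz', h1⟩⟩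
    obtain ⟨h2, h3⟩ := hkey z' (hBarc f (hEG f hf) z' hz') z (hBarc e (hEG e he) z hz) _ _ h1
    rw [h3] at hz'
    exact ⟨z, ⟨hz, hz'⟩, h2, rfl⟩
  have hvert : ∀ e ∈ G'.edgeSet, ∀ z ∈ D.arc e, z + ((T * cl e : ℝ) : ℂ) ∉ range pos' →
      z ∉ range D.pos := by
    rintro e he z hz hnot ⟨w, rfl⟩
    have hw : w ∈ e := by
      induction e using Sym2.ind with
      | _ a b =>
        rw [Sym2.mem_iff]
        exact D.avoid a b w (hG he) hz
    refine hnot ⟨w, ?_⟩
    show D.pos w + ((T * c w : ℝ) : ℂ) = _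
    rw [hclu e he w hw]
  have hex : ∃ D' : Drawing G', D'.pos = pos' ∧ D'.arc = arc' := by
   refine ⟨{ pos := pos'
             arc := arc'
             pos_inj := ?_
             isArc := ?_
             avoid := ?_
             inter_finite := ?_
             proper := ?_
             no_triple := ?_ }, rfl, rfl⟩
   · intro v w hvw
     exact D.pos_inj (hkey _ (hBpos v) _ (hBpos w) _ _ hvw).2
   · intro u v huv
     have h1 : c u = cl s(u, v) := hclu s(u, v) huv u (by simp)
     have h2 : c v = cl s(u, v) := hclu s(u, v) huv v (by simp)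
     show IsArc (D.pos u + ((T * c u : ℝ) : ℂ)) (D.pos v + ((T * c v : ℝ) : ℂ)) (arc' s(u, v))
     rw [h1, h2]
     exact (D.isArc u v (hG huv)).translate _
   · rintro u v w huv ⟨z, hz, h1⟩
     obtain ⟨_, h3⟩ := hkey z (hBarc _ (hG huv) z hz) _ (hBpos w) _ _ h1
     rw [h3] at hz
     exact D.avoid u v w (hG huv) hz
   · intro e he f hf hef
     refine Set.Finite.subset ((D.inter_finite e (hEG e he) f (hEG f hf) hef).image
       (fun z => z + ((T * cl e : ℝ) : ℂ))) ?_
     intro p hp
     obtain ⟨z, hz, _, rfl⟩ := hpre e he f hf p hp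
     exact ⟨z, hz, rfl⟩
   · intro e he f hf hef p hp hpp
     obtain ⟨z, hz, h1, rfl⟩ := hpre e he f hf p hp
     have h2 := (D.proper e (hEG e he) f (hEG f hf) hef z hz (hvert e he z hz.1 hpp)).translate
       ((T * cl e : ℝ) : ℂ)
     show CrossAt ((fun z => z + ((T * cl e : ℝ) : ℂ)) '' D.arc e)
       ((fun z => z + ((T * cl f : ℝ) : ℂ)) '' D.arc f) _
     rw [h1]
     exact h2
   · intro e he f hf g hg h1 h2 h3 p hp hpg
     by_contra hpp
     obtain ⟨z, hz, h4, rfl⟩ := hpre e he f hf p hp
     obtain ⟨z', hz', h5, h6⟩ := hpre e he g hg _ ⟨hp.1, hpg⟩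
     have h7 := add_right_cancel h6
     rw [← h7] at hz'
     exact hvert e he z hz.1 hpp (D.no_triple e (hEG e he) f (hEG f hf) g (hEG g hg) h1 h2 h3 z hz
       hz'.2)
  obtain ⟨D', hD'p, hD'a⟩ := hex
  refine ⟨D', ?_⟩
  · rw [Drawing.two_mul_cr]
    refine Finset.sum_le_sum fun e he => Finset.sum_le_sum fun f hf => ?_
    rw [mem_ES] at he hf
    by_cases hef : e = f
    · unfold Drawing.x
      rw [if_pos hef]
      exact Nat.zero_le _
    · by_cases hs : SameCl c e f
      · rw [if_pos hs]
        unfold Drawing.x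
        rw [if_neg hef, if_neg hef]
        have hsub : D'.X e f ⊆ (fun z => z + ((T * cl e : ℝ) : ℂ)) '' D.X e f := by
          rintro p ⟨hp, hpp⟩
          rw [hD'a] at hp
          rw [hD'p] at hpp
          obtain ⟨z, hz, h1, rfl⟩ := hpre e he f hf p hp
          exact ⟨z, ⟨hz, hvert e he z hz.1 hpp⟩, rfl⟩
        have hfin := (D.X_finite (hEG e he) (hEG f hf) hef)
        exact (Set.ncard_le_ncard hsub (hfin.image _)).trans (Set.ncard_image_le hfin)
      · rw [if_neg hs]
        unfold Drawing.x
        rw [if_neg hef]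
        have hemp : D'.X e f = ∅ := by
          rw [Set.eq_empty_iff_forall_notMem]
          rintro p ⟨hp, hpp⟩
          rw [hD'a] at hp
          rw [hD'p] at hpp
          obtain ⟨z, hz, h1, rfl⟩ := hpre e he f hf p hp
          refine hs ⟨(Quot.out e).1, Sym2.out_fst_mem e, (Quot.out f).1, Sym2.out_fst_mem f, ?_⟩
          exact h1.symm
        rw [hemp, Set.ncard_empty]

end H29.BP
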