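import Pool.Agent.H29.BP.UncB
import Pool.Agent.H29.BP.Piece
import Pool.Agent.H29.BP.Exist

/-!
# [H29 BP OPT] optimal drawings and the upper bound for the biplanar crossing number

Paper proofs. `opt_adj`: otherwise `unc` gives a drawing with fewer crossings, against
`Nat.sInf_le`. `exists_opt`: `Nat.sInf_mem` (`exists_drawing`). `CR2_le`: `piece` for both parts
and `CR G₁ ≤ D₁.cr` (`Nat.sInf_le`), `CR2 G ≤ CR G₁ + CR G₂` (`Nat.sInf_le`).
-/

set_option autoImplicit false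

open Set
open scoped Classical

noncomputable section

namespace H29.BP

variable {V : Type} [Finite V] {G : SimpleGraph V}

theorem opt_adj (D : Drawing G) (hD : D.cr = CR G) {u v w : V} (huv : G.Adj u v)
    (huw : G.Adj u w) (hvw : v ≠ w) : D.X s(u, v) s(u, w) = ∅ := by
  by_contra h
  obtain ⟨D', hD'⟩ := unc D huv huw hvw (Set.nonempty_iff_ne_empty.2 h)
  have h1 := hD'.cr_lt
  have h2 : CR G ≤ D'.cr := Nat.sInf_le ⟨D', rfl⟩
  omega

/-- in an optimal drawing edges with a common end point do not cross -/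
theorem opt_x (D : Drawing G) (hD : D.cr = CR G) {e f : Sym2 V} (he : e ∈ ES G) (hf : f ∈ ES G)
    {u : V} (hue : u ∈ e) (huf : u ∈ f) : D.x e f = 0 := by
  unfold Drawing.x
  split_ifs with hef
  · rfl
  · obtain ⟨v, rfl⟩ := Sym2.mem_iff_exists.1 hue
    obtain ⟨w, rfl⟩ := Sym2.mem_iff_exists.1 huf
    rw [mem_ES, SimpleGraph.mem_edgeSet] at he hf
    rw [opt_adj D hD he hf (fun h => hef (by rw [h])), Set.ncard_empty]

theorem exists_opt (G : SimpleGraph V) : ∃ D : Drawing G, D.cr = CR G := by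
  have h1 : {n | ∃ D : Drawing G, D.cr = n}.Nonempty := by
    obtain ⟨D⟩ := exists_drawing G
    exact ⟨D.cr, D, rfl⟩
  exact Nat.sInf_mem h1

theorem CR2_le (D : Drawing G) (G₁ G₂ : SimpleGraph V) (hd : Disjoint G₁ G₂)
    (hs : G₁ ⊔ G₂ = G) (c₁ c₂ : V → ℕ) (h1 : ∀ u v, G₁.Adj u v → c₁ u = c₁ v)
    (h2 : ∀ u v, G₂.Adj u v → c₂ u = c₂ v) :
    2 * CR2 G ≤ (∑ e ∈ ES G₁, ∑ f ∈ ES G₁, if SameCl c₁ e f then D.x e f else 0) +
      ∑ e ∈ ES G₂, ∑ f ∈ ES G₂, if SameCl c₂ e f then D.x e f else 0 := by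
  obtain ⟨D₁, hD₁⟩ := piece D G₁ (le_sup_left.trans hs.le) c₁ h1
  obtain ⟨D₂, hD₂⟩ := piece D G₂ (le_sup_right.trans hs.le) c₂ h2
  have h3 : CR G₁ ≤ D₁.cr := Nat.sInf_le ⟨D₁, rfl⟩
  have h4 : CR G₂ ≤ D₂.cr := Nat.sInf_le ⟨D₂, rfl⟩
  have h5 : CR2 G ≤ CR G₁ + CR G₂ := Nat.sInf_le ⟨G₁, G₂, hd, hs, rfl⟩
  omega

end H29.BP
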