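import Pool.Agent.H29.BP.CDef

/-!
# [H29 BP PAR] sign vectors with prescribed products over disjoint sets

Paper proofs. `HH_nonempty`: choose a point `v_q ∈ q` for every `q ∈ Q`; the sets are disjoint, so
`s v = ω q` for `v = v_q` and `s v = 1` otherwise is well defined and has product `ω q` over `q`.

`sum_HH_zero`: let `R = {a}` in the first case and `R = {a, c}` in the second case. Flipping the
signs on `R` (multiply by `fun v => if v ∈ R then -1 else 1`) maps `HH Q ω` to itself: `R` meets
every `q' ∈ Q` in an even number of points (in the first case in none; in the second case in both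
points for `q' = q`, in none for `q' ≠ q` by disjointness). It changes the sign of the product
over `T`, as `R ∩ T = {a}`. So the sum is equal to its negative (`Finset.sum_nbij'` or
`Finset.sum_equiv` with `Equiv.mulLeft`).
-/

set_option autoImplicit false

open scoped Classical

noncomputable section

namespace H29.BP

variable {V : Type} [Fintype V]

theorem HH_nonempty (Q : Finset (Finset V)) (ω : Finset V → ℤˣ)
    (hd : ∀ q ∈ Q, ∀ q' ∈ Q, q ≠ q' → Disjoint q q') (hne : ∀ q ∈ Q, q.Nonempty) :
    (HH Q ω).Nonempty := by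
  choose g hg using hne
  let s : V → ℤˣ := fun v =>
    if h : ∃ q, ∃ hq : q ∈ Q, g q hq = v then ω (Classical.choose h) else 1
  refine ⟨s, ?_⟩
  rw [HH, Finset.mem_filter]
  refine ⟨Finset.mem_univ _, fun q hq => ?_⟩
  rw [Finset.prod_eq_single (g q hq)]
  · have h : ∃ q', ∃ hq' : q' ∈ Q, g q' hq' = g q hq := ⟨q, hq, rfl⟩
    obtain ⟨h0, h1⟩ := Classical.choose_spec h
    have h2 : Classical.choose h = q := by
      by_contra hne'
      refine Finset.disjoint_left.1 (hd _ h0 q hq hne') (hg _ h0) ?_
      rw [h1]
      exact hg q hq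
    have h4 : s (g q hq) = ω (Classical.choose h) := dif_pos h
    rw [h4, h2]
  · intro v hv hvg
    refine dif_neg ?_
    rintro ⟨q', hq', h3⟩
    by_cases hqq : q' = q
    · subst hqq
      exact hvg h3.symm
    · refine Finset.disjoint_left.1 (hd q' hq' q hq hqq) (hg q' hq') ?_
      rw [h3]
      exact hv
  · intro h
    exact absurd (hg q hq) h

omit [Fintype V] in
theorem prod_flip (q R : Finset V) :
    ∏ v ∈ q, (if v ∈ R then (-1 : ℤˣ) else 1) = (-1) ^ (q.filter (fun v => v ∈ R)).card := by
  rw [Finset.prod_ite, Finset.prod_const, Finset.prod_const_one, mul_one]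

/-- flipping the signs on `R` -/
theorem sum_flip (Q : Finset (Finset V)) (ω : Finset V → ℤˣ) (T R : Finset V)
    (hQ : ∀ q ∈ Q, Even (q.filter (fun v => v ∈ R)).card)
    (hT : Odd (T.filter (fun v => v ∈ R)).card) :
    ∑ s ∈ HH Q ω, ∏ v ∈ T, ((s v : ℤ) : ℝ) = 0 := by
  let t : V → ℤˣ := fun v => if v ∈ R then -1 else 1
  have htt : ∀ s : V → ℤˣ, (fun v => t v * (t v * s v)) = s := by
    intro s
    funext v
    simp only [t]
    split_ifs <;> simp
  have hmem : ∀ s ∈ HH Q ω, (fun v => t v * s v) ∈ HH Q ω := by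
    intro s hs
    rw [HH, Finset.mem_filter] at hs ⊢
    refine ⟨Finset.mem_univ _, fun q hq => ?_⟩
    rw [Finset.prod_mul_distrib, hs.2 q hq, prod_flip, (hQ q hq).neg_one_pow, one_mul]
  have h1 : ∑ s ∈ HH Q ω, ∏ v ∈ T, ((s v : ℤ) : ℝ) =
      ∑ s ∈ HH Q ω, ∏ v ∈ T, (((t v * s v : ℤˣ) : ℤ) : ℝ) := by
    refine Finset.sum_nbij' (fun s v => t v * s v) (fun s v => t v * s v) hmem hmem
      (fun s _ => htt s) (fun s _ => htt s) ?_
    intro s _
    refine Finset.prod_congr rfl fun v _ => ?_
    have h2 : t v * (t v * s v) = s v := congrFun (htt s) v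
    rw [h2]
  have h3 : ∀ s : V → ℤˣ, ∏ v ∈ T, (((t v * s v : ℤˣ) : ℤ) : ℝ) =
      -∏ v ∈ T, ((s v : ℤ) : ℝ) := by
    intro s
    have h4 : ∏ v ∈ T, (((t v * s v : ℤˣ) : ℤ) : ℝ) =
        (((∏ v ∈ T, t v : ℤˣ) : ℤ) : ℝ) * ∏ v ∈ T, ((s v : ℤ) : ℝ) := by
      rw [Units.coe_prod, Int.cast_prod, ← Finset.prod_mul_distrib]
      refine Finset.prod_congr rfl fun v _ => ?_
      push_cast
      ring
    rw [h4, prod_flip, hT.neg_one_pow]
    simp
  rw [Finset.sum_congr rfl fun s _ => h3 s, Finset.sum_neg_distrib] at h1
  linarith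

theorem sum_HH_zero (Q : Finset (Finset V)) (ω : Finset V → ℤˣ)
    (hd : ∀ q ∈ Q, ∀ q' ∈ Q, q ≠ q' → Disjoint q q') (T : Finset V) (a : V) (ha : a ∈ T)
    (h : (∀ q ∈ Q, a ∉ q) ∨ ∃ q ∈ Q, a ∈ q ∧ ∃ c ∈ q, c ∉ T) :
    ∑ s ∈ HH Q ω, ∏ v ∈ T, ((s v : ℤ) : ℝ) = 0 := by
  rcases h with h | ⟨q, hq, haq, c, hcq, hcT⟩
  · refine sum_flip Q ω T {a} ?_ ?_
    · intro q hq
      have h1 : q.filter (fun v => v ∈ ({a} : Finset V)) = ∅ := by
        refine Finset.filter_eq_empty_iff.2 fun v hv hva => ?_
        rw [Finset.mem_singleton] at hva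
        subst hva
        exact h q hq hv
      rw [h1]
      exact Even.zero
    · have h1 : T.filter (fun v => v ∈ ({a} : Finset V)) = {a} := by
        ext v
        rw [Finset.mem_filter, Finset.mem_singleton]
        constructor
        · exact fun h => h.2
        · rintro rfl
          exact ⟨ha, rfl⟩
      rw [h1, Finset.card_singleton]
      exact odd_one
  · have hac : a ≠ c := by
      rintro rfl
      exact hcT ha
    refine sum_flip Q ω T {a, c} ?_ ?_
    · intro q' hq'
      by_cases hqq : q' = q
      · subst hqq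
        have h1 : q'.filter (fun v => v ∈ ({a, c} : Finset V)) = {a, c} := by
          ext v
          rw [Finset.mem_filter]
          constructor
          · exact fun h => h.2
          · intro h
            refine ⟨?_, h⟩
            rw [Finset.mem_insert, Finset.mem_singleton] at h
            rcases h with rfl | rfl
            · exact haq
            · exact hcq
        rw [h1, Finset.card_pair hac]
        exact even_two
      · have h1 : q'.filter (fun v => v ∈ ({a, c} : Finset V)) = ∅ := by
          refine Finset.filter_eq_empty_iff.2 fun v hv hva => ?_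
          rw [Finset.mem_insert, Finset.mem_singleton] at hva
          have h2 := Finset.disjoint_left.1 (hd q' hq' q hq hqq) hv
          rcases hva with rfl | rfl
          · exact h2 haq
          · exact h2 hcq
        rw [h1]
        exact Even.zero
    · have h1 : T.filter (fun v => v ∈ ({a, c} : Finset V)) = {a} := by
        ext v
        rw [Finset.mem_filter, Finset.mem_singleton, Finset.mem_insert, Finset.mem_singleton]
        constructor
        · rintro ⟨h2, rfl | rfl⟩
          · rfl
          · exact absurd h2 hcT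
        · rintro rfl
          exact ⟨ha, Or.inl rfl⟩
      rw [h1, Finset.card_singleton]
      exact odd_one

end H29.BP
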