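import Pool.Agent.H29.BP.Opt
import Pool.Agent.H29.BP.CDef

/-!
# [H29 BP POL] the cost of a vertex partition as a polynomial in the signs

`s : V → ℤˣ` is a partition of the vertices in two classes. The uncut edges are drawn in the first
plane (two classes, far away from each other), the cut edges in the second plane. Two edges
`e = xy`, `f = zw` stay in the same plane and class iff `s x = s y = s z = s w` or
(`s x ≠ s y` and `s z ≠ s w`); the indicator of this is `cost s e f`.

Paper proof of `CR2_le_cost`: `CR2_le` with `G₁.Adj u v ↔ G.Adj u v ∧ s u = s v`,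
`G₂.Adj u v ↔ G.Adj u v ∧ s u ≠ s v`, `c₁ v = if s v = 1 then 0 else 1`, `c₂ = 0`; then
`ES G₁`, `ES G₂` are disjoint with union `ES G`, and for `e, f ∈ ES G` the number
`(if e ∈ ES G₁ ∧ f ∈ ES G₁ ∧ SameCl c₁ e f then 1 else 0) +
(if e ∈ ES G₂ ∧ f ∈ ES G₂ then 1 else 0)` is equal to `cost s e f` (`Sym2.ind` twice and 16 cases,
`Int.units_eq_one_or`).
-/

set_option autoImplicit false

open Set
open scoped Classical

noncomputable section

namespace H29.BP

variable {V : Type}

/-- the uncut edges -/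
def GU (G : SimpleGraph V) (s : V → ℤˣ) : SimpleGraph V where
  Adj u v := G.Adj u v ∧ s u = s v
  symm := ⟨fun _ _ huv => ⟨huv.1.symm, huv.2.symm⟩⟩
  loopless := ⟨fun u hu => G.loopless.irrefl u hu.1⟩

/-- the cut edges -/
def GC (G : SimpleGraph V) (s : V → ℤˣ) : SimpleGraph V where
  Adj u v := G.Adj u v ∧ s u ≠ s v
  symm := ⟨fun _ _ huv => ⟨huv.1.symm, fun h => huv.2 h.symm⟩⟩
  loopless := ⟨fun u hu => G.loopless.irrefl u hu.1⟩

theorem cost_mk' (s : V → ℤˣ) (a b c d : V) : cost s s(a, b) s(c, d) =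
    3 / 8 - (sg s a * sg s b + sg s c * sg s d) / 8 +
      (sg s a + sg s b) * (sg s c + sg s d) / 8 +
      3 * (sg s a * sg s b * (sg s c * sg s d)) / 8 := by
  have h1 : tau s s(a, b) = sg s a * sg s b := rfl
  have h2 : tau s s(c, d) = sg s c * sg s d := rfl
  have h3 : sig s s(a, b) = sg s a + sg s b := rfl
  have h4 : sig s s(c, d) = sg s c + sg s d := rfl
  rw [cost, h1, h2, h3, h4]

/-- the class of a vertex in the first plane -/
def cU (s : V → ℤˣ) (v : V) : ℕ := if s v = 1 then 0 else 1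

theorem ind_eq_cost (G : SimpleGraph V) (s : V → ℤˣ) (e f : Sym2 V) (he : e ∈ G.edgeSet)
    (hf : f ∈ G.edgeSet) :
    ((if e ∈ (GU G s).edgeSet ∧ f ∈ (GU G s).edgeSet ∧ SameCl (cU s) e f then (1 : ℝ) else 0) +
      (if e ∈ (GC G s).edgeSet ∧ f ∈ (GC G s).edgeSet then (1 : ℝ) else 0)) = cost s e f := by
  induction e using Sym2.ind with
  | _ x y =>
    induction f using Sym2.ind with
    | _ z w =>
      rw [SimpleGraph.mem_edgeSet] at he hf
      have h1 : SameCl (cU s) s(x, y) s(z, w) ↔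
          (cU s x = cU s z ∨ cU s x = cU s w ∨ cU s y = cU s z ∨ cU s y = cU s w) := by
        unfold SameCl
        constructor
        · rintro ⟨u, hu, v, hv, h⟩
          rw [Sym2.mem_iff] at hu hv
          rcases hu with rfl | rfl <;> rcases hv with rfl | rfl <;> tauto
        · rintro (h | h | h | h)
          · exact ⟨x, by simp, z, by simp, h⟩
          · exact ⟨x, by simp, w, by simp, h⟩
          · exact ⟨y, by simp, z, by simp, h⟩
          · exact ⟨y, by simp, w, by simp, h⟩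
      have h2 : s(x, y) ∈ (GU G s).edgeSet ↔ s x = s y := by
        rw [SimpleGraph.mem_edgeSet]
        exact ⟨fun h => h.2, fun h => ⟨he, h⟩⟩
      have h3 : s(z, w) ∈ (GU G s).edgeSet ↔ s z = s w := by
        rw [SimpleGraph.mem_edgeSet]
        exact ⟨fun h => h.2, fun h => ⟨hf, h⟩⟩
      have h4 : s(x, y) ∈ (GC G s).edgeSet ↔ s x ≠ s y := by
        rw [SimpleGraph.mem_edgeSet]
        exact ⟨fun h => h.2, fun h => ⟨he, h⟩⟩
      have h5 : s(z, w) ∈ (GC G s).edgeSet ↔ s z ≠ s w := by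
        rw [SimpleGraph.mem_edgeSet]
        exact ⟨fun h => h.2, fun h => ⟨hf, h⟩⟩
      rw [cost_mk']
      simp only [h1, h2, h3, h4, h5]
      unfold cU sg
      rcases Int.units_eq_one_or (s x) with ha | ha <;>
        rcases Int.units_eq_one_or (s y) with hb | hb <;>
        rcases Int.units_eq_one_or (s z) with hc | hc <;>
        rcases Int.units_eq_one_or (s w) with hd | hd <;>
        rw [ha, hb, hc, hd] <;> norm_num

theorem CR2_le_cost [Finite V] {G : SimpleGraph V} (D : Drawing G) (s : V → ℤˣ) :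
    2 * (CR2 G : ℝ) ≤ ∑ e ∈ ES G, ∑ f ∈ ES G, (D.x e f : ℝ) * cost s e f := by
  have hd : Disjoint (GU G s) (GC G s) := by
    rw [disjoint_iff]
    ext u v
    simp only [SimpleGraph.inf_adj, GU, GC, SimpleGraph.bot_adj, iff_false]
    rintro ⟨⟨_, h1⟩, ⟨_, h2⟩⟩
    exact h2 h1
  have hs : GU G s ⊔ GC G s = G := by
    ext u v
    simp only [SimpleGraph.sup_adj, GU, GC]
    tauto
  have h0 := CR2_le D (GU G s) (GC G s) hd hs (cU s) (fun _ => 0)
    (fun u v huv => by unfold cU; rw [huv.2]) (fun _ _ _ => rfl)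
  have hle1 : ES (GU G s) = (ES G).filter fun e => e ∈ (GU G s).edgeSet := by
    ext e
    rw [Finset.mem_filter, mem_ES, mem_ES]
    refine ⟨fun he => ⟨?_, he⟩, fun he => he.2⟩
    refine SimpleGraph.edgeSet_mono ?_ he
    intro u v huv
    exact huv.1
  have hle2 : ES (GC G s) = (ES G).filter fun e => e ∈ (GC G s).edgeSet := by
    ext e
    rw [Finset.mem_filter, mem_ES, mem_ES]
    refine ⟨fun he => ⟨?_, he⟩, fun he => he.2⟩
    refine SimpleGraph.edgeSet_mono ?_ he
    intro u v huv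
    exact huv.1
  have h1 : (2 * (CR2 G : ℝ)) ≤
      ((∑ e ∈ ES (GU G s), ∑ f ∈ ES (GU G s), (if SameCl (cU s) e f then D.x e f else 0) : ℕ) : ℝ) +
      ((∑ e ∈ ES (GC G s), ∑ f ∈ ES (GC G s),
        (if SameCl (fun _ => 0) e f then D.x e f else 0) : ℕ) : ℝ) := by
    exact_mod_cast h0
  refine h1.trans ?_
  have hA : ((∑ e ∈ ES (GU G s), ∑ f ∈ ES (GU G s),
      (if SameCl (cU s) e f then D.x e f else 0) : ℕ) : ℝ) =
      ∑ e ∈ ES G, ∑ f ∈ ES G, (D.x e f : ℝ) * (if e ∈ (GU G s).edgeSet ∧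
        f ∈ (GU G s).edgeSet ∧ SameCl (cU s) e f then (1 : ℝ) else 0) := by
    rw [hle1]
    push_cast
    rw [Finset.sum_filter]
    refine Finset.sum_congr rfl fun e _ => ?_
    by_cases he : e ∈ (GU G s).edgeSet
    · rw [if_pos he, Finset.sum_filter]
      refine Finset.sum_congr rfl fun f _ => ?_
      by_cases hf : f ∈ (GU G s).edgeSet
      · by_cases hc : SameCl (cU s) e f
        · rw [if_pos hf, if_pos hc, if_pos ⟨he, hf, hc⟩, mul_one]
        · rw [if_pos hf, if_neg hc, if_neg (fun h => hc h.2.2), mul_zero]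
      · rw [if_neg hf, if_neg (fun h => hf h.2.1), mul_zero]
    · rw [if_neg he]
      refine (Finset.sum_eq_zero fun f _ => ?_).symm
      rw [if_neg (fun h => he h.1), mul_zero]
  have hB : ((∑ e ∈ ES (GC G s), ∑ f ∈ ES (GC G s),
      (if SameCl (fun _ => 0) e f then D.x e f else 0) : ℕ) : ℝ) ≤
      ∑ e ∈ ES G, ∑ f ∈ ES G, (D.x e f : ℝ) * (if e ∈ (GC G s).edgeSet ∧
        f ∈ (GC G s).edgeSet then (1 : ℝ) else 0) := by
    rw [hle2]
    push_cast
    rw [Finset.sum_filter]
    refine Finset.sum_le_sum fun e _ => ?_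
    by_cases he : e ∈ (GC G s).edgeSet
    · rw [if_pos he, Finset.sum_filter]
      refine Finset.sum_le_sum fun f _ => ?_
      by_cases hf : f ∈ (GC G s).edgeSet
      · have hef : e ∈ (GC G s).edgeSet ∧ f ∈ (GC G s).edgeSet := ⟨he, hf⟩
        rw [if_pos hf, if_pos hef, mul_one]
        split_ifs
        · exact le_rfl
        · exact Nat.cast_nonneg _
      · rw [if_neg hf, if_neg (fun h => hf h.2), mul_zero]
    · rw [if_neg he]
      refine (Finset.sum_nonneg fun f _ => ?_)
      positivity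
  rw [hA]
  refine (add_le_add_right hB _).trans (le_of_eq ?_)
  rw [← Finset.sum_add_distrib]
  refine Finset.sum_congr rfl fun e he => ?_
  rw [← Finset.sum_add_distrib]
  refine Finset.sum_congr rfl fun f hf => ?_
  rw [← mul_add, ind_eq_cost G s e f (mem_ES.1 he) (mem_ES.1 hf)]

end H29.BP
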