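import Pool.Agent.H29.BP.Loc
import Pool.Agent.H29.BP.Cnt

/-!
# [H29 BP REPL] replacing the arcs of two edges

Paper proof: the new drawing has the same `pos` and `arc' = fun g => if g = s(u,v) then e' else if
g = s(w,z) then f' else arc g`. `isArc`: for the edges `s(u,v)`, `s(w,z)` in both orders
(`IsArc.symm`; an edge `s(a,b)` equal to `s(u,v)` has `{a,b} = {u,v}`, `Sym2.eq_iff`). `avoid`:
hypotheses. Common points of `e'` with `arc g`, `g` another edge: they are in
`(arc e ∪ arc f) ∩ arc g` as `K` is disjoint from `arc g`; so finite; if such a point `p` is no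
vertex, then near `p` the set `e'` agrees with `arc e` or with `arc f` (so `p` is on that arc) and
`CrossAt.congr` applies to the proper crossing of `D` (`CrossAt.symm` for the other order). Common
points of `e'` and `f'`: in `arc e ∩ arc f`, finite, the sets agree locally with `arc f` and
`arc e` or with `arc e` and `arc f`, `CrossAt.congr`, `CrossAt.symm`. No triple points: a point on
`e'`, `arc g`, `arc h` is on `arc e` or `arc f`, a point on `e'`, `f'`, `arc g` is on `arc e`,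
`arc f`, `arc g`. So all crossings of the new drawing are crossings of `D`; but `c` is not: it is a
crossing of `D`, it is not in `e' ∩ f'`, it lies on no `arc g` (`no_triple`).
-/

set_option autoImplicit false
set_option linter.unusedVariables false

open Set
open scoped Classical

noncomputable section

namespace H29.BP

variable {V : Type} {G : SimpleGraph V}

/-- `D'` arises from `D` by redrawing the edges `e` and `f`, its crossings are a proper subset of
the crossings of `D` -/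
def Better (D D' : Drawing G) (e f : Sym2 V) : Prop :=
  D'.pos = D.pos ∧ (∀ g, g ≠ e → g ≠ f → D'.arc g = D.arc g) ∧ D'.crossings ⊂ D.crossings

theorem Better.cr_lt [Finite V] {D D' : Drawing G} {e f : Sym2 V} (h : Better D D' e f) :
    D'.cr < D.cr := by
  exact Set.ncard_lt_ncard h.2.2 D.crossings_finite

theorem repl (D : Drawing G) {u v w z : V} (huv : G.Adj u v) (hwz : G.Adj w z)
    (hne : s(u, v) ≠ s(w, z))
    (e' f' K : Set ℂ) (c : ℂ) (hc : c ∈ D.X s(u, v) s(w, z))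
    (he' : IsArc (D.pos u) (D.pos v) e') (hf' : IsArc (D.pos w) (D.pos z) f')
    (hK : ∀ g ∈ G.edgeSet, g ≠ s(u, v) → g ≠ s(w, z) → Disjoint K (D.arc g))
    (hKp : Disjoint K (range D.pos))
    (hesub : e' ⊆ D.arc s(u, v) ∪ D.arc s(w, z) ∪ K)
    (hfsub : f' ⊆ D.arc s(u, v) ∪ D.arc s(w, z) ∪ K)
    (heav : ∀ y, D.pos y ∈ e' → y = u ∨ y = v)
    (hfav : ∀ y, D.pos y ∈ f' → y = w ∨ y = z)
    (heloc : ∀ p ∈ e', p ∉ K → p ∉ range D.pos → ∃ U : Set ℂ, IsOpen U ∧ p ∈ U ∧
      (e' ∩ U = D.arc s(u, v) ∩ U ∨ e' ∩ U = D.arc s(w, z) ∩ U))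
    (hfloc : ∀ p ∈ f', p ∉ K → p ∉ range D.pos → ∃ U : Set ℂ, IsOpen U ∧ p ∈ U ∧
      (f' ∩ U = D.arc s(u, v) ∩ U ∨ f' ∩ U = D.arc s(w, z) ∩ U))
    (hef : e' ∩ f' ⊆ (D.arc s(u, v) ∩ D.arc s(w, z)) \ {c})
    (hefloc : ∀ p ∈ e' ∩ f', p ∉ range D.pos → ∃ U : Set ℂ, IsOpen U ∧ p ∈ U ∧
      ((e' ∩ U = D.arc s(w, z) ∩ U ∧ f' ∩ U = D.arc s(u, v) ∩ U) ∨
        (e' ∩ U = D.arc s(u, v) ∩ U ∧ f' ∩ U = D.arc s(w, z) ∩ U))) :
    ∃ D' : Drawing G, Better D D' s(u, v) s(w, z) := by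
  set e : Sym2 V := s(u, v) with he
  set f : Sym2 V := s(w, z) with hf
  have heG : e ∈ G.edgeSet := huv
  have hfG : f ∈ G.edgeSet := hwz
  set A : Sym2 V → Set ℂ := fun g => if g = e then e' else if g = f then f' else D.arc g with hA
  have hAe : A e = e' := by rw [hA]; exact if_pos rfl
  have hAf : A f = f' := by
    rw [hA]
    show (if f = e then e' else if f = f then f' else D.arc f) = f'
    rw [if_neg (fun h => hne h.symm), if_pos rfl]
  have hAg : ∀ g, g ≠ e → g ≠ f → A g = D.arc g := by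
    intro g h1 h2
    rw [hA]
    show (if g = e then e' else if g = f then f' else D.arc g) = D.arc g
    rw [if_neg h1, if_neg h2]
  have hKg : ∀ g ∈ G.edgeSet, g ≠ e → g ≠ f → ∀ p ∈ D.arc g, p ∉ K := by
    intro g hg h1 h2 p hp hpK
    exact Set.disjoint_left.1 (hK g hg h1 h2) hpK hp
  have hsub1 : ∀ g ∈ G.edgeSet, g ≠ e → g ≠ f → ∀ p ∈ D.arc g, p ∈ e' →
      p ∈ D.arc e ∨ p ∈ D.arc f := by
    intro g hg h1 h2 p hp hpe
    rcases hesub hpe with (h3 | h3) | h3
    · exact Or.inl h3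
    · exact Or.inr h3
    · exact absurd h3 (hKg g hg h1 h2 p hp)
  have hsub2 : ∀ g ∈ G.edgeSet, g ≠ e → g ≠ f → ∀ p ∈ D.arc g, p ∈ f' →
      p ∈ D.arc e ∨ p ∈ D.arc f := by
    intro g hg h1 h2 p hp hpe
    rcases hfsub hpe with (h3 | h3) | h3
    · exact Or.inl h3
    · exact Or.inr h3
    · exact absurd h3 (hKg g hg h1 h2 p hp)
  -- finiteness
  have hfin1 : ∀ g ∈ G.edgeSet, g ≠ e → g ≠ f → (e' ∩ D.arc g).Finite := by
    intro g hg h1 h2
    refine Set.Finite.subset ((D.inter_finite e heG g hg h1.symm).union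
      (D.inter_finite f hfG g hg h2.symm)) ?_
    rintro p ⟨hp1, hp2⟩
    rcases hsub1 g hg h1 h2 p hp2 hp1 with h3 | h3
    · exact Or.inl ⟨h3, hp2⟩
    · exact Or.inr ⟨h3, hp2⟩
  have hfin2 : ∀ g ∈ G.edgeSet, g ≠ e → g ≠ f → (f' ∩ D.arc g).Finite := by
    intro g hg h1 h2
    refine Set.Finite.subset ((D.inter_finite e heG g hg h1.symm).union
      (D.inter_finite f hfG g hg h2.symm)) ?_
    rintro p ⟨hp1, hp2⟩
    rcases hsub2 g hg h1 h2 p hp2 hp1 with h3 | h3
    · exact Or.inl ⟨h3, hp2⟩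
    · exact Or.inr ⟨h3, hp2⟩
  have hfin3 : (e' ∩ f').Finite :=
    (D.inter_finite e heG f hfG hne).subset (hef.trans Set.sdiff_subset)
  -- proper crossings
  have hpr1 : ∀ g ∈ G.edgeSet, g ≠ e → g ≠ f → ∀ p ∈ e' ∩ D.arc g, p ∉ range D.pos →
      CrossAt e' (D.arc g) p := by
    rintro g hg h1 h2 p ⟨hp1, hp2⟩ hpp
    obtain ⟨U, hU, hpU, h3 | h3⟩ := heloc p hp1 (hKg g hg h1 h2 p hp2) hpp
    · have h4 : p ∈ D.arc e := ((Set.ext_iff.1 h3 p).1 ⟨hp1, hpU⟩).1
      exact (D.proper e heG g hg h1.symm p ⟨h4, hp2⟩ hpp).congr U hU hpU h3 rfl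
    · have h4 : p ∈ D.arc f := ((Set.ext_iff.1 h3 p).1 ⟨hp1, hpU⟩).1
      exact (D.proper f hfG g hg h2.symm p ⟨h4, hp2⟩ hpp).congr U hU hpU h3 rfl
  have hpr2 : ∀ g ∈ G.edgeSet, g ≠ e → g ≠ f → ∀ p ∈ f' ∩ D.arc g, p ∉ range D.pos →
      CrossAt f' (D.arc g) p := by
    rintro g hg h1 h2 p ⟨hp1, hp2⟩ hpp
    obtain ⟨U, hU, hpU, h3 | h3⟩ := hfloc p hp1 (hKg g hg h1 h2 p hp2) hpp
    · have h4 : p ∈ D.arc e := ((Set.ext_iff.1 h3 p).1 ⟨hp1, hpU⟩).1
      exact (D.proper e heG g hg h1.symm p ⟨h4, hp2⟩ hpp).congr U hU hpU h3 rfl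
    · have h4 : p ∈ D.arc f := ((Set.ext_iff.1 h3 p).1 ⟨hp1, hpU⟩).1
      exact (D.proper f hfG g hg h2.symm p ⟨h4, hp2⟩ hpp).congr U hU hpU h3 rfl
  have hpr3 : ∀ p ∈ e' ∩ f', p ∉ range D.pos → CrossAt e' f' p := by
    intro p hp hpp
    have h1 : p ∈ D.arc e ∩ D.arc f := (hef hp).1
    have h2 := D.proper e heG f hfG hne p h1 hpp
    obtain ⟨U, hU, hpU, ⟨h3, h4⟩ | ⟨h3, h4⟩⟩ := hefloc p hp hpp
    · exact h2.symm.congr U hU hpU h3 h4
    · exact h2.congr U hU hpU h3 h4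
  -- triple points
  have hT : ∀ p, p ∉ range D.pos → ∀ g ∈ G.edgeSet, ∀ h ∈ G.edgeSet, ∀ k ∈ G.edgeSet,
      g ≠ h → g ≠ k → h ≠ k → p ∈ D.arc g → p ∈ D.arc h → p ∈ D.arc k → False := by
    intro p hpp g hg h hh k hk h1 h2 h3 hpg hph hpk
    exact hpp (D.no_triple g hg h hh k hk h1 h2 h3 p ⟨hpg, hph⟩ hpk)
  have hTe : ∀ p, p ∉ range D.pos → ∀ h ∈ G.edgeSet, ∀ k ∈ G.edgeSet,
      e ≠ h → e ≠ k → h ≠ k → p ∈ A e → p ∈ A h → p ∈ A k → False := by
    intro p hpp h hh k hk h1 h2 h3 hpe hph hpk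
    rw [hAe] at hpe
    by_cases h4 : h = f
    · rw [h4, hAf] at hph
      rw [h4] at h3
      rw [hAg k h2.symm h3.symm] at hpk
      have h5 := (hef ⟨hpe, hph⟩).1
      exact hT p hpp e heG f hfG k hk hne h2 h3 h5.1 h5.2 hpk
    · by_cases h5 : k = f
      · rw [h5, hAf] at hpk
        rw [h5] at h3
        rw [hAg h h1.symm h4] at hph
        have h6 := (hef ⟨hpe, hpk⟩).1
        exact hT p hpp e heG f hfG h hh hne h1 h3.symm h6.1 h6.2 hph
      · rw [hAg h h1.symm h4] at hph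
        rw [hAg k h2.symm h5] at hpk
        rcases hsub1 h hh h1.symm h4 p hph hpe with h6 | h6
        · exact hT p hpp e heG h hh k hk h1 h2 h3 h6 hph hpk
        · exact hT p hpp f hfG h hh k hk (fun h7 => h4 h7.symm) (fun h7 => h5 h7.symm) h3 h6
            hph hpk
  have hTf : ∀ p, p ∉ range D.pos → ∀ h ∈ G.edgeSet, ∀ k ∈ G.edgeSet,
      f ≠ h → f ≠ k → h ≠ k → p ∈ A f → p ∈ A h → p ∈ A k → False := by
    intro p hpp h hh k hk h1 h2 h3 hpf hph hpk
    by_cases h4 : h = e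
    · rw [h4] at h3 hph
      exact hTe p hpp f hfG k hk hne h3 h2 hph hpf hpk
    · by_cases h5 : k = e
      · rw [h5] at h3 hpk
        exact hTe p hpp f hfG h hh hne h3.symm h1 hpk hpf hph
      · rw [hAf] at hpf
        rw [hAg h h4 h1.symm] at hph
        rw [hAg k h5 h2.symm] at hpk
        rcases hsub2 h hh h4 h1.symm p hph hpf with h6 | h6
        · exact hT p hpp e heG h hh k hk (fun h7 => h4 h7.symm) (fun h7 => h5 h7.symm) h3 h6
            hph hpk
        · exact hT p hpp f hfG h hh k hk h1 h2 h3 h6 hph hpk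
  have hTA : ∀ p, p ∉ range D.pos → ∀ g ∈ G.edgeSet, ∀ h ∈ G.edgeSet, ∀ k ∈ G.edgeSet,
      g ≠ h → g ≠ k → h ≠ k → p ∈ A g → p ∈ A h → p ∈ A k → False := by
    intro p hpp g hg h hh k hk h1 h2 h3 hpg hph hpk
    by_cases c1 : g = e
    · subst c1
      exact hTe p hpp h hh k hk h1 h2 h3 hpg hph hpk
    by_cases c2 : h = e
    · subst c2
      exact hTe p hpp g hg k hk h1.symm h3 h2 hph hpg hpk
    by_cases c3 : k = e
    · subst c3
      exact hTe p hpp g hg h hh h2.symm h3.symm h1 hpk hpg hph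
    by_cases c4 : g = f
    · subst c4
      exact hTf p hpp h hh k hk h1 h2 h3 hpg hph hpk
    by_cases c5 : h = f
    · subst c5
      exact hTf p hpp g hg k hk h1.symm h3 h2 hph hpg hpk
    by_cases c6 : k = f
    · subst c6
      exact hTf p hpp g hg h hh h2.symm h3.symm h1 hpk hpg hph
    rw [hAg g c1 c4] at hpg
    rw [hAg h c2 c5] at hph
    rw [hAg k c3 c6] at hpk
    exact hT p hpp g hg h hh k hk h1 h2 h3 hpg hph hpk
  -- the new drawing
  refine ⟨{ pos := D.pos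
            arc := A
            pos_inj := D.pos_inj
            isArc := ?_
            avoid := ?_
            inter_finite := ?_
            proper := ?_
            no_triple := ?_ }, rfl, hAg, ?_, ?_⟩
  · intro a b hab
    by_cases h1 : s(a, b) = e
    · rw [h1, hAe]
      rw [he, Sym2.eq_iff] at h1
      rcases h1 with ⟨rfl, rfl⟩ | ⟨rfl, rfl⟩
      · exact he'
      · exact he'.symm
    · by_cases h2 : s(a, b) = f
      · rw [h2, hAf]
        rw [hf, Sym2.eq_iff] at h2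
        rcases h2 with ⟨rfl, rfl⟩ | ⟨rfl, rfl⟩
        · exact hf'
        · exact hf'.symm
      · rw [hAg _ h1 h2]
        exact D.isArc a b hab
  · intro a b y hab hy
    by_cases h1 : s(a, b) = e
    · rw [h1, hAe] at hy
      rw [he, Sym2.eq_iff] at h1
      rcases h1 with ⟨rfl, rfl⟩ | ⟨rfl, rfl⟩
      · exact heav y hy
      · exact (heav y hy).symm
    · by_cases h2 : s(a, b) = f
      · rw [h2, hAf] at hy
        rw [hf, Sym2.eq_iff] at h2
        rcases h2 with ⟨rfl, rfl⟩ | ⟨rfl, rfl⟩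
        · exact hfav y hy
        · exact (hfav y hy).symm
      · rw [hAg _ h1 h2] at hy
        exact D.avoid a b y hab hy
  · intro g hg h hh hgh
    by_cases c1 : g = e
    · rw [c1] at hgh ⊢
      by_cases c2 : h = f
      · rw [c2, hAe, hAf]
        exact hfin3
      · rw [hAe, hAg h hgh.symm c2]
        exact hfin1 h hh hgh.symm c2
    · by_cases c2 : g = f
      · rw [c2] at hgh ⊢
        by_cases c3 : h = e
        · rw [c3, hAe, hAf, Set.inter_comm]
          exact hfin3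
        · rw [hAf, hAg h c3 hgh.symm]
          exact hfin2 h hh c3 hgh.symm
      · rw [hAg g c1 c2]
        by_cases c3 : h = e
        · rw [c3, hAe, Set.inter_comm]
          exact hfin1 g hg c1 c2
        · by_cases c4 : h = f
          · rw [c4, hAf, Set.inter_comm]
            exact hfin2 g hg c1 c2
          · rw [hAg h c3 c4]
            exact D.inter_finite g hg h hh hgh
  · intro g hg h hh hgh p hp hpp
    by_cases c1 : g = e
    · rw [c1] at hgh hp ⊢
      by_cases c2 : h = f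
      · rw [c2, hAe, hAf] at hp ⊢
        exact hpr3 p hp hpp
      · rw [hAe, hAg h hgh.symm c2] at hp ⊢
        exact hpr1 h hh hgh.symm c2 p hp hpp
    · by_cases c2 : g = f
      · rw [c2] at hgh hp ⊢
        by_cases c3 : h = e
        · rw [c3, hAe, hAf] at hp ⊢
          exact (hpr3 p ⟨hp.2, hp.1⟩ hpp).symm
        · rw [hAf, hAg h c3 hgh.symm] at hp ⊢
          exact hpr2 h hh c3 hgh.symm p hp hpp
      · rw [hAg g c1 c2] at hp ⊢
        by_cases c3 : h = e
        · rw [c3, hAe] at hp ⊢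
          exact (hpr1 g hg c1 c2 p ⟨hp.2, hp.1⟩ hpp).symm
        · by_cases c4 : h = f
          · rw [c4, hAf] at hp ⊢
            exact (hpr2 g hg c1 c2 p ⟨hp.2, hp.1⟩ hpp).symm
          · rw [hAg h c3 c4] at hp ⊢
            exact D.proper g hg h hh hgh p hp hpp
  · intro g hg h hh k hk h1 h2 h3 p hp hpk
    by_contra hpp
    exact hTA p hpp g hg h hh k hk h1 h2 h3 hp.1 hp.2 hpk
  · -- new crossings are old crossings
    rintro p ⟨g, hg, h, hh, hgh, hp, hpp⟩
    change p ∈ A g ∩ A h at hp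
    change p ∉ range D.pos at hpp
    by_cases c1 : g = e
    · rw [c1] at hgh hp
      by_cases c2 : h = f
      · rw [c2, hAe, hAf] at hp
        exact ⟨e, heG, f, hfG, hne, (hef hp).1, hpp⟩
      · rw [hAe, hAg h hgh.symm c2] at hp
        rcases hsub1 h hh hgh.symm c2 p hp.2 hp.1 with h6 | h6
        · exact ⟨e, heG, h, hh, hgh, ⟨h6, hp.2⟩, hpp⟩
        · exact ⟨f, hfG, h, hh, fun h7 => c2 h7.symm, ⟨h6, hp.2⟩, hpp⟩
    · by_cases c2 : g = f
      · rw [c2] at hgh hp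
        by_cases c3 : h = e
        · rw [c3, hAe, hAf] at hp
          exact ⟨e, heG, f, hfG, hne, (hef ⟨hp.2, hp.1⟩).1, hpp⟩
        · rw [hAf, hAg h c3 hgh.symm] at hp
          rcases hsub2 h hh c3 hgh.symm p hp.2 hp.1 with h6 | h6
          · exact ⟨e, heG, h, hh, fun h7 => c3 h7.symm, ⟨h6, hp.2⟩, hpp⟩
          · exact ⟨f, hfG, h, hh, hgh, ⟨h6, hp.2⟩, hpp⟩
      · rw [hAg g c1 c2] at hp
        by_cases c3 : h = e
        · rw [c3, hAe] at hp
          rcases hsub1 g hg c1 c2 p hp.1 hp.2 with h6 | h6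
          · exact ⟨e, heG, g, hg, fun h7 => c1 h7.symm, ⟨h6, hp.1⟩, hpp⟩
          · exact ⟨f, hfG, g, hg, fun h7 => c2 h7.symm, ⟨h6, hp.1⟩, hpp⟩
        · by_cases c4 : h = f
          · rw [c4, hAf] at hp
            rcases hsub2 g hg c1 c2 p hp.1 hp.2 with h6 | h6
            · exact ⟨e, heG, g, hg, fun h7 => c1 h7.symm, ⟨h6, hp.1⟩, hpp⟩
            · exact ⟨f, hfG, g, hg, fun h7 => c2 h7.symm, ⟨h6, hp.1⟩, hpp⟩
          · rw [hAg h c3 c4] at hp
            exact ⟨g, hg, h, hh, hgh, hp, hpp⟩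
  · -- the crossing `c` disappears
    intro hsub
    have hcD : c ∈ D.crossings := ⟨e, heG, f, hfG, hne, hc⟩
    obtain ⟨g, hg, h, hh, hgh, hp, hpp⟩ := hsub hcD
    change c ∈ A g ∩ A h at hp
    have hin : ∀ k ∈ G.edgeSet, k ≠ e → k ≠ f → c ∉ D.arc k := by
      intro k hk h1 h2 h3
      exact hT c hc.2 e heG f hfG k hk hne h1.symm h2.symm hc.1.1 hc.1.2 h3
    have hin' : ∀ k ∈ G.edgeSet, c ∈ A k → k = e ∨ k = f := by
      intro k hk h3
      by_contra h4
      push Not at h4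
      rw [hAg k h4.1 h4.2] at h3
      exact hin k hk h4.1 h4.2 h3
    rcases hin' g hg hp.1 with c1 | c1 <;> rcases hin' h hh hp.2 with c2 | c2
    · exact hgh (c1.trans c2.symm)
    · rw [c1, c2, hAe, hAf] at hp
      exact (hef hp).2 rfl
    · rw [c1, c2, hAe, hAf] at hp
      exact (hef ⟨hp.2, hp.1⟩).2 rfl
    · exact hgh (c1.trans c2.symm)

end H29.BP
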