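import Pool.Agent.H29.BP.Def

/-!
# [H29 BP SEL] selection of the switching points of two crossing arcs with a common end point

Paper proof. The set of `t ∈ [0,1]` with `α t ∈ β '' [0,1]` is finite (`α` is injective and the
common points are finitely many), contains `0` and a positive number, so its maximum `t` is
positive, `t < 1` as `α 1` is not on `β`; `α t = β r`, `r ≠ 0` as `β 0 = α 0 ≠ α t`, `r ≠ 1` as
`β 1` is not on `α`. The set of `t' ∈ [0, t]` with `α t' ∈ β '' [r, 1]` is finite and contains `t`;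
let `t₂` be its minimum; `t₂ > 0`, as `α 0 = β 0 ∉ β '' [r, 1]` (`r > 0`, injectivity). Put
`α t₂ = β r₂`, `r₂ ∈ [r, 1]`, `r₂ ≠ 1`. If `t₂ < t` then `β r₂ = α t₂ ≠ α t = β r`, so `r < r₂`.
-/

set_option autoImplicit false

open Set

namespace H29.BP

theorem sel {α β : ℝ → ℂ} (hαi : InjOn α (Icc 0 1)) (hβi : InjOn β (Icc 0 1))
    (h0 : α 0 = β 0) (ha : α 1 ∉ β '' Icc 0 1) (hb : β 1 ∉ α '' Icc 0 1)
    (hfin : (α '' Icc 0 1 ∩ β '' Icc 0 1).Finite)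
    (hne : ∃ p ∈ α '' Icc 0 1 ∩ β '' Icc 0 1, p ≠ α 0) :
    ∃ t r t₂ r₂ : ℝ, 0 < t ∧ t < 1 ∧ 0 < r ∧ r < 1 ∧ α t = β r ∧
      (∀ t' ∈ Ioc t 1, α t' ∉ β '' Icc 0 1) ∧ 0 < t₂ ∧ t₂ ≤ t ∧ r ≤ r₂ ∧ r₂ < 1 ∧
      α t₂ = β r₂ ∧ (∀ t' ∈ Ico 0 t₂, α t' ∉ β '' Icc r 1) ∧ (t₂ < t → r < r₂) := by
  set S : Set ℝ := {t | t ∈ Icc (0 : ℝ) 1 ∧ α t ∈ β '' Icc 0 1} with hS
  have hSI : S ⊆ Icc 0 1 := fun t ht => ht.1
  have hSf : S.Finite := by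
    refine Set.Finite.of_finite_image (f := α) (hfin.subset ?_) (hαi.mono hSI)
    rintro _ ⟨t, ht, rfl⟩
    exact ⟨⟨t, ht.1, rfl⟩, ht.2⟩
  have h00 : (0 : ℝ) ∈ Icc (0 : ℝ) 1 := ⟨le_rfl, zero_le_one⟩
  have h11 : (1 : ℝ) ∈ Icc (0 : ℝ) 1 := ⟨zero_le_one, le_rfl⟩
  obtain ⟨p, ⟨⟨s, hs, rfl⟩, hsβ⟩, hp0⟩ := hne
  have hs0 : 0 < s := by
    rcases hs.1.eq_or_lt with h | h
    · rw [← h] at hp0
      exact absurd rfl hp0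
    · exact h
  obtain ⟨t, htS, htmax⟩ := Set.exists_max_image S id hSf ⟨s, hs, hsβ⟩
  simp only [id] at htmax
  have ht0 : 0 < t := lt_of_lt_of_le hs0 (htmax s ⟨hs, hsβ⟩)
  have ht1 : t < 1 := by
    rcases htS.1.2.eq_or_lt with h | h
    · rw [h] at htS
      exact absurd htS.2 ha
    · exact h
  obtain ⟨r, hr, hrt⟩ := htS.2
  have hr0 : 0 < r := by
    rcases hr.1.eq_or_lt with h | h
    · rw [← h, ← h0] at hrt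
      have h1 := hαi h00 htS.1 hrt
      exact absurd h1 ht0.ne
    · exact h
  have hr1 : r < 1 := by
    rcases hr.2.eq_or_lt with h | h
    · rw [h] at hrt
      exact absurd ⟨t, htS.1, hrt.symm⟩ hb
    · exact h
  set S₂ : Set ℝ := {t' | t' ∈ Icc (0 : ℝ) t ∧ α t' ∈ β '' Icc r 1} with hS₂
  have hS₂S : S₂ ⊆ S := by
    rintro t' ⟨h1, r', hr', h2⟩
    exact ⟨⟨h1.1, h1.2.trans ht1.le⟩, r', ⟨hr0.le.trans hr'.1, hr'.2⟩, h2⟩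
  obtain ⟨t₂, ht₂S, ht₂min⟩ := Set.exists_min_image S₂ id (hSf.subset hS₂S)
    ⟨t, ⟨ht0.le, le_rfl⟩, r, ⟨le_rfl, hr1.le⟩, hrt⟩
  simp only [id] at ht₂min
  obtain ⟨r₂, hr₂, hrt₂⟩ := ht₂S.2
  have hr₂I : r₂ ∈ Icc (0 : ℝ) 1 := ⟨hr0.le.trans hr₂.1, hr₂.2⟩
  have ht₂I : t₂ ∈ Icc (0 : ℝ) 1 := ⟨ht₂S.1.1, ht₂S.1.2.trans ht1.le⟩
  have ht₂0 : 0 < t₂ := by
    rcases ht₂S.1.1.eq_or_lt with h | h
    · rw [← h, h0] at hrt₂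
      have h1 := hβi hr₂I h00 hrt₂
      exact absurd (h1 ▸ hr₂.1) (not_le.2 hr0)
    · exact h
  have hr₂1 : r₂ < 1 := by
    rcases hr₂.2.eq_or_lt with h | h
    · rw [h] at hrt₂
      exact absurd ⟨t₂, ht₂I, hrt₂.symm⟩ hb
    · exact h
  refine ⟨t, r, t₂, r₂, ht0, ht1, hr0, hr1, hrt.symm, ?_, ht₂0, ht₂S.1.2, hr₂.1, hr₂1,
    hrt₂.symm, ?_, ?_⟩
  · intro t' ht' h
    have h1 := htmax t' ⟨⟨ht0.le.trans ht'.1.le, ht'.2⟩, h⟩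
    exact absurd ht'.1 (not_lt.2 h1)
  · intro t' ht' h
    have h1 := ht₂min t' ⟨⟨ht'.1, ht'.2.le.trans ht₂S.1.2⟩, h⟩
    exact absurd ht'.2 (not_lt.2 h1)
  · intro h
    rcases hr₂.1.eq_or_lt with h1 | h1
    · rw [← h1, hrt] at hrt₂
      exact absurd (hαi htS.1 ht₂I hrt₂) h.ne'
    · exact h1

end H29.BP
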