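import Pool.Agent.H29.BP.Repl
import Pool.Agent.H29.BP.Sel
import Pool.Agent.H29.BP.Cut

/-!
# [H29 BP UNCA, UNCB] crossings of adjacent edges can be removed

`α`, `β` are parametrisations of the arcs of `s(u, v)` and `s(u, w)` from `pos u`.

Case 1 (`unc1`, `t₂ < t`): `e' = β[0,r] ∪ α[t,1]`, `f' = α[0,t₂] ∪ β[r₂,1]`, `K = {α t, α t₂}`,
`c = α t`. Case 2 (`unc2`, `t₂ = t`, so `α t' ∉ β[r,1]` for all `t' < t`): with the arcs of `cut`
for the closed set `(⋃ g ≠ s(u,v), s(u,w) edge, arc g) ∪ range pos`: `e' = β[0,r₁] ∪ κ ∪ α[t₃,1]`,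
`f' = α[0,t₁] ∪ κ' ∪ β[r₃,1]`, `K = κ ∪ κ'`.
Everything is an application of `repl` (with `w, z` there equal to `u, w` here; for a finite union of
compact sets use that `G.edgeSet` may be infinite: in `unc2` the hypothesis `[Finite V]` is used). Neighbourhoods: for a point `p = β s`, `s < r`, of `e'`
(case 1) take `U = (β '' [r,1] ∪ α '' [t,1])ᶜ`; for `p = α s`, `s > t`, take
`U = (β '' [0,1] ∪ α '' [0,t])ᶜ`; for `p = α s`, `s < t₂`, of `f'` take
`(β '' [r₂,1] ∪ α '' [t₂,1])ᶜ`; for `p = β s`, `s > r₂`, `(α '' [0,t₂] ∪ β '' [0,r₂])ᶜ`; for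
`p ∈ e' ∩ f'`: `p = β s = α s'`, `s < r`, `s' < t₂`, `U = (β '' [r,1] ∪ α '' [t₂,1])ᶜ`. In case 2
put `κ`, `κ'` in addition to the closed sets: `p = β s`, `s < r₁`:
`(β '' [r₁,1] ∪ κ ∪ α '' [t₃,1])ᶜ` and so on.
A common point of the two arcs which is a vertex `pos z` has `z ∈ {u,v} ∩ {u,w}`, so `z = u`
(`avoid`).
-/

set_option autoImplicit false

open Set

namespace H29.BP

variable {V : Type} {G : SimpleGraph V}

theorem inter_compl_eq {S T C : Set ℂ} (h : ∀ p, p ∉ C → (p ∈ S ↔ p ∈ T)) :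
    S ∩ Cᶜ = T ∩ Cᶜ := by
  ext p
  constructor
  · rintro ⟨h1, h2⟩
    exact ⟨(h p h2).1 h1, h2⟩
  · rintro ⟨h1, h2⟩
    exact ⟨(h p h2).2 h1, h2⟩

theorem isOpen_compl_two {α β : ℝ → ℂ} (hαc : ContinuousOn α (Icc 0 1))
    (hβc : ContinuousOn β (Icc 0 1)) {a b c d : ℝ} (ha : 0 ≤ a) (hb : b ≤ 1) (hc : 0 ≤ c)
    (hd : d ≤ 1) : IsOpen (α '' Icc a b ∪ β '' Icc c d)ᶜ := by
  have h1 : IsCompact (α '' Icc a b) :=
    isCompact_Icc.image_of_continuousOn (hαc.mono (Icc_subset_Icc ha hb))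
  have h2 : IsCompact (β '' Icc c d) :=
    isCompact_Icc.image_of_continuousOn (hβc.mono (Icc_subset_Icc hc hd))
  exact (h1.union h2).isClosed.isOpen_compl

theorem image_split {β : ℝ → ℂ} {r : ℝ} (h0 : 0 ≤ r) (h1 : r ≤ 1) {p : ℂ} :
    p ∈ β '' Icc 0 1 ↔ p ∈ β '' Icc 0 r ∨ p ∈ β '' Icc r 1 := by
  rw [← Set.mem_union, ← Set.image_union, Set.Icc_union_Icc_eq_Icc h0 h1]

/-- case 1: the second switching point is different from the first -/
theorem unc1 (D : Drawing G) {u v w : V} (huv : G.Adj u v) (huw : G.Adj u w) (hvw : v ≠ w)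
    {α β : ℝ → ℂ} (hαc : ContinuousOn α (Icc 0 1)) (hαi : InjOn α (Icc 0 1))
    (hβc : ContinuousOn β (Icc 0 1)) (hβi : InjOn β (Icc 0 1))
    (hα0 : α 0 = D.pos u) (hα1 : α 1 = D.pos v) (hβ0 : β 0 = D.pos u) (hβ1 : β 1 = D.pos w)
    (hα : α '' Icc 0 1 = D.arc s(u, v)) (hβ : β '' Icc 0 1 = D.arc s(u, w))
    {t r t₂ r₂ : ℝ} (ht0 : 0 < t) (ht1 : t < 1) (hr0 : 0 < r) (hr1 : r < 1) (htr : α t = β r)
    (hlast : ∀ t' ∈ Ioc t 1, α t' ∉ β '' Icc 0 1) (ht20 : 0 < t₂) (ht2 : t₂ < t) (hr2 : r < r₂)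
    (hr21 : r₂ < 1) (htr2 : α t₂ = β r₂) (hfirst : ∀ t' ∈ Ico 0 t₂, α t' ∉ β '' Icc r 1) :
    ∃ D' : Drawing G, Better D D' s(u, v) s(u, w) := by
  have h00 : (0 : ℝ) ∈ Icc (0 : ℝ) 1 := ⟨le_rfl, zero_le_one⟩
  have h11 : (1 : ℝ) ∈ Icc (0 : ℝ) 1 := ⟨zero_le_one, le_rfl⟩
  have hne : s(u, v) ≠ s(u, w) := by
    intro h
    rw [Sym2.eq_iff] at h
    rcases h with ⟨_, h⟩ | ⟨h, h'⟩
    · exact hvw h
    · exact huw.ne h
  have heG : s(u, v) ∈ G.edgeSet := huv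
  have hfG : s(u, w) ∈ G.edgeSet := huw
  have hαsub : ∀ a b : ℝ, 0 ≤ a → b ≤ 1 → α '' Icc a b ⊆ D.arc s(u, v) := by
    intro a b ha hb
    rw [← hα]
    exact Set.image_mono (Icc_subset_Icc ha hb)
  have hβsub : ∀ a b : ℝ, 0 ≤ a → b ≤ 1 → β '' Icc a b ⊆ D.arc s(u, w) := by
    intro a b ha hb
    rw [← hβ]
    exact Set.image_mono (Icc_subset_Icc ha hb)
  have htI : t ∈ Icc (0 : ℝ) 1 := ⟨ht0.le, ht1.le⟩
  have hrI : r ∈ Icc (0 : ℝ) 1 := ⟨hr0.le, hr1.le⟩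
  have ht2I : t₂ ∈ Icc (0 : ℝ) 1 := ⟨ht20.le, (ht2.trans ht1).le⟩
  have hr2I : r₂ ∈ Icc (0 : ℝ) 1 := ⟨(hr0.trans hr2).le, hr21.le⟩
  -- common points which are not vertices
  have hnv : ∀ s ∈ Icc (0 : ℝ) 1, 0 < s → α s ∈ D.arc s(u, w) → α s ∉ range D.pos := by
    rintro s hs hs0 hsβ ⟨z, hz⟩
    have h1 : D.pos z ∈ D.arc s(u, v) := by
      rw [hz]
      exact hαsub 0 1 le_rfl le_rfl ⟨s, hs, rfl⟩
    have h2 : D.pos z ∈ D.arc s(u, w) := by
      rw [hz]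
      exact hsβ
    have h3 : z = u := by
      rcases D.avoid u v z huv h1 with h4 | h4
      · exact h4
      · rcases D.avoid u w z huw h2 with h5 | h5
        · exact h5
        · exact absurd (h4.symm.trans h5) hvw
    rw [h3, ← hα0] at hz
    exact hs0.ne (hαi h00 hs hz)
  have hαt : α t ∈ D.arc s(u, v) := hαsub 0 1 le_rfl le_rfl ⟨t, htI, rfl⟩
  have hαt' : α t ∈ D.arc s(u, w) := by
    rw [htr]
    exact hβsub 0 1 le_rfl le_rfl ⟨r, hrI, rfl⟩
  have hαt2 : α t₂ ∈ D.arc s(u, v) := hαsub 0 1 le_rfl le_rfl ⟨t₂, ht2I, rfl⟩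
  have hαt2' : α t₂ ∈ D.arc s(u, w) := by
    rw [htr2]
    exact hβsub 0 1 le_rfl le_rfl ⟨r₂, hr2I, rfl⟩
  have hnvt := hnv t htI ht0 hαt'
  have hnvt2 := hnv t₂ ht2I ht20 hαt2'
  refine repl D huv huw hne (β '' Icc 0 r ∪ α '' Icc t 1) (α '' Icc 0 t₂ ∪ β '' Icc r₂ 1)
    {α t, α t₂} (α t) ⟨⟨hαt, hαt'⟩, hnvt⟩ ?_ ?_ ?_ ?_ ?_ ?_ ?_ ?_ ?_ ?_ ?_ ?_
  · -- first arc
    rw [← hβ0, ← hα1]
    refine (isArc_sub hβc hβi le_rfl hr0 hr1.le).trans (b := β r) ?_ ?_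
    · rw [← htr]
      exact isArc_sub hαc hαi ht0.le ht1 le_rfl
    · rintro _ ⟨⟨s, hs, rfl⟩, ⟨s', hs', h1⟩⟩
      rw [Set.mem_singleton_iff, ← h1, ← htr]
      rcases hs'.1.eq_or_lt with h2 | h2
      · rw [h2]
      · exact absurd ⟨s, ⟨hs.1, hs.2.trans hr1.le⟩, h1.symm⟩ (hlast s' ⟨h2, hs'.2⟩)
  · -- second arc
    rw [← hα0, ← hβ1]
    refine (isArc_sub hαc hαi le_rfl ht20 (ht2.trans ht1).le).trans (b := α t₂) ?_ ?_
    · rw [htr2]
      exact isArc_sub hβc hβi (hr0.trans hr2).le hr21 le_rfl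
    · rintro _ ⟨⟨s, hs, rfl⟩, ⟨s', hs', h1⟩⟩
      rw [Set.mem_singleton_iff]
      rcases hs.2.eq_or_lt with h2 | h2
      · rw [h2]
      · exact absurd ⟨s', ⟨hr2.le.trans hs'.1, hs'.2⟩, h1⟩ (hfirst s ⟨hs.1, h2⟩)
  · intro g hg h1 h2
    rw [Set.disjoint_left]
    intro p hp hpg
    rcases hp with hp | hp
    · rw [hp] at hpg
      exact hnvt (D.no_triple _ heG _ hfG g hg hne h1.symm h2.symm _ ⟨hαt, hαt'⟩ hpg)
    · rw [Set.mem_singleton_iff.1 hp] at hpg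
      exact hnvt2 (D.no_triple _ heG _ hfG g hg hne h1.symm h2.symm _ ⟨hαt2, hαt2'⟩ hpg)
  · rw [Set.disjoint_left]
    intro p hp
    rcases hp with hp | hp
    · rw [hp]
      exact hnvt
    · rw [Set.mem_singleton_iff.1 hp]
      exact hnvt2
  · rintro p (hp | hp)
    · exact Or.inl (Or.inr (hβsub 0 r le_rfl hr1.le hp))
    · exact Or.inl (Or.inl (hαsub t 1 ht0.le le_rfl hp))
  · rintro p (hp | hp)
    · exact Or.inl (Or.inl (hαsub 0 t₂ le_rfl (ht2.trans ht1).le hp))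
    · exact Or.inl (Or.inr (hβsub r₂ 1 (hr0.trans hr2).le le_rfl hp))
  · rintro y (hp | hp)
    · rcases D.avoid u w y huw (hβsub 0 r le_rfl hr1.le hp) with h1 | h1
      · exact Or.inl h1
      · exfalso
        obtain ⟨s, hs, h2⟩ := hp
        rw [h1, ← hβ1] at h2
        have h3 := hβi ⟨hs.1, hs.2.trans hr1.le⟩ h11 h2
        exact absurd (h3 ▸ hs.2) (not_le.2 hr1)
    · exact D.avoid u v y huv (hαsub t 1 ht0.le le_rfl hp)
  · rintro y (hp | hp)
    · rcases D.avoid u v y huv (hαsub 0 t₂ le_rfl (ht2.trans ht1).le hp) with h1 | h1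
      · exact Or.inl h1
      · exfalso
        obtain ⟨s, hs, h2⟩ := hp
        rw [h1, ← hα1] at h2
        have h3 := hαi ⟨hs.1, hs.2.trans (ht2.trans ht1).le⟩ h11 h2
        exact absurd (h3 ▸ hs.2) (not_le.2 (ht2.trans ht1))
    · exact D.avoid u w y huw (hβsub r₂ 1 (hr0.trans hr2).le le_rfl hp)
  · -- locality of the first arc
    rintro p hp hpK _
    have hpt : p ≠ α t := fun h => hpK (Or.inl h)
    by_cases hpα : p ∈ α '' Icc t 1
    · obtain ⟨s, hs, rfl⟩ := hpα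
      have hst : t < s := lt_of_le_of_ne hs.1 (fun h => hpt (by rw [h]))
      refine ⟨(β '' Icc 0 1 ∪ α '' Icc 0 t)ᶜ, isOpen_compl_two hβc hαc le_rfl le_rfl le_rfl ht1.le,
        ?_, Or.inl (inter_compl_eq ?_)⟩
      · rintro (h1 | ⟨s', hs', h1⟩)
        · exact hlast s ⟨hst, hs.2⟩ h1
        · have h2 := hαi ⟨hs'.1, hs'.2.trans ht1.le⟩ ⟨ht0.le.trans hs.1, hs.2⟩ h1
          rw [h2] at hs'
          exact absurd hst (not_lt.2 hs'.2)
      · intro q hq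
        rw [← hα, image_split ht0.le ht1.le]
        constructor
        · rintro (h1 | h1)
          · exact absurd (Or.inl ((image_split hr0.le hr1.le).2 (Or.inl h1))) hq
          · exact Or.inr h1
        · rintro (h1 | h1)
          · exact absurd (Or.inr h1) hq
          · exact Or.inr h1
    · rcases hp with hp | hp
      · obtain ⟨s, hs, rfl⟩ := hp
        have hsr : s < r := lt_of_le_of_ne hs.2 (fun h => hpt (by rw [h, htr]))
        refine ⟨(β '' Icc r 1 ∪ α '' Icc t 1)ᶜ, isOpen_compl_two hβc hαc hr0.le le_rfl ht0.le le_rfl,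
          ?_, Or.inr (inter_compl_eq ?_)⟩
        · rintro (⟨s', hs', h1⟩ | h1)
          · have h2 := hβi ⟨hr0.le.trans hs'.1, hs'.2⟩ ⟨hs.1, hs.2.trans hr1.le⟩ h1
            rw [h2] at hs'
            exact absurd hsr (not_lt.2 hs'.1)
          · exact hpα h1
        · intro q hq
          rw [← hβ, image_split hr0.le hr1.le]
          constructor
          · rintro (h1 | h1)
            · exact Or.inl h1
            · exact absurd (Or.inr h1) hq
          · rintro (h1 | h1)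
            · exact Or.inl h1
            · exact absurd (Or.inl h1) hq
      · exact absurd hp hpα
  · -- locality of the second arc
    rintro p hp hpK _
    have hpt : p ≠ α t₂ := fun h => hpK (Or.inr h)
    rcases hp with ⟨s, hs, rfl⟩ | ⟨s, hs, rfl⟩
    · have hst : s < t₂ := lt_of_le_of_ne hs.2 (fun h => hpt (by rw [h]))
      refine ⟨(β '' Icc r₂ 1 ∪ α '' Icc t₂ 1)ᶜ,
        isOpen_compl_two hβc hαc (hr0.trans hr2).le le_rfl ht20.le le_rfl,
        ?_, Or.inl (inter_compl_eq ?_)⟩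
      · rintro (⟨s', hs', h1⟩ | ⟨s', hs', h1⟩)
        · exact hfirst s ⟨hs.1, hst⟩ ⟨s', ⟨hr2.le.trans hs'.1, hs'.2⟩, h1⟩
        · have h2 := hαi ⟨ht20.le.trans hs'.1, hs'.2⟩ ⟨hs.1, hs.2.trans (ht2.trans ht1).le⟩ h1
          rw [h2] at hs'
          exact absurd hst (not_lt.2 hs'.1)
      · intro q hq
        rw [← hα, image_split ht20.le (ht2.trans ht1).le]
        constructor
        · rintro (h1 | h1)
          · exact Or.inl h1
          · exact absurd (Or.inl h1) hq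
        · rintro (h1 | h1)
          · exact Or.inl h1
          · exact absurd (Or.inr h1) hq
    · have hst : r₂ < s := lt_of_le_of_ne hs.1 (fun h => hpt (by rw [← h, htr2]))
      refine ⟨(α '' Icc 0 t₂ ∪ β '' Icc 0 r₂)ᶜ,
        isOpen_compl_two hαc hβc le_rfl (ht2.trans ht1).le le_rfl hr21.le,
        ?_, Or.inr (inter_compl_eq ?_)⟩
      · rintro (⟨s', hs', h1⟩ | ⟨s', hs', h1⟩)
        · rcases hs'.2.eq_or_lt with h2 | h2
          · rw [h2, htr2] at h1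
            have h3 := hβi hr2I ⟨(hr0.trans hr2).le.trans hs.1, hs.2⟩ h1
            exact hst.ne h3
          · exact hfirst s' ⟨hs'.1, h2⟩ ⟨s, ⟨hr2.le.trans hs.1, hs.2⟩, h1.symm⟩
        · have h2 := hβi ⟨hs'.1, hs'.2.trans hr21.le⟩ ⟨(hr0.trans hr2).le.trans hs.1, hs.2⟩ h1
          rw [h2] at hs'
          exact absurd hst (not_lt.2 hs'.2)
      · intro q hq
        rw [← hβ, image_split (hr0.trans hr2).le hr21.le]
        constructor
        · rintro (h1 | h1)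
          · exact absurd (Or.inl h1) hq
          · exact Or.inr h1
        · rintro (h1 | h1)
          · exact absurd (Or.inr h1) hq
          · exact Or.inr h1
  · -- common points of the new arcs
    rintro p ⟨⟨s, hs, rfl⟩ | ⟨s, hs, rfl⟩, ⟨s', hs', h1⟩ | ⟨s', hs', h1⟩⟩
    · refine ⟨⟨?_, hβsub 0 r le_rfl hr1.le ⟨s, hs, rfl⟩⟩, ?_⟩
      · rw [← h1]
        exact hαsub 0 t₂ le_rfl (ht2.trans ht1).le ⟨s', hs', rfl⟩
      · rw [Set.mem_singleton_iff, ← h1]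
        intro h2
        have h3 := hαi ⟨hs'.1, hs'.2.trans (ht2.trans ht1).le⟩ htI h2
        rw [h3] at hs'
        exact absurd ht2 (not_lt.2 hs'.2)
    · exfalso
      have h3 := hβi ⟨(hr0.trans hr2).le.trans hs'.1, hs'.2⟩ ⟨hs.1, hs.2.trans hr1.le⟩ h1
      rw [h3] at hs'
      exact absurd (hr2.trans_le hs'.1) (not_lt.2 hs.2)
    · exfalso
      have h3 := hαi ⟨hs'.1, hs'.2.trans (ht2.trans ht1).le⟩ ⟨ht0.le.trans hs.1, hs.2⟩ h1
      rw [h3] at hs'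
      exact absurd (ht2.trans_le hs.1) (not_lt.2 hs'.2)
    · exfalso
      rcases hs.1.eq_or_lt with h2 | h2
      · rw [← h2, htr] at h1
        have h3 := hβi ⟨(hr0.trans hr2).le.trans hs'.1, hs'.2⟩ hrI h1
        rw [h3] at hs'
        exact absurd hr2 (not_lt.2 hs'.1)
      · exact hlast s ⟨h2, hs.2⟩ ⟨s', ⟨(hr0.trans hr2).le.trans hs'.1, hs'.2⟩, h1⟩
  · -- locality at the common points
    rintro p ⟨⟨s, hs, rfl⟩ | ⟨s, hs, rfl⟩, ⟨s', hs', h1⟩ | ⟨s', hs', h1⟩⟩ _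
    · have hsr : s < r := by
        refine lt_of_le_of_ne hs.2 fun h2 => ?_
        rw [h2, ← htr] at h1
        have h3 := hαi ⟨hs'.1, hs'.2.trans (ht2.trans ht1).le⟩ htI h1
        rw [h3] at hs'
        exact absurd ht2 (not_lt.2 hs'.2)
      have hst : s' < t₂ := by
        refine lt_of_le_of_ne hs'.2 fun h2 => ?_
        rw [h2, htr2] at h1
        have h3 := hβi hr2I ⟨hs.1, hs.2.trans hr1.le⟩ h1
        rw [← h3] at hs
        exact absurd hr2 (not_lt.2 hs.2)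
      refine ⟨(β '' Icc r 1 ∪ α '' Icc t₂ 1)ᶜ,
        isOpen_compl_two hβc hαc hr0.le le_rfl ht20.le le_rfl, ?_,
        Or.inl ⟨inter_compl_eq ?_, inter_compl_eq ?_⟩⟩
      · rintro (⟨q, hq, h2⟩ | ⟨q, hq, h2⟩)
        · have h3 := hβi ⟨hr0.le.trans hq.1, hq.2⟩ ⟨hs.1, hs.2.trans hr1.le⟩ h2
          rw [h3] at hq
          exact absurd hsr (not_lt.2 hq.1)
        · rw [← h1] at h2
          have h3 := hαi ⟨ht20.le.trans hq.1, hq.2⟩ ⟨hs'.1, hs'.2.trans (ht2.trans ht1).le⟩ h2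
          rw [h3] at hq
          exact absurd hst (not_lt.2 hq.1)
      · intro q hq
        rw [← hβ, image_split hr0.le hr1.le]
        constructor
        · rintro (h2 | h2)
          · exact Or.inl h2
          · exact absurd (Or.inr (Set.image_mono (Icc_subset_Icc_left ht2.le) h2)) hq
        · rintro (h2 | h2)
          · exact Or.inl h2
          · exact absurd (Or.inl h2) hq
      · intro q hq
        rw [← hα, image_split ht20.le (ht2.trans ht1).le]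
        constructor
        · rintro (h2 | h2)
          · exact Or.inl h2
          · exact absurd (Or.inl (Set.image_mono (Icc_subset_Icc_left hr2.le) h2)) hq
        · rintro (h2 | h2)
          · exact Or.inl h2
          · exact absurd (Or.inr h2) hq
    · exfalso
      have h3 := hβi ⟨(hr0.trans hr2).le.trans hs'.1, hs'.2⟩ ⟨hs.1, hs.2.trans hr1.le⟩ h1
      rw [h3] at hs'
      exact absurd (hr2.trans_le hs'.1) (not_lt.2 hs.2)
    · exfalso
      have h3 := hαi ⟨hs'.1, hs'.2.trans (ht2.trans ht1).le⟩ ⟨ht0.le.trans hs.1, hs.2⟩ h1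
      rw [h3] at hs'
      exact absurd (ht2.trans_le hs.1) (not_lt.2 hs'.2)
    · exfalso
      rcases hs.1.eq_or_lt with h2 | h2
      · rw [← h2, htr] at h1
        have h3 := hβi ⟨(hr0.trans hr2).le.trans hs'.1, hs'.2⟩ hrI h1
        rw [h3] at hs'
        exact absurd hr2 (not_lt.2 hs'.1)
      · exact hlast s ⟨h2, hs.2⟩ ⟨s', ⟨(hr0.trans hr2).le.trans hs'.1, hs'.2⟩, h1⟩

end H29.BP
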