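import Pool.Agent.H29.BP.Unc

/-!
# [H29 BP UNCB] crossings of adjacent edges can be removed, case 2 and assembly

See `Unc.lean` for the paper proof of case 2. `unc`: parametrise both arcs (`Drawing.isArc`),
apply `sel` (`α 1 = pos v ∉ arc s(u, w)` by `avoid`, ...) and case 1 or case 2. The crossing
`D.X s(u,v) s(u,w)` is not empty, so there is a common point which is not a vertex; it is
different from `α 0 = pos u`.
-/

set_option autoImplicit false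

open Set

namespace H29.BP

variable {V : Type} [Finite V] {G : SimpleGraph V}

omit [Finite V] in
theorem isOpen_compl_three {α β : ℝ → ℂ} (hαc : ContinuousOn α (Icc 0 1))
    (hβc : ContinuousOn β (Icc 0 1)) {a b c d : ℝ} (ha : 0 ≤ a) (hb : b ≤ 1) (hc : 0 ≤ c)
    (hd : d ≤ 1) {κ : Set ℂ} (hκ : IsCompact κ) :
    IsOpen (α '' Icc a b ∪ β '' Icc c d ∪ κ)ᶜ := by
  rw [Set.compl_union]
  exact (isOpen_compl_two hαc hβc ha hb hc hd).inter hκ.isClosed.isOpen_compl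

/-- case 2: both switching points are the same crossing -/
theorem unc2 (D : Drawing G) {u v w : V} (huv : G.Adj u v) (huw : G.Adj u w) (hvw : v ≠ w)
    {α β : ℝ → ℂ} (hαc : ContinuousOn α (Icc 0 1)) (hαi : InjOn α (Icc 0 1))
    (hβc : ContinuousOn β (Icc 0 1)) (hβi : InjOn β (Icc 0 1))
    (hα0 : α 0 = D.pos u) (hα1 : α 1 = D.pos v) (hβ0 : β 0 = D.pos u) (hβ1 : β 1 = D.pos w)
    (hα : α '' Icc 0 1 = D.arc s(u, v)) (hβ : β '' Icc 0 1 = D.arc s(u, w))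
    {t r : ℝ} (ht0 : 0 < t) (ht1 : t < 1) (hr0 : 0 < r) (hr1 : r < 1) (htr : α t = β r)
    (hlast : ∀ t' ∈ Ioc t 1, α t' ∉ β '' Icc 0 1)
    (hfirst : ∀ t' ∈ Ico 0 t, α t' ∉ β '' Icc r 1) :
    ∃ D' : Drawing G, Better D D' s(u, v) s(u, w) := by
  have h00 : (0 : ℝ) ∈ Icc (0 : ℝ) 1 := ⟨le_rfl, zero_le_one⟩
  have h11 : (1 : ℝ) ∈ Icc (0 : ℝ) 1 := ⟨zero_le_one, le_rfl⟩
  have hne : s(u, v) ≠ s(u, w) := by
    intro h
    rw [Sym2.eq_iff] at h
    rcases h with ⟨_, h⟩ | ⟨h, h'⟩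
    · exact hvw h
    · exact huw.ne h
  have heG : s(u, v) ∈ G.edgeSet := huv
  have hfG : s(u, w) ∈ G.edgeSet := huw
  have hαsub : ∀ a b : ℝ, 0 ≤ a → b ≤ 1 → α '' Icc a b ⊆ D.arc s(u, v) := by
    intro a b ha hb
    rw [← hα]
    exact Set.image_mono (Icc_subset_Icc ha hb)
  have hβsub : ∀ a b : ℝ, 0 ≤ a → b ≤ 1 → β '' Icc a b ⊆ D.arc s(u, w) := by
    intro a b ha hb
    rw [← hβ]
    exact Set.image_mono (Icc_subset_Icc ha hb)
  have htI : t ∈ Icc (0 : ℝ) 1 := ⟨ht0.le, ht1.le⟩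
  have hrI : r ∈ Icc (0 : ℝ) 1 := ⟨hr0.le, hr1.le⟩
  have hαt : α t ∈ D.arc s(u, v) := hαsub 0 1 le_rfl le_rfl ⟨t, htI, rfl⟩
  have hαt' : α t ∈ D.arc s(u, w) := by
    rw [htr]
    exact hβsub 0 1 le_rfl le_rfl ⟨r, hrI, rfl⟩
  have hnvt : α t ∉ range D.pos := by
    rintro ⟨z, hz⟩
    have h1 : D.pos z ∈ D.arc s(u, v) := by rw [hz]; exact hαt
    have h2 : D.pos z ∈ D.arc s(u, w) := by rw [hz]; exact hαt'
    have h3 : z = u := by
      rcases D.avoid u v z huv h1 with h4 | h4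
      · exact h4
      · rcases D.avoid u w z huw h2 with h5 | h5
        · exact h5
        · exact absurd (h4.symm.trans h5) hvw
    rw [h3, ← hα0] at hz
    exact ht0.ne (hαi h00 htI hz)
  -- the closed set
  set C : Set ℂ := (⋃ g ∈ {g | g ∈ G.edgeSet ∧ g ≠ s(u, v) ∧ g ≠ s(u, w)}, D.arc g) ∪
    range D.pos with hC
  have hCc : IsClosed C := by
    have h1 : IsCompact C := by
      refine IsCompact.union (Set.Finite.isCompact_biUnion (Set.toFinite _) ?_)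
        (Set.finite_range _).isCompact
      rintro g ⟨hg, _⟩
      induction g using Sym2.ind with
      | _ a b => exact (D.isArc a b hg).isCompact
    exact h1.isClosed
  have htC : α t ∉ C := by
    rintro (h1 | h1)
    · obtain ⟨g, ⟨hg, h2, h3⟩, h4⟩ := Set.mem_iUnion₂.1 h1
      exact hnvt (D.no_triple _ heG _ hfG g hg hne h2.symm h3.symm _ ⟨hαt, hαt'⟩ h4)
    · exact hnvt h1
  have hX : CrossAt (α '' Icc 0 1) (β '' Icc 0 1) (α t) := by
    rw [hα, hβ]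
    exact D.proper _ heG _ hfG hne _ ⟨hαt, hαt'⟩ hnvt
  obtain ⟨t₁, t₃, r₁, r₃, κ, κ', ht₁0, ht₁, ht₃, ht₃1, hr₁0, hr₁, hr₃, hr₃1, hκa, hκa', hκκ,
    hκα, hκβ, hκα', hκβ', hκC, hκC'⟩ := cut hαc hαi hβc hβi ⟨ht0, ht1⟩ ⟨hr0, hr1⟩ htr hX C hCc htC
  rw [hα] at hκα hκα'
  rw [hβ] at hκβ hκβ'
  have hκc := hκa.isCompact
  have hκc' := hκa'.isCompact
  have hK1 : ∀ p ∈ κ ∪ κ', p ∉ C := by
    rintro p (hp | hp)
    · exact Set.disjoint_left.1 hκC hp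
    · exact Set.disjoint_left.1 hκC' hp
  have hr₁1 : r₁ ≤ 1 := (hr₁.trans hr1).le
  have ht₁1 : t₁ ≤ 1 := (ht₁.trans ht1).le
  have hr₃0 : 0 ≤ r₃ := (hr0.trans hr₃).le
  have ht₃0 : 0 ≤ t₃ := (ht0.trans ht₃).le
  -- excluded coincidences
  have x1 : ∀ s, s ∈ Icc t₃ 1 → ∀ s' ∈ Icc (0 : ℝ) 1, α s ≠ β s' := by
    intro s hs s' hs' h
    exact hlast s ⟨ht₃.trans_le hs.1, hs.2⟩ ⟨s', hs', h.symm⟩
  have x2 : ∀ s ∈ Icc 0 t₁, ∀ s' ∈ Icc r₃ 1, α s ≠ β s' := by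
    intro s hs s' hs' h
    exact hfirst s ⟨hs.1, hs.2.trans_lt ht₁⟩ ⟨s', ⟨hr₃.le.trans hs'.1, hs'.2⟩, h.symm⟩
  have x3 : ∀ s ∈ Icc (0 : ℝ) 1, α s ∈ κ → s = t₃ := by
    intro s hs h
    have h1 := hκα ⟨h, hαsub 0 1 le_rfl le_rfl ⟨s, hs, rfl⟩⟩
    exact hαi hs ⟨ht₃0, ht₃1.le⟩ h1
  have x4 : ∀ s ∈ Icc (0 : ℝ) 1, β s ∈ κ → s = r₁ := by
    intro s hs h
    have h1 := hκβ ⟨h, hβsub 0 1 le_rfl le_rfl ⟨s, hs, rfl⟩⟩
    exact hβi hs ⟨hr₁0.le, hr₁1⟩ h1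
  have x5 : ∀ s ∈ Icc (0 : ℝ) 1, α s ∈ κ' → s = t₁ := by
    intro s hs h
    have h1 := hκα' ⟨h, hαsub 0 1 le_rfl le_rfl ⟨s, hs, rfl⟩⟩
    exact hαi hs ⟨ht₁0.le, ht₁1⟩ h1
  have x6 : ∀ s ∈ Icc (0 : ℝ) 1, β s ∈ κ' → s = r₃ := by
    intro s hs h
    have h1 := hκβ' ⟨h, hβsub 0 1 le_rfl le_rfl ⟨s, hs, rfl⟩⟩
    exact hβi hs ⟨hr₃0, hr₃1.le⟩ h1
  -- the only common points of the new arcs
  have hcom : ∀ p, p ∈ β '' Icc 0 r₁ ∪ κ ∪ α '' Icc t₃ 1 → p ∈ α '' Icc 0 t₁ ∪ κ' ∪ β '' Icc r₃ 1 →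
      ∃ s ∈ Icc 0 r₁, ∃ s' ∈ Icc 0 t₁, β s = p ∧ α s' = p := by
    rintro p ((⟨s, hs, rfl⟩ | hp) | ⟨s, hs, rfl⟩) ((⟨s', hs', h1⟩ | hp') | ⟨s', hs', h1⟩)
    · exact ⟨s, hs, s', hs', rfl, h1⟩
    · exfalso
      have h2 := x6 s ⟨hs.1, hs.2.trans hr₁1⟩ hp'
      rw [h2] at hs
      exact absurd (hr₁.trans hr₃) (not_lt.2 hs.2)
    · exfalso
      have h2 := hβi ⟨hr₃0.trans hs'.1, hs'.2⟩ ⟨hs.1, hs.2.trans hr₁1⟩ h1
      rw [h2] at hs'
      exact absurd ((hr₁.trans hr₃).trans_le hs'.1) (not_lt.2 hs.2)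
    · exfalso
      rw [← h1] at hp
      have h2 := x3 s' ⟨hs'.1, hs'.2.trans ht₁1⟩ hp
      rw [h2] at hs'
      exact absurd (ht₁.trans ht₃) (not_lt.2 hs'.2)
    · exact absurd hp' (Set.disjoint_left.1 hκκ hp)
    · exfalso
      rw [← h1] at hp
      have h2 := x4 s' ⟨hr₃0.trans hs'.1, hs'.2⟩ hp
      rw [h2] at hs'
      exact absurd (hr₁.trans hr₃) (not_lt.2 hs'.1)
    · exfalso
      have h2 := hαi ⟨hs'.1, hs'.2.trans ht₁1⟩ ⟨ht₃0.trans hs.1, hs.2⟩ h1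
      rw [h2] at hs'
      exact absurd ((ht₁.trans ht₃).trans_le hs.1) (not_lt.2 hs'.2)
    · exfalso
      have h2 := x5 s ⟨ht₃0.trans hs.1, hs.2⟩ hp'
      rw [h2] at hs
      exact absurd (ht₁.trans ht₃) (not_lt.2 hs.1)
    · exact absurd h1.symm (x1 s hs s' ⟨hr₃0.trans hs'.1, hs'.2⟩)
  refine repl D huv huw hne (β '' Icc 0 r₁ ∪ κ ∪ α '' Icc t₃ 1) (α '' Icc 0 t₁ ∪ κ' ∪ β '' Icc r₃ 1)
    (κ ∪ κ') (α t) ⟨⟨hαt, hαt'⟩, hnvt⟩ ?_ ?_ ?_ ?_ ?_ ?_ ?_ ?_ ?_ ?_ ?_ ?_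
  · -- first arc
    rw [← hβ0, ← hα1]
    refine ((isArc_sub hβc hβi le_rfl hr₁0 hr₁1).trans hκa ?_).trans
      (isArc_sub hαc hαi ht₃0 ht₃1 le_rfl) ?_
    · rintro _ ⟨⟨s, hs, rfl⟩, h1⟩
      rw [Set.mem_singleton_iff, x4 s ⟨hs.1, hs.2.trans hr₁1⟩ h1]
    · rintro _ ⟨h1, ⟨s, hs, rfl⟩⟩
      rcases h1 with ⟨s', hs', h1⟩ | h1
      · exact absurd h1.symm (x1 s hs s' ⟨hs'.1, hs'.2.trans hr₁1⟩)
      · rw [Set.mem_singleton_iff, x3 s ⟨ht₃0.trans hs.1, hs.2⟩ h1]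
  · -- second arc
    rw [← hα0, ← hβ1]
    refine ((isArc_sub hαc hαi le_rfl ht₁0 ht₁1).trans hκa' ?_).trans
      (isArc_sub hβc hβi hr₃0 hr₃1 le_rfl) ?_
    · rintro _ ⟨⟨s, hs, rfl⟩, h1⟩
      rw [Set.mem_singleton_iff, x5 s ⟨hs.1, hs.2.trans ht₁1⟩ h1]
    · rintro _ ⟨h1, ⟨s, hs, rfl⟩⟩
      rcases h1 with ⟨s', hs', h1⟩ | h1
      · exact absurd h1 (x2 s' hs' s hs)
      · rw [Set.mem_singleton_iff, x6 s ⟨hr₃0.trans hs.1, hs.2⟩ h1]
  · intro g hg h1 h2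
    rw [Set.disjoint_left]
    intro p hp hpg
    exact hK1 p hp (Or.inl (Set.mem_iUnion₂.2 ⟨g, ⟨hg, h1, h2⟩, hpg⟩))
  · rw [Set.disjoint_left]
    intro p hp hpg
    exact hK1 p hp (Or.inr hpg)
  · rintro p ((hp | hp) | hp)
    · exact Or.inl (Or.inr (hβsub 0 r₁ le_rfl hr₁1 hp))
    · exact Or.inr (Or.inl hp)
    · exact Or.inl (Or.inl (hαsub t₃ 1 ht₃0 le_rfl hp))
  · rintro p ((hp | hp) | hp)
    · exact Or.inl (Or.inl (hαsub 0 t₁ le_rfl ht₁1 hp))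
    · exact Or.inr (Or.inr hp)
    · exact Or.inl (Or.inr (hβsub r₃ 1 hr₃0 le_rfl hp))
  · rintro y ((hp | hp) | hp)
    · rcases D.avoid u w y huw (hβsub 0 r₁ le_rfl hr₁1 hp) with h1 | h1
      · exact Or.inl h1
      · exfalso
        obtain ⟨s, hs, h2⟩ := hp
        rw [h1, ← hβ1] at h2
        have h3 := hβi ⟨hs.1, hs.2.trans hr₁1⟩ h11 h2
        exact absurd (h3 ▸ hs.2) (not_le.2 (hr₁.trans hr1))
    · exact absurd (Or.inr ⟨y, rfl⟩) (hK1 _ (Or.inl hp))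
    · exact D.avoid u v y huv (hαsub t₃ 1 ht₃0 le_rfl hp)
  · rintro y ((hp | hp) | hp)
    · rcases D.avoid u v y huv (hαsub 0 t₁ le_rfl ht₁1 hp) with h1 | h1
      · exact Or.inl h1
      · exfalso
        obtain ⟨s, hs, h2⟩ := hp
        rw [h1, ← hα1] at h2
        have h3 := hαi ⟨hs.1, hs.2.trans ht₁1⟩ h11 h2
        exact absurd (h3 ▸ hs.2) (not_le.2 (ht₁.trans ht1))
    · exact absurd (Or.inr ⟨y, rfl⟩) (hK1 _ (Or.inr hp))
    · exact D.avoid u w y huw (hβsub r₃ 1 hr₃0 le_rfl hp)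
  · -- locality of the first arc
    rintro p hp hpK _
    rcases hp with (⟨s, hs, rfl⟩ | hp) | ⟨s, hs, rfl⟩
    · have hsr : s < r₁ := by
        refine lt_of_le_of_ne hs.2 fun h => hpK (Or.inl ?_)
        rw [h]
        exact hκa.left_mem
      refine ⟨(β '' Icc r₁ 1 ∪ α '' Icc t₃ 1 ∪ κ)ᶜ,
        isOpen_compl_three hβc hαc hr₁0.le le_rfl ht₃0 le_rfl hκc,
        ?_, Or.inr (inter_compl_eq ?_)⟩
      · rintro ((⟨s', hs', h1⟩ | ⟨s', hs', h1⟩) | h1)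
        · have h2 := hβi ⟨hr₁0.le.trans hs'.1, hs'.2⟩ ⟨hs.1, hs.2.trans hr₁1⟩ h1
          rw [h2] at hs'
          exact absurd hsr (not_lt.2 hs'.1)
        · exact x1 s' hs' s ⟨hs.1, hs.2.trans hr₁1⟩ h1
        · exact hpK (Or.inl h1)
      · intro q hq
        rw [← hβ, image_split hr₁0.le hr₁1]
        constructor
        · rintro ((h1 | h1) | h1)
          · exact Or.inl h1
          · exact absurd (Or.inr h1) hq
          · exact absurd (Or.inl (Or.inr h1)) hq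
        · rintro (h1 | h1)
          · exact Or.inl (Or.inl h1)
          · exact absurd (Or.inl (Or.inl h1)) hq
    · exact absurd (Or.inl hp) hpK
    · have hst : t₃ < s := by
        refine lt_of_le_of_ne hs.1 fun h => hpK (Or.inl ?_)
        rw [← h]
        exact hκa.right_mem
      refine ⟨(β '' Icc 0 1 ∪ α '' Icc 0 t₃ ∪ κ)ᶜ,
        isOpen_compl_three hβc hαc le_rfl le_rfl le_rfl ht₃1.le hκc,
        ?_, Or.inl (inter_compl_eq ?_)⟩
      · rintro ((⟨s', hs', h1⟩ | ⟨s', hs', h1⟩) | h1)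
        · exact x1 s hs s' hs' h1.symm
        · have h2 := hαi ⟨hs'.1, hs'.2.trans ht₃1.le⟩ ⟨ht₃0.trans hs.1, hs.2⟩ h1
          rw [h2] at hs'
          exact absurd hst (not_lt.2 hs'.2)
        · exact hpK (Or.inl h1)
      · intro q hq
        rw [← hα, image_split ht₃0 ht₃1.le]
        constructor
        · rintro ((h1 | h1) | h1)
          · exact absurd (Or.inl (Or.inl ((image_split hr₁0.le hr₁1).2 (Or.inl h1)))) hq
          · exact absurd (Or.inr h1) hq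
          · exact Or.inr h1
        · rintro (h1 | h1)
          · exact absurd (Or.inl (Or.inr h1)) hq
          · exact Or.inr h1
  · -- locality of the second arc
    rintro p hp hpK _
    rcases hp with (⟨s, hs, rfl⟩ | hp) | ⟨s, hs, rfl⟩
    · have hst : s < t₁ := by
        refine lt_of_le_of_ne hs.2 fun h => hpK (Or.inr ?_)
        rw [h]
        exact hκa'.left_mem
      refine ⟨(β '' Icc r₃ 1 ∪ α '' Icc t₁ 1 ∪ κ')ᶜ,
        isOpen_compl_three hβc hαc hr₃0 le_rfl ht₁0.le le_rfl hκc',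
        ?_, Or.inl (inter_compl_eq ?_)⟩
      · rintro ((⟨s', hs', h1⟩ | ⟨s', hs', h1⟩) | h1)
        · exact x2 s hs s' hs' h1.symm
        · have h2 := hαi ⟨ht₁0.le.trans hs'.1, hs'.2⟩ ⟨hs.1, hs.2.trans ht₁1⟩ h1
          rw [h2] at hs'
          exact absurd hst (not_lt.2 hs'.1)
        · exact hpK (Or.inr h1)
      · intro q hq
        rw [← hα, image_split ht₁0.le ht₁1]
        constructor
        · rintro ((h1 | h1) | h1)
          · exact Or.inl h1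
          · exact absurd (Or.inr h1) hq
          · exact absurd (Or.inl (Or.inl h1)) hq
        · rintro (h1 | h1)
          · exact Or.inl (Or.inl h1)
          · exact absurd (Or.inl (Or.inr h1)) hq
    · exact absurd (Or.inr hp) hpK
    · have hst : r₃ < s := by
        refine lt_of_le_of_ne hs.1 fun h => hpK (Or.inr ?_)
        rw [← h]
        exact hκa'.right_mem
      refine ⟨(α '' Icc 0 t₁ ∪ β '' Icc 0 r₃ ∪ κ')ᶜ,
        isOpen_compl_three hαc hβc le_rfl ht₁1 le_rfl hr₃1.le hκc',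
        ?_, Or.inr (inter_compl_eq ?_)⟩
      · rintro ((⟨s', hs', h1⟩ | ⟨s', hs', h1⟩) | h1)
        · exact x2 s' hs' s hs h1
        · have h2 := hβi ⟨hs'.1, hs'.2.trans hr₃1.le⟩ ⟨hr₃0.trans hs.1, hs.2⟩ h1
          rw [h2] at hs'
          exact absurd hst (not_lt.2 hs'.2)
        · exact hpK (Or.inr h1)
      · intro q hq
        rw [← hβ, image_split hr₃0 hr₃1.le]
        constructor
        · rintro ((h1 | h1) | h1)
          · exact absurd (Or.inl (Or.inl h1)) hq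
          · exact absurd (Or.inr h1) hq
          · exact Or.inr h1
        · rintro (h1 | h1)
          · exact absurd (Or.inl (Or.inr h1)) hq
          · exact Or.inr h1
  · -- common points of the new arcs
    rintro p ⟨hp, hp'⟩
    obtain ⟨s, hs, s', hs', h1, h2⟩ := hcom p hp hp'
    refine ⟨⟨?_, ?_⟩, ?_⟩
    · rw [← h2]
      exact hαsub 0 t₁ le_rfl ht₁1 ⟨s', hs', rfl⟩
    · rw [← h1]
      exact hβsub 0 r₁ le_rfl hr₁1 ⟨s, hs, rfl⟩
    · rw [Set.mem_singleton_iff, ← h2]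
      intro h3
      have h4 := hαi ⟨hs'.1, hs'.2.trans ht₁1⟩ htI h3
      rw [h4] at hs'
      exact absurd ht₁ (not_lt.2 hs'.2)
  · -- locality at the common points
    rintro p ⟨hp, hp'⟩ _
    obtain ⟨s, hs, s', hs', h1, h2⟩ := hcom p hp hp'
    have hpκ : p ∉ κ := by
      intro h3
      rw [← h2] at h3
      have h4 := x3 s' ⟨hs'.1, hs'.2.trans ht₁1⟩ h3
      rw [h4] at hs'
      exact absurd (ht₁.trans ht₃) (not_lt.2 hs'.2)
    have hpκ' : p ∉ κ' := by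
      intro h3
      rw [← h1] at h3
      have h4 := x6 s ⟨hs.1, hs.2.trans hr₁1⟩ h3
      rw [h4] at hs
      exact absurd (hr₁.trans hr₃) (not_lt.2 hs.2)
    have hsr : s < r₁ := by
      refine lt_of_le_of_ne hs.2 fun h => hpκ ?_
      rw [← h1, h]
      exact hκa.left_mem
    have hst : s' < t₁ := by
      refine lt_of_le_of_ne hs'.2 fun h => hpκ' ?_
      rw [← h2, h]
      exact hκa'.left_mem
    refine ⟨(β '' Icc r₁ 1 ∪ α '' Icc t₁ 1 ∪ (κ ∪ κ'))ᶜ,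
      isOpen_compl_three hβc hαc hr₁0.le le_rfl ht₁0.le le_rfl (hκc.union hκc'), ?_,
      Or.inl ⟨inter_compl_eq ?_, inter_compl_eq ?_⟩⟩
    · rintro ((⟨q, hq, h3⟩ | ⟨q, hq, h3⟩) | (h3 | h3))
      · rw [← h1] at h3
        have h4 := hβi ⟨hr₁0.le.trans hq.1, hq.2⟩ ⟨hs.1, hs.2.trans hr₁1⟩ h3
        rw [h4] at hq
        exact absurd hsr (not_lt.2 hq.1)
      · rw [← h2] at h3
        have h4 := hαi ⟨ht₁0.le.trans hq.1, hq.2⟩ ⟨hs'.1, hs'.2.trans ht₁1⟩ h3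
        rw [h4] at hq
        exact absurd hst (not_lt.2 hq.1)
      · exact hpκ h3
      · exact hpκ' h3
    · intro q hq
      rw [← hβ, image_split hr₁0.le hr₁1]
      constructor
      · rintro ((h3 | h3) | h3)
        · exact Or.inl h3
        · exact absurd (Or.inr (Or.inl h3)) hq
        · exact absurd (Or.inl (Or.inr
            (Set.image_mono (Icc_subset_Icc_left (ht₁.trans ht₃).le) h3))) hq
      · rintro (h3 | h3)
        · exact Or.inl (Or.inl h3)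
        · exact absurd (Or.inl (Or.inl h3)) hq
    · intro q hq
      rw [← hα, image_split ht₁0.le ht₁1]
      constructor
      · rintro ((h3 | h3) | h3)
        · exact Or.inl h3
        · exact absurd (Or.inr (Or.inr h3)) hq
        · exact absurd (Or.inl (Or.inl
            (Set.image_mono (Icc_subset_Icc_left (hr₁.trans hr₃).le) h3))) hq
      · rintro (h3 | h3)
        · exact Or.inl (Or.inl h3)
        · exact absurd (Or.inl (Or.inr h3)) hq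

theorem unc (D : Drawing G) {u v w : V} (huv : G.Adj u v) (huw : G.Adj u w) (hvw : v ≠ w)
    (h : (D.X s(u, v) s(u, w)).Nonempty) :
    ∃ D' : Drawing G, Better D D' s(u, v) s(u, w) := by
  obtain ⟨α, hαc, hαi, hα0, hα1, hα⟩ := D.isArc u v huv
  obtain ⟨β, hβc, hβi, hβ0, hβ1, hβ⟩ := D.isArc u w huw
  have h00 : (0 : ℝ) ∈ Icc (0 : ℝ) 1 := ⟨le_rfl, zero_le_one⟩
  have h11 : (1 : ℝ) ∈ Icc (0 : ℝ) 1 := ⟨zero_le_one, le_rfl⟩
  have hne : s(u, v) ≠ s(u, w) := by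
    intro h
    rw [Sym2.eq_iff] at h
    rcases h with ⟨_, h⟩ | ⟨h, h'⟩
    · exact hvw h
    · exact huw.ne h
  obtain ⟨p, hp, hpp⟩ := h
  obtain ⟨t, r, t₂, r₂, ht0, ht1, hr0, hr1, htr, hlast, ht20, ht2, hr2, hr21, htr2, hfirst, hlt⟩ :=
    sel (α := α) (β := β) hαi hβi (hα0.trans hβ0.symm)
      (by
        rw [hβ, hα1]
        intro h1
        rcases D.avoid u w v huw h1 with h2 | h2
        · exact huv.ne h2.symm
        · exact hvw h2)
      (by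
        rw [hα, hβ1]
        intro h1
        rcases D.avoid u v w huv h1 with h2 | h2
        · exact huw.ne h2.symm
        · exact hvw h2.symm)
      (by
        rw [hα, hβ]
        exact D.inter_finite _ huv _ huw hne)
      ⟨p, by rw [hα, hβ]; exact hp, by
        rw [hα0]
        rintro rfl
        exact hpp ⟨u, rfl⟩⟩
  rcases ht2.eq_or_lt with h1 | h1
  · rw [h1] at hfirst
    exact unc2 D huv huw hvw hαc hαi hβc hβi hα0 hα1 hβ0 hβ1 hα hβ ht0 ht1 hr0 hr1 htr hlast hfirst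
  · exact unc1 D huv huw hvw hαc hαi hβc hβi hα0 hα1 hβ0 hβ1 hα hβ ht0 ht1 hr0 hr1 htr hlast ht20
      h1 (hlt h1) hr21 htr2 hfirst

end H29.BP
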